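import Pool.Agent.H97.QLaw

/-!
Conditional probabilities of the two scenarios for `MP_99a865_pr`.
-/

open MeasureTheory ProbabilityTheory Filter Topology

namespace Pool.Agent.H97.Queue

open QWalk

variable {D : ℕ → ℕ}

lemma xs_eq_vals (τ : ℕ → ℕ) : (fun k => xs D (τ k)) = fun k => 1 - vals D (τ k) := by
  funext k; simp only [vals]; ring

lemma mem_busy_iff (τ : ℕ → ℕ) (n : ℕ) :
    Phi D τ ∈ busyEvent n ↔ Hit (hist (fun k => xs D (τ k)) n) := by
  rw [xs_eq_vals, ← busy_hist]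
  rfl

lemma split_busy (h : Lv D) {j n : ℕ} (hn : n + 2 ≤ D (j + 1)) :
    Phi D ⁻¹' busyEvent (n + 2) =
      EvG (xs D) (j + 1) (n + 2) (fun l => Hit l ∧ True) ∪
      (EvG (xs D) (j + 1) (n + 1) (fun l => Surv l ∧ True) ∩ {τ | τ (n + 1) ∈ Set.Ici (j + 1)}) := by
  have hbig : ∀ i, j + 1 ≤ i → ((n + 2 : ℕ) : ℝ) ≤ D i := by
    intro i hi
    exact_mod_cast hn.trans (h.mono (by omega) hi)
  ext τ
  rw [Set.mem_preimage, mem_busy_iff]
  simp only [Set.mem_union, Set.mem_inter_iff, EvG, Set.mem_ofPred_eq, Set.mem_Ici, and_true]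
  constructor
  · intro hh
    have hs : Surv (hist (fun k => xs D (τ k)) (n + 1)) := hh.1
    have hs' := hs
    rw [xs_eq_vals, surv_hist] at hs'
    have hlow : ∀ k, k < n + 1 → τ k < j + 1 := by
      intro k hk
      by_contra hcon
      push Not at hcon
      have h1 := hs' (k + 1) (by omega)
      rw [arrival_succ] at h1
      have h2 := arrival_nonneg (u := fun k => vals D (τ k)) (fun k => vals_pos D _) k
      obtain ⟨i, hi⟩ : ∃ i, τ k = i + 1 := ⟨τ k - 1, by omega⟩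
      have h3 := hbig (τ k) hcon
      rw [hi, vals_succ] at h1
      rw [hi] at h3
      have h4 : ((k + 1 : ℕ) : ℝ) ≤ ((n + 2 : ℕ) : ℝ) := by exact_mod_cast (by omega : k + 1 ≤ n + 2)
      linarith
    by_cases h1 : τ (n + 1) < j + 1
    · left
      refine ⟨fun k hk => ?_, hh⟩
      rcases Nat.lt_or_ge k (n + 1) with h2 | h2
      · exact hlow k h2
      · have : k = n + 1 := by omega
        subst this; exact h1
    · right
      exact ⟨⟨hlow, hs⟩, by omega⟩
  · rintro (⟨_, hh⟩ | ⟨⟨_, hs⟩, h1⟩)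
    · exact hh
    · refine ⟨hs, ?_⟩
      have h2 := hist_sum (fun k => vals D (τ k)) (n + 1)
      rw [← xs_eq_vals] at h2
      have h3 := arrival_nonneg (u := fun k => vals D (τ k)) (fun k => vals_pos D _) (n + 1)
      obtain ⟨i, hi⟩ : ∃ i, τ (n + 1) = i + 1 := ⟨τ (n + 1) - 1, by omega⟩
      have h4 := hbig (τ (n + 1)) h1
      change xs D (τ (n + 1)) + (hist (fun k => xs D (τ k)) (n + 1)).sum < 0
      rw [h2, hi, xs_succ]
      rw [hi] at h4
      push_cast at h4 ⊢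
      linarith

lemma law_A (h : Lv D) (j n : ℕ) (G : List ℝ → Prop) :
    seqLaw (pp D) (EvG (xs D) (j + 1) n G) = ENNReal.ofReal ((1 / Rt D) ^ n *
      W (Finset.range (j + 1)) (rs D) (xs D) n (ind G)) := by
  rw [seqLaw_EvG (pp_nonneg h.one) (hasSum_pp h.one), W_pp]

lemma law_B (h : Lv D) (j n : ℕ) (G : List ℝ → Prop) :
    seqLaw (pp D) (EvG (xs D) (j + 1) n G ∩ {τ | τ n ∈ Set.Ici (j + 1)}) =
      ENNReal.ofReal ((1 / Rt D) ^ (n + 1) *
        (W (Finset.range (j + 1)) (rs D) (xs D) n (ind G) * ∑' i, rs D (i + (j + 1)))) := by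
  rw [seqLaw_EvG_tail (pp_nonneg h.one) (hasSum_pp h.one), W_pp]
  congr 1
  have : ∑' i, pp D (i + (j + 1)) = (∑' i, rs D (i + (j + 1))) / Rt D := by
    rw [← tsum_div_const]; rfl
  rw [this, pow_succ]; ring

lemma ind_and (p q : List ℝ → Prop) (l : List ℝ) : ind (fun l => p l ∧ q l) l = ind p l * ind q l := by
  unfold ind
  by_cases h1 : p l <;> by_cases h2 : q l <;> simp [h1, h2]

lemma W_and (s : Finset ℕ) (r x : ℕ → ℝ) (n : ℕ) (p q : List ℝ → Prop) :
    W s r x n (ind (fun l => p l ∧ q l)) =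
      W s r x n (ind p) - W s r x n (fun l => ind p l * (1 - ind q l)) := by
  rw [← W_sub]
  congr 1
  funext l
  rw [ind_and]; ring

lemma W_and_true (s : Finset ℕ) (r x : ℕ → ℝ) (n : ℕ) (p : List ℝ → Prop) :
    W s r x n (ind (fun l => p l ∧ True)) = W s r x n (ind p) := by
  congr 1
  funext l
  unfold ind
  by_cases h : p l <;> simp [h]

/-- the two scenarios at level `j` -/
lemma core (h : Lv D) {j : ℕ} (hj : 1 ≤ j) : ∃ n : ℕ, j ≤ n ∧
    Scale (gam j) j ((n + 2 : ℕ) : ℝ) ∧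
    queueLaw (mu D) (Measure.dirac 1) (busyEvent (n + 2)) ≠ 0 ∧
    (∀ E : Set ((ℕ → ℝ) × (ℕ → ℝ)), MeasurableSet E →
      (∀ τ : ℕ → ℕ, Hit (hist (fun k => xs D (τ k)) (n + 2)) →
        Bdd (((n + 2 : ℕ) : ℝ) ^ ((3 : ℝ) / 4)) (hist (fun k => xs D (τ k)) (n + 2)) →
        Phi D τ ∈ E) →
      (1 - 1 / ((j : ℝ) + 1)) * (odds j / (odds j + 2)) ≤
        (cond (queueLaw (mu D) (Measure.dirac 1)) (busyEvent (n + 2))).real E) ∧
    (∀ E : Set ((ℕ → ℝ) × (ℕ → ℝ)), MeasurableSet E →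
      (∀ τ : ℕ → ℕ, Surv (hist (fun k => xs D (τ k)) (n + 1)) →
        Lin (((n + 2 : ℕ) : ℝ) ^ ((1 : ℝ) / 8)) (gam j) (hist (fun k => xs D (τ k)) (n + 1)) →
        Phi D τ ∈ E) →
      (1 - 1 / ((j : ℝ) + 1)) * (1 / (1 + 2 * odds j)) ≤
        (cond (queueLaw (mu D) (Measure.dirac 1)) (busyEvent (n + 2))).real E) := by
  obtain ⟨n, h1, h2, h3, h4, hZ, hZb, hY, hYb, hr1, hr2⟩ := h.req j hj
  refine ⟨n, h1, h4, ?_⟩
  set Z := W (Finset.range (j + 1)) (rs D) (xs D) (n + 2) (ind Hit) with hZd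
  set Y := W (Finset.range (j + 1)) (rs D) (xs D) (n + 1) (ind Surv) with hYd
  set T := ∑' i, rs D (i + (j + 1)) with hT
  set c := (1 / Rt D) ^ (n + 2) with hc
  have hR := Rt_pos h.one
  have hc0 : 0 < c := by positivity
  obtain ⟨hT1, hT2⟩ := tail_bounds h j
  rw [← hT] at hT1 hT2
  have hrm : cc / 2 ^ (j + 1) / (D (j + 1) : ℝ) = rs D (j + 1) := (rs_succ D j).symm
  have hr0 := rs_pos (h.one (j + 1))
  have hT0 : 0 < T := lt_of_lt_of_le hr0 hT1
  rw [hrm] at hr1 hr2
  have hx := odds_pos j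
  set x := odds j with hxd
  have hYT : 0 < Y * T := mul_pos hY hT0
  have hodd1 : x * (Y * T) ≤ 2 * Z := by
    have : x * (Y * T) ≤ x * (Y * (2 * rs D (j + 1))) :=
      mul_le_mul_of_nonneg_left (mul_le_mul_of_nonneg_left hT2 hY.le) hx.le
    nlinarith
  have hodd2 : Z ≤ 2 * x * (Y * T) := by
    have : x * (Y * rs D (j + 1)) ≤ x * (Y * T) :=
      mul_le_mul_of_nonneg_left (mul_le_mul_of_nonneg_left hT1 hY.le) hx.le
    nlinarith
  set ε : ℝ := 1 / ((j : ℝ) + 1) with hε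
  have hε0 : 0 ≤ ε := by positivity
  have hε1 : ε ≤ 1 := by
    rw [hε, div_le_one (by positivity)]
    linarith [Nat.cast_nonneg (α := ℝ) j]
  -- the total mass
  set m := queueLaw (mu D) (Measure.dirac 1) with hm
  have hmeq : ∀ E : Set ((ℕ → ℝ) × (ℕ → ℝ)), MeasurableSet E →
      m E = seqLaw (pp D) (Phi D ⁻¹' E) := by
    intro E hE
    rw [hm, queueLaw_eq h.one, Measure.map_apply measurable_Phi hE]
  have htot : m (busyEvent (n + 2)) = ENNReal.ofReal (c * (Z + Y * T)) := by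
    rw [hmeq _ (measurableSet_busy _), split_busy h h3, measure_union]
    · rw [law_A h, law_B h, W_and_true, W_and_true, ← ENNReal.ofReal_add (by positivity)
        (by positivity)]
      congr 1
      rw [← hZd, ← hYd, ← hT, ← hc]; ring
    · rw [Set.disjoint_left]
      rintro τ ⟨h5, _⟩ ⟨_, h6⟩
      have h7 := h5 (n + 1) (by omega)
      simp only [Set.mem_ofPred_eq, Set.mem_Ici] at h6
      omega
    · exact (EvG_dependsOn _ _ _ _).measurableSet.inter
        ((MeasurableSet.of_discrete (s := Set.Ici (j + 1))).preimage (measurable_pi_apply (n + 1)))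
  have htot0 : 0 < c * (Z + Y * T) := by positivity
  have hne : m (busyEvent (n + 2)) ≠ 0 := by
    rw [htot]; exact (ENNReal.ofReal_pos.2 htot0).ne'
  -- lower bounds for conditional probabilities
  have hcond : ∀ (E : Set ((ℕ → ℝ) × (ℕ → ℝ))) (q : ℝ), MeasurableSet E → 0 ≤ q →
      ENNReal.ofReal (c * q) ≤ m (busyEvent (n + 2) ∩ E) →
      q / (Z + Y * T) ≤ (cond m (busyEvent (n + 2))).real E := by
    intro E q _ hq hle
    rw [Measure.real, cond_apply (measurableSet_busy _), htot]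
    have h5 : ENNReal.ofReal (q / (Z + Y * T)) ≤
        (ENNReal.ofReal (c * (Z + Y * T)))⁻¹ * m (busyEvent (n + 2) ∩ E) := by
      refine le_trans ?_ (mul_le_mul_right hle _)
      rw [← ENNReal.ofReal_inv_of_pos htot0, ← ENNReal.ofReal_mul (by positivity)]
      apply le_of_eq
      congr 1
      field_simp
    have hfin : (ENNReal.ofReal (c * (Z + Y * T)))⁻¹ * m (busyEvent (n + 2) ∩ E) ≠ ⊤ := by
      apply ENNReal.mul_ne_top
      · exact ENNReal.inv_ne_top.2 (ENNReal.ofReal_pos.2 htot0).ne'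
      · rw [hm, queueLaw_eq h.one]
        have := letterLaw_prob (pp_nonneg h.one) (hasSum_pp h.one)
        have h6 : IsProbabilityMeasure (seqLaw (pp D)) := by unfold seqLaw; infer_instance
        have h7 : IsProbabilityMeasure ((seqLaw (pp D)).map (Phi D)) :=
          Measure.isProbabilityMeasure_map measurable_Phi.aemeasurable
        exact measure_ne_top _ _
    exact (ENNReal.ofReal_le_iff_le_toReal hfin).1 h5
  refine ⟨hne, ?_, ?_⟩
  · intro E hE hsub
    have h5 : ENNReal.ofReal (c * ((1 - ε) * Z)) ≤ m (busyEvent (n + 2) ∩ E) := by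
      rw [hmeq _ ((measurableSet_busy _).inter hE)]
      have h6 : EvG (xs D) (j + 1) (n + 2)
          (fun l => Hit l ∧ Bdd (((n + 2 : ℕ) : ℝ) ^ ((3 : ℝ) / 4)) l) ⊆
          Phi D ⁻¹' (busyEvent (n + 2) ∩ E) := by
        rintro τ ⟨_, h7, h8⟩
        exact ⟨(mem_busy_iff τ _).2 h7, hsub τ h7 h8⟩
      refine le_trans ?_ (measure_mono h6)
      rw [law_A h, W_and]
      apply ENNReal.ofReal_le_ofReal
      apply mul_le_mul_of_nonneg_left _ hc0.le
      rw [← hZd]
      linarith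
    have h6 := hcond E ((1 - ε) * Z) hE (mul_nonneg (by linarith) hZ.le) h5
    refine le_trans ?_ h6
    rw [mul_div_assoc]
    apply mul_le_mul_of_nonneg_left _ (by linarith)
    rw [div_le_div_iff₀ (by positivity) (by positivity)]
    nlinarith
  · intro E hE hsub
    have h5 : ENNReal.ofReal (c * ((1 - ε) * (Y * T))) ≤ m (busyEvent (n + 2) ∩ E) := by
      rw [hmeq _ ((measurableSet_busy _).inter hE)]
      have h6 : EvG (xs D) (j + 1) (n + 1)
          (fun l => Surv l ∧ Lin (((n + 2 : ℕ) : ℝ) ^ ((1 : ℝ) / 8)) (gam j) l) ∩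
            {τ | τ (n + 1) ∈ Set.Ici (j + 1)} ⊆
          Phi D ⁻¹' (busyEvent (n + 2) ∩ E) := by
        rintro τ ⟨⟨h7, h8, h9⟩, h10⟩
        refine ⟨?_, hsub τ h8 h9⟩
        have : τ ∈ Phi D ⁻¹' busyEvent (n + 2) := by
          rw [split_busy h h3]
          exact Or.inr ⟨⟨h7, h8, trivial⟩, h10⟩
        exact this
      refine le_trans ?_ (measure_mono h6)
      rw [law_B h, W_and]
      apply ENNReal.ofReal_le_ofReal
      rw [← hc]
      apply mul_le_mul_of_nonneg_left _ hc0.le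
      rw [← hYd, ← hT, ← mul_assoc]
      apply mul_le_mul_of_nonneg_right _ hT0.le
      linarith
    have h6 := hcond E ((1 - ε) * (Y * T)) hE (mul_nonneg (by linarith) hYT.le) h5
    refine le_trans ?_ h6
    rw [mul_div_assoc]
    apply mul_le_mul_of_nonneg_left _ (by linarith)
    rw [div_le_div_iff₀ (by positivity) (by positivity)]
    nlinarith

end Pool.Agent.H97.Queue
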