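import Mathlib

/-!
Definitions for the single-server busy-period trees of `MP_99a865_pr`.
-/

open MeasureTheory ProbabilityTheory Filter Topology

namespace Pool.Agent.H97.Queue

/-- Arrival time of the customer with label `k` (customer number `k + 1` of the problem file; the
customer with label `0` is waiting at time `0`), for interarrival times `u 0, u 1, ...`. -/
noncomputable def arrival (u : ℕ → ℝ) (k : ℕ) : ℝ := ∑ i ∈ Finset.range k, u i

/-- The time at which the service of the customer with label `k` ends: single server, service in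
order of arrival, service times `v 0, v 1, ...`. -/
noncomputable def depart (u v : ℕ → ℝ) : ℕ → ℝ
  | 0 => v 0
  | k + 1 => max (depart u v k) (arrival u (k + 1)) + v (k + 1)

/-- The initial busy period consists of exactly `n` services: at the `n`-th service completion no
customer is waiting (the next one arrives later), and at every earlier one somebody is waiting. -/
def BusyLength (u v : ℕ → ℝ) (n : ℕ) : Prop :=
  1 ≤ n ∧ depart u v (n - 1) < arrival u n ∧
    ∀ k, 1 ≤ k → k < n → arrival u k ≤ depart u v (k - 1)

/-- The graph on the first `n` customers: `r < s` are joined when customer `s` arrives during the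
service time of customer `r`. -/
def tree (u v : ℕ → ℝ) (n : ℕ) : SimpleGraph (Fin n) :=
  SimpleGraph.fromRel (fun r s : Fin n =>
    r < s ∧ depart u v r - v r ≤ arrival u s ∧ arrival u s < depart u v r)

/-- Depth: graph distance from the first customer. -/
noncomputable def depth (u v : ℕ → ℝ) (n : ℕ) (s : Fin n) : ℕ :=
  (tree u v n).dist ⟨0, s.pos⟩ s

/-- Height: the maximal depth. -/
noncomputable def height (u v : ℕ → ℝ) (n : ℕ) : ℕ := Finset.univ.sup (depth u v n)

/-- Width: the maximal number of vertices of the same depth. -/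
noncomputable def width (u v : ℕ → ℝ) (n : ℕ) : ℕ :=
  ⨆ k : ℕ, (Finset.univ.filter fun s : Fin n => depth u v n s = k).card

/-- Total height: the sum of the depths. -/
noncomputable def totalHeight (u v : ℕ → ℝ) (n : ℕ) : ℕ := ∑ s : Fin n, depth u v n s

/-- The joint law of the interarrival times (i.i.d. with law `μ`) and the service times
(i.i.d. with law `ν`), the two sequences being independent. -/
noncomputable def queueLaw (μ ν : Measure ℝ) : Measure ((ℕ → ℝ) × (ℕ → ℝ)) :=
  (Measure.infinitePi fun _ : ℕ => μ).prod (Measure.infinitePi fun _ : ℕ => ν)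

/-- The event `N = n`. -/
def busyEvent (n : ℕ) : Set ((ℕ → ℝ) × (ℕ → ℝ)) := {ω | BusyLength ω.1 ω.2 n}

/-- The functional `Z` of the queue has a nondegenerate limit law: for some normalising sequences
`a n ≠ 0` and `b n` and some probability measure `L` which is not a point mass, the conditional law
of `(Z n - b n) / a n` given `N = n` converges weakly to `L` as `n → ∞` along the `n` with
`P(N = n) > 0`. -/
def HasNondegenerateLimit (μ ν : Measure ℝ) (Z : (ℕ → ℝ) → (ℕ → ℝ) → ℕ → ℕ) : Prop :=
  ∃ (a b : ℕ → ℝ) (L : Measure ℝ), (∀ n, a n ≠ 0) ∧ IsProbabilityMeasure L ∧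
    (∀ x, L ≠ Measure.dirac x) ∧
    ∀ f : BoundedContinuousFunction ℝ ℝ,
      Tendsto (fun n => ∫ ω, f (((Z ω.1 ω.2 n : ℝ) - b n) / a n) ∂(cond (queueLaw μ ν) (busyEvent n)))
        (atTop ⊓ 𝓟 {n | queueLaw μ ν (busyEvent n) ≠ 0}) (𝓝 (∫ x, f x ∂L))

end Pool.Agent.H97.Queue
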