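import Pool.Agent.H97.QMain

/-!
The law of the interarrival times for `MP_99a865_pr` and measurability of the tree functionals.
-/

open MeasureTheory ProbabilityTheory Filter Topology

namespace Pool.Agent.H97.Queue

open QWalk

/-- levels satisfying all requirements -/
structure Lv (D : ℕ → ℕ) : Prop where
  one : ∀ i, 1 ≤ D i
  req : ∀ j, 1 ≤ j → Req odds j D (D (j + 1))

variable {D : ℕ → ℕ}

lemma Lv.step (h : Lv D) {j : ℕ} (hj : 1 ≤ j) : D j ≤ D (j + 1) := by
  obtain ⟨n, _, h2, h3, _⟩ := h.req j hj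
  omega

lemma Lv.mono (h : Lv D) {i j : ℕ} (hi : 1 ≤ i) (hij : i ≤ j) : D i ≤ D j := by
  obtain ⟨k, rfl⟩ := Nat.exists_eq_add_of_le hij
  clear hij
  induction k with
  | zero => exact le_rfl
  | succ k ih => exact ih.trans (h.step (by omega))

lemma rs_le_geom (hD : ∀ i, 1 ≤ D i) (i : ℕ) : rs D i ≤ (1 / 2 : ℝ) ^ i := by
  cases i with
  | zero => rw [rs_zero]; norm_num
  | succ i =>
    rw [rs_succ]
    have h2 : (1 : ℝ) ≤ D (i + 1) := by exact_mod_cast hD (i + 1)
    have hc := cc_pos
    have hc1 := cc_lt_one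
    calc cc / 2 ^ (i + 1) / (D (i + 1) : ℝ) ≤ cc / 2 ^ (i + 1) := div_le_self (by positivity) h2
      _ ≤ 1 / 2 ^ (i + 1) := div_le_div_of_nonneg_right hc1.le (by positivity)
      _ = (1 / 2 : ℝ) ^ (i + 1) := by rw [one_div_pow]

lemma summable_rs (hD : ∀ i, 1 ≤ D i) : Summable (rs D) :=
  Summable.of_nonneg_of_le (fun i => (rs_pos (hD i)).le) (rs_le_geom hD)
    (summable_geometric_of_lt_one (by norm_num) (by norm_num))

/-- total weight -/
noncomputable def Rt (D : ℕ → ℕ) : ℝ := ∑' i, rs D i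

lemma Rt_pos (hD : ∀ i, 1 ≤ D i) : 0 < Rt D :=
  (summable_rs hD).tsum_pos (fun i => (rs_pos (hD i)).le) 0 (rs_pos (hD 0))

/-- probabilities of the letters -/
noncomputable def pp (D : ℕ → ℕ) (i : ℕ) : ℝ := rs D i / Rt D

lemma pp_nonneg (hD : ∀ i, 1 ≤ D i) (i : ℕ) : 0 ≤ pp D i :=
  div_nonneg (rs_pos (hD i)).le (Rt_pos hD).le

lemma hasSum_pp (hD : ∀ i, 1 ≤ D i) : HasSum (pp D) 1 := by
  have h := (summable_rs hD).hasSum.div_const (Rt D)
  rw [show (∑' i, rs D i) / Rt D = 1 from div_self (Rt_pos hD).ne'] at h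
  exact h

lemma W_pp (s : Finset ℕ) (x : ℕ → ℝ) (n : ℕ) (F : List ℝ → ℝ) :
    W s (pp D) x n F = (1 / Rt D) ^ n * W s (rs D) x n F := by
  rw [W_tilt (s := s) (r := pp D) (q := rs D) (φ := 1 / Rt D) (θ := 0)]
  · simp
  · intro i _
    rw [pp]; simp; ring

/-- the tail weights -/
lemma tail_bounds (h : Lv D) (j : ℕ) :
    rs D (j + 1) ≤ ∑' i, rs D (i + (j + 1)) ∧ ∑' i, rs D (i + (j + 1)) ≤ 2 * rs D (j + 1) := by
  have hs : Summable (fun i => rs D (i + (j + 1))) := (summable_nat_add_iff (j + 1)).2 (summable_rs h.one)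
  constructor
  · have := hs.le_tsum 0 (fun i _ => (rs_pos (h.one _)).le)
    simpa using this
  · have h1 : ∀ i, rs D (i + (j + 1)) ≤ (1 / 2 : ℝ) ^ i * rs D (j + 1) := by
      intro i
      rw [show i + (j + 1) = (i + j) + 1 by ring, rs_succ, rs_succ]
      have h2 : (D (j + 1) : ℝ) ≤ D (i + j + 1) := by
        exact_mod_cast h.mono (i := j + 1) (j := i + j + 1) (by omega) (by omega)
      have h3 : (0 : ℝ) < D (j + 1) := by exact_mod_cast h.one (j + 1)
      have hc := cc_pos
      calc cc / 2 ^ (i + j + 1) / (D (i + j + 1) : ℝ) ≤ cc / 2 ^ (i + j + 1) / (D (j + 1) : ℝ) :=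
            div_le_div_of_nonneg_left (by positivity) h3 h2
        _ = (1 / 2 : ℝ) ^ i * (cc / 2 ^ (j + 1) / (D (j + 1) : ℝ)) := by
            rw [one_div_pow]; field_simp; ring
    have h2 : Summable (fun i : ℕ => (1 / 2 : ℝ) ^ i * rs D (j + 1)) :=
      (summable_geometric_of_lt_one (by norm_num) (by norm_num)).mul_right _
    refine (hs.tsum_le_tsum h1 h2).trans (le_of_eq ?_)
    rw [tsum_mul_right, tsum_geometric_of_lt_one (by norm_num) (by norm_num)]
    norm_num

/-- the law of the interarrival times -/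
noncomputable def mu (D : ℕ → ℕ) : Measure ℝ := (letterLaw (pp D)).map (vals D)

lemma mu_prob (hD : ∀ i, 1 ≤ D i) : IsProbabilityMeasure (mu D) := by
  have := letterLaw_prob (pp_nonneg hD) (hasSum_pp hD)
  exact Measure.isProbabilityMeasure_map (Measurable.of_discrete.aemeasurable)

lemma mu_pos : mu D (Set.Iic 0) = 0 := by
  rw [mu, Measure.map_apply Measurable.of_discrete measurableSet_Iic]
  have : vals D ⁻¹' Set.Iic 0 = ∅ := by
    ext i
    simp only [Set.mem_preimage, Set.mem_Iic, Set.mem_empty_iff_false, iff_false, not_le]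
    exact vals_pos D i
  rw [this, measure_empty]

lemma abs_rs_xs (hD : ∀ i, 1 ≤ D i) (i : ℕ) : |rs D i * xs D i| ≤ (1 / 2 : ℝ) ^ i := by
  have hc := cc_pos
  have hc1 := cc_lt_one
  cases i with
  | zero => rw [rs_zero, xs_zero, one_mul, abs_of_pos hc]; simpa using hc1.le
  | succ i =>
    have h2 : (0 : ℝ) < D (i + 1) := by exact_mod_cast hD (i + 1)
    have : rs D (i + 1) * xs D (i + 1) = -(cc / 2 ^ (i + 1)) := by
      rw [rs_succ, xs_succ]; field_simp
    rw [this, abs_neg, abs_of_pos (by positivity), one_div_pow]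
    exact div_le_div_of_nonneg_right hc1.le (by positivity)

lemma summable_rs_xs (hD : ∀ i, 1 ≤ D i) : Summable (fun i => rs D i * xs D i) :=
  Summable.of_abs (Summable.of_nonneg_of_le (fun i => abs_nonneg _) (abs_rs_xs hD)
    (summable_geometric_of_lt_one (by norm_num) (by norm_num)))

lemma tsum_rs_xs (hD : ∀ i, 1 ≤ D i) : ∑' i, rs D i * xs D i = 0 := by
  have h1 := (summable_rs_xs hD).hasSum.tendsto_sum_nat
  have h2 : Tendsto (fun j : ℕ => ∑ i ∈ Finset.range (j + 1), rs D i * xs D i) atTop (𝓝 0) := by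
    have h3 : (fun j : ℕ => ∑ i ∈ Finset.range (j + 1), rs D i * xs D i) =
        fun j => cc * (1 / 2 : ℝ) ^ j := by
      funext j
      rw [drift_eq j (fun i _ => hD i), one_div_pow]; ring
    rw [h3]
    have := (tendsto_pow_atTop_nhds_zero_of_lt_one (r := (1 / 2 : ℝ)) (by norm_num)
      (by norm_num)).const_mul cc
    simpa using this
  exact tendsto_nhds_unique (h1.comp (tendsto_add_atTop_nat 1)) h2

lemma summable_pp_vals (hD : ∀ i, 1 ≤ D i) : Summable (fun i => pp D i * vals D i) := by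
  have h := ((summable_rs hD).sub (summable_rs_xs hD)).div_const (Rt D)
  refine h.congr (fun i => ?_)
  rw [pp, vals]; ring

lemma tsum_pp_vals (hD : ∀ i, 1 ≤ D i) : ∑' i, pp D i * vals D i = 1 := by
  have h := ((summable_rs hD).hasSum.sub (summable_rs_xs hD).hasSum).div_const (Rt D)
  rw [tsum_rs_xs hD, sub_zero, show (∑' i, rs D i) / Rt D = 1 from div_self (Rt_pos hD).ne'] at h
  rw [← h.tsum_eq]
  congr 1
  funext i
  rw [pp, vals]; ring

lemma integrable_vals (hD : ∀ i, 1 ≤ D i) : Integrable (vals D) (letterLaw (pp D)) := by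
  refine ⟨Measurable.of_discrete.aestronglyMeasurable, ?_⟩
  rw [HasFiniteIntegral, lintegral_countable']
  have h1 : ∀ i, ‖vals D i‖ₑ * letterLaw (pp D) {i} = ENNReal.ofReal (pp D i * vals D i) := by
    intro i
    rw [letterLaw_singleton, Real.enorm_eq_ofReal (vals_pos D i).le,
      ← ENNReal.ofReal_mul (vals_pos D i).le, mul_comm]
  simp only [h1]
  rw [← ENNReal.ofReal_tsum_of_nonneg (fun i => mul_nonneg (pp_nonneg hD i) (vals_pos D i).le)
    (summable_pp_vals hD)]
  exact ENNReal.ofReal_lt_top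

lemma integral_vals (hD : ∀ i, 1 ≤ D i) : ∫ i, vals D i ∂(letterLaw (pp D)) = 1 := by
  rw [integral_countable (integrable_vals hD), ← tsum_pp_vals hD]
  congr 1
  funext i
  rw [Measure.real, letterLaw_singleton, ENNReal.toReal_ofReal (pp_nonneg hD i), smul_eq_mul]

lemma integrable_mu (hD : ∀ i, 1 ≤ D i) : Integrable (fun x : ℝ => x) (mu D) := by
  rw [mu, integrable_map_measure measurable_id'.aestronglyMeasurable
    (Measurable.of_discrete.aemeasurable)]
  exact integrable_vals hD

lemma integral_mu (hD : ∀ i, 1 ≤ D i) : ∫ x, x ∂(mu D) = 1 := by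
  rw [mu, integral_map (Measurable.of_discrete.aemeasurable) measurable_id'.aestronglyMeasurable]
  exact integral_vals hD

/-- the sample of a sequence of letters -/
noncomputable def Phi (D : ℕ → ℕ) (τ : ℕ → ℕ) : (ℕ → ℝ) × (ℕ → ℝ) :=
  (fun k => vals D (τ k), fun _ => 1)

lemma measurable_vals : Measurable (vals D) := Measurable.of_discrete

lemma measurable_seq : Measurable (fun (τ : ℕ → ℕ) (k : ℕ) => vals D (τ k)) :=
  measurable_pi_lambda _ (fun k => measurable_vals.comp (measurable_pi_apply k))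

lemma measurable_Phi : Measurable (Phi D) := measurable_seq.prodMk measurable_const

lemma queueLaw_eq (hD : ∀ i, 1 ≤ D i) :
    queueLaw (mu D) (Measure.dirac 1) = (seqLaw (pp D)).map (Phi D) := by
  have := letterLaw_prob (pp_nonneg hD) (hasSum_pp hD)
  have hmu := mu_prob hD
  unfold queueLaw
  rw [Measure.infinitePi_dirac (fun _ : ℕ => (1 : ℝ)), Measure.prod_dirac]
  have h1 : (Measure.infinitePi fun _ : ℕ => mu D) =
      (seqLaw (pp D)).map (fun (τ : ℕ → ℕ) k => vals D (τ k)) := by
    unfold seqLaw mu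
    exact (Measure.infinitePi_map_pi (μ := fun _ : ℕ => letterLaw (pp D))
      (f := fun _ : ℕ => vals D) (fun _ => Measurable.of_discrete)).symm
  rw [h1, Measure.map_map (measurable_id'.prodMk measurable_const) measurable_seq]
  rfl

/-! ### measurability -/

lemma measurable_arrival (k : ℕ) :
    Measurable (fun ω : (ℕ → ℝ) × (ℕ → ℝ) => arrival ω.1 k) := by
  unfold arrival
  fun_prop

lemma measurable_depart (k : ℕ) :
    Measurable (fun ω : (ℕ → ℝ) × (ℕ → ℝ) => depart ω.1 ω.2 k) := by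
  induction k with
  | zero => simp only [depart]; fun_prop
  | succ k ih =>
    simp only [depart]
    exact (ih.max (measurable_arrival (k + 1))).add (by fun_prop)

lemma measurableSet_busy (n : ℕ) : MeasurableSet (busyEvent n) := by
  have h1 : busyEvent n = {ω | 1 ≤ n} ∩ ({ω | depart ω.1 ω.2 (n - 1) < arrival ω.1 n} ∩
      ⋂ k : ℕ, {ω | 1 ≤ k → k < n → arrival ω.1 k ≤ depart ω.1 ω.2 (k - 1)}) := by
    ext ω
    simp only [busyEvent, BusyLength, Set.mem_ofPred_eq, Set.mem_inter_iff, Set.mem_iInter]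
  rw [h1]
  refine MeasurableSet.inter (MeasurableSet.const _) (MeasurableSet.inter ?_ ?_)
  · exact measurableSet_lt (measurable_depart _) (measurable_arrival _)
  · refine MeasurableSet.iInter (fun k => ?_)
    by_cases h2 : 1 ≤ k
    · by_cases h3 : k < n
      · simp only [h2, h3, true_imp_iff]
        exact measurableSet_le (measurable_arrival _) (measurable_depart _)
      · simp [h3]
    · simp [h2]

lemma measurable_tree (n : ℕ) (g : SimpleGraph (Fin n) → ℕ) :
    Measurable (fun ω : (ℕ → ℝ) × (ℕ → ℝ) => g (tree ω.1 ω.2 n)) := by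
  have h1 : Measurable (fun (ω : (ℕ → ℝ) × (ℕ → ℝ)) (r s : Fin n) =>
      (r < s ∧ depart ω.1 ω.2 r - ω.2 r ≤ arrival ω.1 s ∧ arrival ω.1 s < depart ω.1 ω.2 r)) := by
    refine measurable_pi_lambda _ (fun r => measurable_pi_lambda _ (fun s => ?_))
    refine measurableSet_setOfPred.1 ?_
    refine MeasurableSet.inter (MeasurableSet.const _) (MeasurableSet.inter ?_ ?_)
    · exact measurableSet_le ((measurable_depart _).sub (by fun_prop)) (measurable_arrival _)
    · exact measurableSet_lt (measurable_arrival _) (measurable_depart _)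
  have h2 : Measurable (fun R : Fin n → Fin n → Prop => g (SimpleGraph.fromRel R)) :=
    measurable_of_countable _
  exact h2.comp h1

end Pool.Agent.H97.Queue
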