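import Pool.Agent.H97.QWalk

/-!
The recursive choice of the levels.
-/

open Filter Topology

namespace Pool.Agent.H97.Queue

open QWalk

/-- one minus the small interarrival time -/
noncomputable def cc : ℝ := 2 - √2

lemma cc_pos : 0 < cc := by
  have h : √2 < 2 := by
    rw [Real.sqrt_lt' (by norm_num)]; norm_num
  unfold cc; linarith

lemma cc_lt_one : cc < 1 := by
  have h : 1 < √2 := by
    rw [Real.lt_sqrt (by norm_num)]; norm_num
  unfold cc; linarith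

lemma irrational_one_sub_cc : Irrational (1 - cc) := by
  have : 1 - cc = √2 - (1 : ℕ) := by unfold cc; push_cast; ring
  rw [this]
  exact irrational_sqrt_two.sub_natCast 1

/-- steps -/
noncomputable def xs (D : ℕ → ℕ) (i : ℕ) : ℝ := if i = 0 then cc else -(D i : ℝ)

/-- relative weights -/
noncomputable def rs (D : ℕ → ℕ) (i : ℕ) : ℝ := if i = 0 then 1 else cc / 2 ^ i / (D i : ℝ)

lemma xs_zero (D : ℕ → ℕ) : xs D 0 = cc := by simp [xs]
lemma xs_succ (D : ℕ → ℕ) (i : ℕ) : xs D (i + 1) = -(D (i + 1) : ℝ) := by simp [xs]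
lemma rs_zero (D : ℕ → ℕ) : rs D 0 = 1 := by simp [rs]
lemma rs_succ (D : ℕ → ℕ) (i : ℕ) : rs D (i + 1) = cc / 2 ^ (i + 1) / (D (i + 1) : ℝ) := by
  simp [rs]

variable {D : ℕ → ℕ}

lemma rs_pos {i : ℕ} (hD : 1 ≤ D i) : 0 < rs D i := by
  cases i with
  | zero => rw [rs_zero]; norm_num
  | succ i =>
    rw [rs_succ]
    have : (0 : ℝ) < D (i + 1) := by exact_mod_cast hD
    have := cc_pos
    positivity

lemma drift_eq (j : ℕ) (hD : ∀ i, i ≤ j → 1 ≤ D i) :
    ∑ i ∈ Finset.range (j + 1), rs D i * xs D i = cc / 2 ^ j := by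
  induction j with
  | zero => simp [rs_zero, xs_zero]
  | succ j ih =>
    rw [Finset.sum_range_succ, ih (fun i hi => hD i (by omega)), rs_succ, xs_succ]
    have : (0 : ℝ) < D (j + 1) := by exact_mod_cast hD (j + 1) le_rfl
    field_simp
    ring

lemma total_le (j : ℕ) (hD : ∀ i, i ≤ j → 1 ≤ D i) :
    ∑ i ∈ Finset.range (j + 1), rs D i ≤ 1 + cc * (1 - 1 / 2 ^ j) := by
  induction j with
  | zero => simp [rs_zero]
  | succ j ih =>
    rw [Finset.sum_range_succ, rs_succ]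
    have h1 := ih (fun i hi => hD i (by omega))
    have h2 : (1 : ℝ) ≤ D (j + 1) := by exact_mod_cast hD (j + 1) le_rfl
    have hc := cc_pos
    have h3 : cc / 2 ^ (j + 1) / (D (j + 1) : ℝ) ≤ cc / 2 ^ (j + 1) :=
      div_le_self (by positivity) h2
    have h4 : cc * (1 - 1 / 2 ^ (j + 1)) = cc * (1 - 1 / 2 ^ j) + cc / 2 ^ (j + 1) := by
      field_simp; ring
    linarith

/-- the slope used at level `j` -/
noncomputable def gam (j : ℕ) : ℝ := cc / 2 ^ (j + 1)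

lemma gam_pos (j : ℕ) : 0 < gam j := by have := cc_pos; unfold gam; positivity

lemma gam_lt_one (j : ℕ) : gam j < 1 := by
  unfold gam
  have h1 := cc_pos
  have h2 := cc_lt_one
  have h3 : (1 : ℝ) ≤ 2 ^ (j + 1) := one_le_pow₀ (by norm_num)
  calc cc / 2 ^ (j + 1) ≤ cc := div_le_self h1.le h3
    _ < 1 := h2

lemma gam_drift (j : ℕ) (hD : ∀ i, i ≤ j → 1 ≤ D i) :
    gam j * ∑ i ∈ Finset.range (j + 1), rs D i < ∑ i ∈ Finset.range (j + 1), rs D i * xs D i := by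
  rw [drift_eq j hD]
  have h1 := total_le j hD
  have hc := cc_pos
  have hc1 := cc_lt_one
  have h2 : (0 : ℝ) < 1 / 2 ^ j := by positivity
  have h3 : ∑ i ∈ Finset.range (j + 1), rs D i < 2 := by nlinarith
  have h4 := gam_pos j
  have h5 : gam j * 2 = cc / 2 ^ j := by
    unfold gam; field_simp; ring
  calc gam j * ∑ i ∈ Finset.range (j + 1), rs D i < gam j * 2 := mul_lt_mul_of_pos_left h3 h4
    _ = _ := h5

/-- separation of scales -/
def Scale (γ C N : ℝ) : Prop :=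
  C * (N ^ ((3 : ℝ) / 4) + 2) ≤ γ * (N - 1) / 2 ∧
  C * (N ^ ((1 : ℝ) / 8) + 2 + Real.log N / γ) ≤ N / (N ^ ((3 : ℝ) / 4) + 2) - 1 ∧
  C * (N * (N ^ ((1 : ℝ) / 8) + 2 + Real.log N / γ)) ≤
    N / 2 * (N / (2 * (N ^ ((3 : ℝ) / 4) + 2)) - 1) ∧
  N ^ ((1 : ℝ) / 8) ≤ N - 1

lemma scale_eventually {γ C : ℝ} (hγ : 0 < γ) (hC : 0 ≤ C) :
    ∀ᶠ N : ℕ in atTop, Scale γ C N := by
  have h1 : Tendsto (fun N : ℕ => (N : ℝ) ^ ((1 : ℝ) / 8)) atTop atTop :=
    (tendsto_rpow_atTop (by norm_num : (0 : ℝ) < 1 / 8)).comp tendsto_natCast_atTop_atTop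
  set g := 2 + 8 / γ with hg
  have hg2 : 0 < g := by positivity
  filter_upwards [h1.eventually_ge_atTop (2 + 8 * (C * g + 1) + (8 * C / γ + 1)),
    eventually_ge_atTop 1] with N hN hN1
  have hN0 : (0 : ℝ) < N := by exact_mod_cast hN1
  set a : ℝ := (N : ℝ) ^ ((1 : ℝ) / 8) with ha
  have ha8 : a ^ 8 = N := by
    rw [ha, ← Real.rpow_natCast, ← Real.rpow_mul hN0.le]; norm_num
  have ha6 : (N : ℝ) ^ ((3 : ℝ) / 4) = a ^ 6 := by
    rw [ha, ← Real.rpow_natCast, ← Real.rpow_mul hN0.le]; norm_num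
  have hCg : 0 ≤ C * g := by positivity
  have hCγ : 0 ≤ 8 * C / γ := by positivity
  have ha2 : 2 ≤ a := by nlinarith
  have haC : 8 * (C * g + 1) ≤ a := by nlinarith
  have haγ : 8 * C / γ + 1 ≤ a := by nlinarith
  have ha0 : 0 < a := by linarith
  have hlog : Real.log N ≤ 8 * a := by
    rw [← ha8, Real.log_pow]
    have := Real.log_le_sub_one_of_pos ha0
    push_cast
    linarith
  have hB : a + 2 + Real.log N / γ ≤ a * g := by
    have h2 : Real.log N / γ ≤ 8 * a / γ := by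
      exact div_le_div_of_nonneg_right hlog hγ.le
    have h3 : a * g = a + a + 8 * a / γ := by rw [hg]; field_simp; ring
    linarith
  have hB' : C * (a + 2 + Real.log N / γ) ≤ a * (C * g) := by
    calc C * (a + 2 + Real.log N / γ) ≤ C * (a * g) := mul_le_mul_of_nonneg_left hB hC
      _ = _ := by ring
  have ha6' : a ^ 6 + 2 ≤ 2 * a ^ 6 := by
    have : (2 : ℝ) ^ 6 ≤ a ^ 6 := pow_le_pow_left₀ (by norm_num) ha2 6
    linarith [this, (by norm_num : (2 : ℝ) ^ 6 = 64)]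
  have hq : a ^ 2 / 2 ≤ (N : ℝ) / (a ^ 6 + 2) := by
    rw [div_le_div_iff₀ (by norm_num) (by positivity), ← ha8]
    calc a ^ 2 * (a ^ 6 + 2) ≤ a ^ 2 * (2 * a ^ 6) := mul_le_mul_of_nonneg_left ha6' (by positivity)
      _ = a ^ 8 * 2 := by ring
  unfold Scale
  rw [ha6, ← ha]
  refine ⟨?_, ?_, ?_, ?_⟩
  · have h2 : C * (a ^ 6 + 2) ≤ C * (2 * a ^ 6) := mul_le_mul_of_nonneg_left ha6' hC
    have h3 : 8 * C ≤ γ * a := by
      have : 8 * C / γ ≤ a := by linarith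
      rw [div_le_iff₀ hγ] at this
      linarith
    have h4 : 8 * C * a ^ 6 ≤ γ * a * a ^ 6 := mul_le_mul_of_nonneg_right h3 (by positivity)
    have h5 : γ * a * a ^ 6 * 1 ≤ γ * a * a ^ 6 * a :=
      mul_le_mul_of_nonneg_left (by linarith) (by positivity)
    have h6 : a ^ 8 / 2 ≤ a ^ 8 - 1 := by
      have : (2 : ℝ) ^ 8 ≤ a ^ 8 := pow_le_pow_left₀ (by norm_num) ha2 8
      linarith [this, (by norm_num : (2 : ℝ) ^ 8 = 256)]
    have h7 : γ * (a ^ 8 / 2) ≤ γ * (a ^ 8 - 1) := mul_le_mul_of_nonneg_left h6 hγ.le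
    rw [← ha8]
    nlinarith
  · nlinarith
  · have h2 : a ^ 2 / 4 ≤ (N : ℝ) / (2 * (a ^ 6 + 2)) := by
      have : (N : ℝ) / (2 * (a ^ 6 + 2)) = (N : ℝ) / (a ^ 6 + 2) / 2 := by
        rw [div_div, mul_comm 2]
      rw [this]; linarith
    have h3 : C * (a + 2 + Real.log N / γ) ≤ 1 / 2 * ((N : ℝ) / (2 * (a ^ 6 + 2)) - 1) := by
      nlinarith
    calc C * ((N : ℝ) * (a + 2 + Real.log N / γ)) = N * (C * (a + 2 + Real.log N / γ)) := by ring
      _ ≤ N * (1 / 2 * ((N : ℝ) / (2 * (a ^ 6 + 2)) - 1)) := mul_le_mul_of_nonneg_left h3 hN0.le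
      _ = _ := by ring
  · rw [← ha8]
    have h2 : (2 : ℝ) ^ 7 ≤ a ^ 7 := pow_le_pow_left₀ (by norm_num) ha2 7
    have h3 : a * 128 ≤ a * a ^ 7 := mul_le_mul_of_nonneg_left (by linarith [h2, (by norm_num : (2 : ℝ) ^ 7 = 128)]) ha0.le
    nlinarith

/-- The requirements on level `j` (letters `0, ..., j`) and the next value `m`. -/
def Req (xo : ℕ → ℝ) (j : ℕ) (D : ℕ → ℕ) (m : ℕ) : Prop :=
  ∃ n : ℕ, j ≤ n ∧ D j ≤ n + 2 ∧ n + 2 ≤ m ∧ Scale (gam j) j ((n + 2 : ℕ) : ℝ) ∧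
    0 < W (Finset.range (j + 1)) (rs D) (xs D) (n + 2) (ind Hit) ∧
    W (Finset.range (j + 1)) (rs D) (xs D) (n + 2) (fun l => ind Hit l *
      (1 - ind (Bdd (((n + 2 : ℕ) : ℝ) ^ ((3 : ℝ) / 4))) l)) ≤
      1 / (j + 1) * W (Finset.range (j + 1)) (rs D) (xs D) (n + 2) (ind Hit) ∧
    0 < W (Finset.range (j + 1)) (rs D) (xs D) (n + 1) (ind Surv) ∧
    W (Finset.range (j + 1)) (rs D) (xs D) (n + 1) (fun l => ind Surv l *
      (1 - ind (Lin (((n + 2 : ℕ) : ℝ) ^ ((1 : ℝ) / 8)) (gam j)) l)) ≤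
      1 / (j + 1) * W (Finset.range (j + 1)) (rs D) (xs D) (n + 1) (ind Surv) ∧
    xo j * (cc / 2 ^ (j + 1) / (m : ℝ)) * W (Finset.range (j + 1)) (rs D) (xs D) (n + 1) (ind Surv) ≤
      W (Finset.range (j + 1)) (rs D) (xs D) (n + 2) (ind Hit) ∧
    W (Finset.range (j + 1)) (rs D) (xs D) (n + 2) (ind Hit) ≤
      2 * (xo j * (cc / 2 ^ (j + 1) / (m : ℝ)) *
        W (Finset.range (j + 1)) (rs D) (xs D) (n + 1) (ind Surv))

lemma req_exists {xo : ℕ → ℝ} (hxo : ∀ j, 0 < xo j) {j : ℕ} (hj : 1 ≤ j)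
    (hD : ∀ i, i ≤ j → 1 ≤ D i) : ∃ m, Req xo j D m := by
  have hc := cc_pos
  set s := Finset.range (j + 1) with hs
  have hr : ∀ i ∈ s, 0 < rs D i := fun i hi => rs_pos (hD i (by
    have := Finset.mem_range.1 hi; omega))
  have hd : 0 < ∑ i ∈ s, rs D i * xs D i := by rw [hs, drift_eq j hD]; positivity
  have hneg : ∃ i ∈ s, xs D i < 0 := by
    refine ⟨1, Finset.mem_range.2 (by omega), ?_⟩
    have : (1 : ℝ) ≤ D 1 := by exact_mod_cast hD 1 hj
    rw [show (1 : ℕ) = 0 + 1 from rfl, xs_succ]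
    simp only [zero_add]
    linarith
  have hb : ∀ i ∈ s, |xs D i| ≤ ∑ k ∈ s, |xs D k| := fun i hi =>
    Finset.single_le_sum (f := fun k => |xs D k|) (fun k _ => abs_nonneg _) hi
  obtain ⟨n, hn1, hn2, hZ, hZb, hY, hYb, hC⟩ := stage (s := s) (r := rs D) (x := xs D)
    (γ := gam j) (ε := 1 / (j + 1)) (c := cc) (C := 2 ^ (j + 1) / (cc * xo j)) (i₀ := 0) hr hd hneg
    (Finset.mem_range.2 (by omega)) (xs_zero D) hc hb (gam_drift j hD) (by positivity)
    (by have := hxo j; positivity)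
    (scale_eventually (gam_pos j) (Nat.cast_nonneg j)) (j + D j)
  set Z := W s (rs D) (xs D) (n + 2) (ind Hit) with hZd
  set Y := W s (rs D) (xs D) (n + 1) (ind Surv) with hYd
  set A : ℝ := xo j * (cc / 2 ^ (j + 1)) * Y / Z with hA
  have hxj := hxo j
  have hAN : ((n + 2 : ℕ) : ℝ) ≤ A := by
    rw [hA, le_div_iff₀ hZ]
    have h1 : xo j * (cc / 2 ^ (j + 1)) * (2 ^ (j + 1) / (cc * xo j) * ((n + 2 : ℕ) : ℝ) * Z) ≤
        xo j * (cc / 2 ^ (j + 1)) * Y := mul_le_mul_of_nonneg_left hC (by positivity)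
    refine le_trans (le_of_eq ?_) h1
    field_simp
  have hA2 : (2 : ℝ) ≤ A := by
    have : (2 : ℝ) ≤ ((n + 2 : ℕ) : ℝ) := by push_cast; linarith [Nat.cast_nonneg (α := ℝ) n]
    linarith
  have hm1 : A ≤ (⌈A⌉₊ : ℝ) := Nat.le_ceil A
  have hm2 : (⌈A⌉₊ : ℝ) ≤ 2 * A := by
    have := Nat.ceil_lt_add_one (show 0 ≤ A by linarith)
    linarith
  have hm0 : (0 : ℝ) < (⌈A⌉₊ : ℝ) := by linarith
  have hAZ : A * Z = xo j * (cc / 2 ^ (j + 1)) * Y := by
    rw [hA]; field_simp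
  have heq : xo j * (cc / 2 ^ (j + 1) / (⌈A⌉₊ : ℝ)) * Y = A * Z / (⌈A⌉₊ : ℝ) := by
    rw [hAZ]; ring
  refine ⟨⌈A⌉₊, n, by omega, by omega, ?_, hn2, hZ, hZb, hY, hYb, ?_, ?_⟩
  · have : ((n + 2 : ℕ) : ℝ) ≤ (⌈A⌉₊ : ℝ) := hAN.trans hm1
    exact_mod_cast this
  · rw [heq, div_le_iff₀ hm0, mul_comm]
    exact mul_le_mul_of_nonneg_left hm1 hZ.le
  · rw [heq, ← mul_div_assoc, le_div_iff₀ hm0]
    calc Z * (⌈A⌉₊ : ℝ) ≤ Z * (2 * A) := mul_le_mul_of_nonneg_left hm2 hZ.le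
      _ = 2 * (A * Z) := by ring


lemma W_congr_letters {s : Finset ℕ} {r x r' x' : ℕ → ℝ} (hr : ∀ i ∈ s, r i = r' i)
    (hx : ∀ i ∈ s, x i = x' i) (n : ℕ) (F : List ℝ → ℝ) : W s r x n F = W s r' x' n F := by
  induction n generalizing F with
  | zero => rfl
  | succ n ih =>
    rw [W_succ, W_succ, ih]
    congr 1
    funext l
    exact Finset.sum_congr rfl (fun i hi => by rw [hr i hi, hx i hi])

lemma Req.congr {xo : ℕ → ℝ} {j m : ℕ} {D D' : ℕ → ℕ} (h : ∀ i, i ≤ j → D i = D' i)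
    (hq : Req xo j D m) : Req xo j D' m := by
  have hr : ∀ i ∈ Finset.range (j + 1), rs D i = rs D' i := fun i hi => by
    have := Finset.mem_range.1 hi
    unfold rs; rw [h i (by omega)]
  have hx : ∀ i ∈ Finset.range (j + 1), xs D i = xs D' i := fun i hi => by
    have := Finset.mem_range.1 hi
    unfold xs; rw [h i (by omega)]
  have hW : ∀ (k : ℕ) (F : List ℝ → ℝ), W (Finset.range (j + 1)) (rs D) (xs D) k F =
      W (Finset.range (j + 1)) (rs D') (xs D') k F := fun k F => W_congr_letters hr hx k F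
  obtain ⟨n, h1, h2, h3, h4, h5, h6, h7, h8, h9, h10⟩ := hq
  refine ⟨n, h1, by rw [← h j le_rfl]; exact h2, h3, h4, ?_⟩
  rw [← hW, ← hW, ← hW, ← hW]
  exact ⟨h5, h6, h7, h8, h9, h10⟩

/-- a sequence of levels with all requirements -/
lemma exists_levels {xo : ℕ → ℝ} (hxo : ∀ j, 0 < xo j) :
    ∃ D : ℕ → ℕ, (∀ i, 1 ≤ D i) ∧ ∀ j, 1 ≤ j → Req xo j D (D (j + 1)) := by
  classical
  -- the recursion
  let step : ℕ → (ℕ → ℕ) → ℕ := fun j D => if h : ∃ m, Req xo j D m then h.choose else 1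
  let F : ℕ → (ℕ → ℕ) := fun j => Nat.rec (fun _ => 1)
    (fun j D => if 1 ≤ j then Function.update D (j + 1) (step j D) else D) j
  have hF0 : F 0 = fun _ => 1 := rfl
  have hFs : ∀ j, F (j + 1) = if 1 ≤ j then Function.update (F j) (j + 1) (step j (F j)) else F j :=
    fun j => rfl
  -- values below `j` do not change any more
  have hstab : ∀ j i, i ≤ j → F (j + 1) i = F j i := by
    intro j i hi
    rw [hFs]
    split_ifs with h
    · rw [Function.update_of_ne (by omega)]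
    · rfl
  have hstab2 : ∀ j k i, i ≤ j → F (j + k) i = F j i := by
    intro j k i hi
    induction k with
    | zero => rfl
    | succ k ih => rw [← Nat.add_assoc, hstab (j + k) i (by omega), ih]
  have hge : ∀ j i, i ≤ j → 1 ≤ F j i := by
    intro j
    induction j with
    | zero => intro i _; rw [hF0]
    | succ j ih =>
      intro i hi
      rcases Nat.lt_or_ge i (j + 1) with h | h
      · rw [hstab j i (by omega)]; exact ih i (by omega)
      · have hij : i = j + 1 := by omega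
        subst hij
        rw [hFs]
        split_ifs with h1
        · rw [Function.update_self]
          have hex : ∃ m, Req xo j (F j) m := req_exists hxo h1 ih
          have : step j (F j) = hex.choose := dif_pos hex
          rw [this]
          obtain ⟨n, _, _, h3, _⟩ := hex.choose_spec
          omega
        · have : j = 0 := by omega
          subst this
          rw [hF0]
  refine ⟨fun i => F i i, fun i => hge i i le_rfl, ?_⟩
  intro j hj
  have hex : ∃ m, Req xo j (F j) m := req_exists hxo hj (hge j)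
  have h1 : F (j + 1) (j + 1) = hex.choose := by
    rw [hFs, if_pos hj, Function.update_self]
    exact dif_pos hex
  change Req xo j (fun i => F i i) (F (j + 1) (j + 1))
  rw [h1]
  refine hex.choose_spec.congr (fun i hi => ?_)
  obtain ⟨k, rfl⟩ := Nat.exists_eq_add_of_le hi
  exact hstab2 i k i le_rfl

/-- the odds -/
noncomputable def odds (j : ℕ) : ℝ :=
  if (Nat.unpair j).2 % 2 = 0 then 2 ^ (Nat.unpair j).1 else 1 / 2 ^ (Nat.unpair j).1

lemma odds_pos (j : ℕ) : 0 < odds j := by unfold odds; split_ifs <;> positivity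

lemma odds_large (k N : ℕ) : ∃ j, N ≤ j ∧ odds j = 2 ^ k := by
  refine ⟨Nat.pair k (2 * N), ?_, ?_⟩
  · have := Nat.right_le_pair k (2 * N); omega
  · unfold odds; rw [Nat.unpair_pair]; simp

lemma odds_small (k N : ℕ) : ∃ j, N ≤ j ∧ odds j = 1 / 2 ^ k := by
  refine ⟨Nat.pair k (2 * N + 1), ?_, ?_⟩
  · have := Nat.right_le_pair k (2 * N + 1); omega
  · unfold odds; rw [Nat.unpair_pair, if_neg (by simp only; omega)]

end Pool.Agent.H97.Queue
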