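import Mathlib

/-!
A criterion for the absence of a nondegenerate limit law under all affine normalisations.
-/

open MeasureTheory ProbabilityTheory Filter Topology

namespace Pool.Agent.H97.Queue

lemma eq_dirac_of_one {L : Measure ℝ} [IsProbabilityMeasure L] {y : ℝ} (h : L {y} = 1) :
    L = Measure.dirac y := by
  ext s hs
  have hc : L {y}ᶜ = 0 := by
    rw [measure_compl (measurableSet_singleton y) (measure_ne_top _ _), h, measure_univ]
    simp
  by_cases hy : y ∈ s
  · rw [Measure.dirac_apply' _ hs, Set.indicator_of_mem hy]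
    apply le_antisymm prob_le_one
    rw [← h]
    exact measure_mono (Set.singleton_subset_iff.2 hy)
  · rw [Measure.dirac_apply' _ hs, Set.indicator_of_notMem hy]
    apply measure_mono_null _ hc
    intro x hx hxy
    rw [Set.mem_singleton_iff] at hxy
    exact hy (hxy ▸ hx)

lemma dirac_of_atoms {L : Measure ℝ} [IsProbabilityMeasure L]
    (h : ∀ η : ℝ, 0 < η → η ≤ 1 / 4 → ∃ y, 1 - η ≤ L.real {y}) : ∃ y, L = Measure.dirac y := by
  obtain ⟨y, hy⟩ := h (1 / 4) (by norm_num) le_rfl
  refine ⟨y, eq_dirac_of_one ?_⟩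
  have h1 : ∀ η : ℝ, 0 < η → η ≤ 1 / 4 → 1 - η ≤ L.real {y} := by
    intro η hη hη'
    obtain ⟨z, hz⟩ := h η hη hη'
    by_cases hyz : z = y
    · rwa [hyz] at hz
    · exfalso
      have h2 : L.real ({y} ∪ {z}) = L.real {y} + L.real {z} :=
        measureReal_union (by simpa using fun h => hyz h.symm) (measurableSet_singleton z)
      have h3 : L.real ({y} ∪ {z}) ≤ 1 := measureReal_le_one
      linarith
  have h2 : (1 : ℝ) ≤ L.real {y} := by
    by_contra hcon
    push Not at hcon
    have h3 := h1 (min (1 / 4) ((1 - L.real {y}) / 2)) (lt_min (by norm_num) (by linarith))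
      (min_le_left _ _)
    have h4 := min_le_right (1 / 4) ((1 - L.real {y}) / 2)
    linarith
  have h3 : L.real {y} = 1 := le_antisymm measureReal_le_one h2
  have h4 := ENNReal.ofReal_toReal (measure_ne_top L {y})
  rw [← h4]
  change ENNReal.ofReal (L.real {y}) = 1
  rw [h3]; simp

theorem no_limit {Ω : Type*} [MeasurableSpace Ω] (P : ℕ → Measure Ω) (S : Set ℕ) (Z : Ω → ℕ → ℝ)
    (hP : ∀ n ∈ S, IsProbabilityMeasure (P n)) (hZ : ∀ n, Measurable (fun ω => Z ω n))
    (hZ0 : ∀ ω n, 0 ≤ Z ω n)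
    (hyp : ∀ η : ℝ, 0 < η → ∃ η' : ℝ, 0 < η' ∧ ∀ (M : ℝ) (n₀ : ℕ), ∃ n, n₀ ≤ n ∧ n ∈ S ∧
      ∃ s t : ℝ, 0 < s ∧ M * s ≤ t ∧ 1 - η ≤ (P n).real {ω | Z ω n ≤ s} ∧
        η' ≤ (P n).real {ω | t ≤ Z ω n})
    (a b : ℕ → ℝ) (ha : ∀ n, a n ≠ 0) (L : Measure ℝ) [IsProbabilityMeasure L]
    (hlim : ∀ f : BoundedContinuousFunction ℝ ℝ,
      Tendsto (fun n => ∫ ω, f ((Z ω n - b n) / a n) ∂(P n)) (atTop ⊓ 𝓟 S) (𝓝 (∫ x, f x ∂L))) :
    ∃ y, L = Measure.dirac y := by
  apply dirac_of_atoms
  intro η hη hη4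
  obtain ⟨η', hη', hyp⟩ := hyp η hη
  have hmeas : ∀ n, Measurable (fun ω => (Z ω n - b n) / a n) := fun n =>
    ((hZ n).sub_const _).div_const _
  set e := min η' (1 / 2) with he
  have he0 : 0 < e := lt_min hη' (by norm_num)
  -- tightness of `L`
  obtain ⟨K, hK0, hK⟩ : ∃ K : ℝ, 0 ≤ K ∧ L.real {x | K < |x|} < e := by
    have h1 : Tendsto (fun k : ℕ => L {x : ℝ | (k : ℝ) < |x|}) atTop
        (𝓝 (L (⋂ k : ℕ, {x : ℝ | (k : ℝ) < |x|}))) := by
      apply tendsto_measure_iInter_atTop
      · intro k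
        exact (measurableSet_lt measurable_const continuous_abs.measurable).nullMeasurableSet
      · intro k l hkl x hx
        simp only [Set.mem_ofPred_eq] at hx ⊢
        exact lt_of_le_of_lt (by exact_mod_cast hkl) hx
      · exact ⟨0, measure_ne_top _ _⟩
    have h2 : (⋂ k : ℕ, {x : ℝ | (k : ℝ) < |x|}) = ∅ := by
      ext x
      simp only [Set.mem_iInter, Set.mem_ofPred_eq, Set.mem_empty_iff_false, iff_false, not_forall,
        not_lt]
      exact exists_nat_ge |x|
    rw [h2, measure_empty] at h1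
    have h3 := (h1.eventually (gt_mem_nhds (show (0 : ENNReal) < ENNReal.ofReal e by
      rw [ENNReal.ofReal_pos]; exact he0))).exists
    obtain ⟨k, hk⟩ := h3
    refine ⟨k, Nat.cast_nonneg k, ?_⟩
    rw [Measure.real, ← ENNReal.toReal_ofReal he0.le]
    exact (ENNReal.toReal_lt_toReal (measure_ne_top _ _) ENNReal.ofReal_ne_top).2 hk
  -- the test function for tightness
  set g : BoundedContinuousFunction ℝ ℝ := BoundedContinuousFunction.ofNormedAddCommGroup
    (fun x => min 1 (max 0 (|x| - K))) (by fun_prop) 1 (by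
      intro x
      rw [Real.norm_eq_abs, abs_of_nonneg (le_min zero_le_one (le_max_left _ _))]
      exact min_le_left _ _) with hg
  have hgx : ∀ x, g x = min 1 (max 0 (|x| - K)) := fun x => rfl
  have hg0 : ∀ x, 0 ≤ g x := fun x => by rw [hgx]; exact le_min zero_le_one (le_max_left _ _)
  have hgL : ∫ x, g x ∂L < e := by
    refine lt_of_le_of_lt ?_ hK
    have h1 : ∀ x, g x ≤ Set.indicator {x : ℝ | K < |x|} (fun _ => (1 : ℝ)) x := by
      intro x
      by_cases hx : K < |x|
      · rw [Set.indicator_of_mem (show x ∈ {x : ℝ | K < |x|} from hx), hgx]; exact min_le_left _ _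
      · rw [Set.indicator_of_notMem (show x ∉ {x : ℝ | K < |x|} from hx), hgx]
        push Not at hx
        rw [max_eq_left (by linarith)]; simp
    have hms : MeasurableSet {x : ℝ | K < |x|} :=
      measurableSet_lt measurable_const continuous_abs.measurable
    calc ∫ x, g x ∂L ≤ ∫ x, Set.indicator {x : ℝ | K < |x|} (fun _ => (1 : ℝ)) x ∂L :=
          integral_mono (g.integrable L) ((integrable_const (1 : ℝ)).indicator hms) h1
      _ = L.real {x : ℝ | K < |x|} := by
          rw [integral_indicator hms]; simp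
  have hev := (hlim g).eventually (gt_mem_nhds hgL)
  -- for `n` in the eventual set
  have htail : ∀ n ∈ S, ∫ ω, g ((Z ω n - b n) / a n) ∂(P n) < e →
      (P n).real {ω | K + 1 ≤ |(Z ω n - b n) / a n|} < e := by
    intro n hn hlt
    haveI := hP n hn
    refine lt_of_le_of_lt ?_ hlt
    have hms : MeasurableSet {ω | K + 1 ≤ |(Z ω n - b n) / a n|} :=
      measurableSet_le measurable_const (continuous_abs.measurable.comp (hmeas n))
    have h1 : ∀ ω, Set.indicator {ω | K + 1 ≤ |(Z ω n - b n) / a n|} (fun _ => (1 : ℝ)) ω ≤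
        g ((Z ω n - b n) / a n) := by
      intro ω
      by_cases hx : K + 1 ≤ |(Z ω n - b n) / a n|
      · rw [Set.indicator_of_mem (show ω ∈ {ω | K + 1 ≤ |(Z ω n - b n) / a n|} from hx), hgx]
        exact le_min le_rfl (le_max_of_le_right (by linarith))
      · rw [Set.indicator_of_notMem (show ω ∉ {ω | K + 1 ≤ |(Z ω n - b n) / a n|} from hx)]
        exact hg0 _
    have hint : Integrable (fun ω => g ((Z ω n - b n) / a n)) (P n) := by
      refine Integrable.of_bound ((g.continuous.measurable.comp (hmeas n)).aestronglyMeasurable) 1 ?_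
      filter_upwards with ω
      rw [Real.norm_eq_abs, abs_of_nonneg (hg0 _), hgx]
      exact min_le_left _ _
    calc (P n).real {ω | K + 1 ≤ |(Z ω n - b n) / a n|}
        = ∫ ω, Set.indicator {ω | K + 1 ≤ |(Z ω n - b n) / a n|} (fun _ => (1 : ℝ)) ω ∂(P n) := by
          rw [integral_indicator hms]; simp
      _ ≤ _ := integral_mono ((integrable_const (1 : ℝ)).indicator hms) hint h1
  -- the sequence of indices
  have hseq : ∀ k : ℕ, ∃ n : ℕ, ∃ y : ℝ, k ≤ n ∧ n ∈ S ∧ |y| ≤ K + 1 ∧
      1 - η ≤ (P n).real {ω | |(Z ω n - b n) / a n - y| ≤ 2 * (K + 1) / (k + 1)} := by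
    intro k
    rw [eventually_inf_principal, eventually_atTop] at hev
    obtain ⟨n₁, hn₁⟩ := hev
    obtain ⟨n, hn, hnS, s, t, hs, hst, hP1, hP2⟩ := hyp (k + 2) (k + n₁)
    haveI := hP n hnS
    have h1 := htail n hnS (hn₁ n (by omega) hnS)
    set B := {ω | K + 1 ≤ |(Z ω n - b n) / a n|} with hB
    -- a point with `t ≤ Z` outside `B`
    obtain ⟨ω₁, hω₁, hω₁B⟩ : ∃ ω, t ≤ Z ω n ∧ ω ∉ B := by
      by_contra hcon
      push Not at hcon
      have : (P n).real {ω | t ≤ Z ω n} ≤ (P n).real B := measureReal_mono (fun ω hω => hcon ω hω)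
      have h2 : e ≤ η' := min_le_left _ _
      linarith
    obtain ⟨ω₂, hω₂, hω₂B⟩ : ∃ ω, Z ω n ≤ s ∧ ω ∉ B := by
      by_contra hcon
      push Not at hcon
      have : (P n).real {ω | Z ω n ≤ s} ≤ (P n).real B := measureReal_mono (fun ω hω => hcon ω hω)
      have h2 : e ≤ 1 / 2 := min_le_right _ _
      linarith
    simp only [hB, Set.mem_ofPred_eq, not_le] at hω₁B hω₂B
    have ha' : 0 < |a n| := abs_pos.2 (ha n)
    rw [abs_div, div_lt_iff₀ ha'] at hω₁B
    have hy := hω₂B
    rw [abs_div, div_lt_iff₀ ha'] at hω₂B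
    have hk0 : (0 : ℝ) < (k : ℝ) + 1 := by positivity
    have h3 : (k + 1) * s ≤ 2 * (K + 1) * |a n| := by
      have h4 := abs_lt.1 hω₁B
      have h5 := abs_lt.1 hω₂B
      nlinarith
    refine ⟨n, (Z ω₂ n - b n) / a n, by omega, hnS, hy.le, ?_⟩
    refine hP1.trans (measureReal_mono (fun ω hω => ?_))
    simp only [Set.mem_ofPred_eq] at hω ⊢
    have h4 : (Z ω n - b n) / a n - (Z ω₂ n - b n) / a n = (Z ω n - Z ω₂ n) / a n := by
      field_simp; ring
    rw [h4, abs_div, div_le_div_iff₀ ha' hk0]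
    have h5 : |Z ω n - Z ω₂ n| ≤ s := by
      rw [abs_le]
      have h6 := hZ0 ω n
      have h7 := hZ0 ω₂ n
      constructor <;> linarith
    calc |Z ω n - Z ω₂ n| * (k + 1) ≤ s * (k + 1) := mul_le_mul_of_nonneg_right h5 hk0.le
      _ = (k + 1) * s := by ring
      _ ≤ _ := h3
  choose n y hkn hnS hyK hPy using hseq
  -- a convergent subsequence
  obtain ⟨y₀, _, φ, hφ, hφy⟩ := (isCompact_Icc (a := -(K + 1)) (b := K + 1)).tendsto_subseq
    (x := y) (fun k => abs_le.1 (hyK k))
  refine ⟨y₀, ?_⟩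
  have hfil : Tendsto (fun k => n (φ k)) atTop (atTop ⊓ 𝓟 S) := by
    refine tendsto_inf.2 ⟨?_, tendsto_principal.2 (Eventually.of_forall (fun k => hnS _))⟩
    exact tendsto_atTop_mono (fun k => hkn (φ k)) hφ.tendsto_atTop
  -- balls have large mass
  have hball : ∀ ε : ℝ, 0 < ε → 1 - η ≤ L.real (Metric.closedBall y₀ (2 * ε)) := by
    intro ε hε
    set h : BoundedContinuousFunction ℝ ℝ := BoundedContinuousFunction.ofNormedAddCommGroup
      (fun x => max 0 (min 1 (2 - |x - y₀| / ε))) (by fun_prop) 1 (by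
        intro x
        rw [Real.norm_eq_abs, abs_of_nonneg (le_max_left _ _)]
        exact max_le zero_le_one (min_le_left _ _)) with hh
    have hhx : ∀ x, h x = max 0 (min 1 (2 - |x - y₀| / ε)) := fun x => rfl
    have hh0 : ∀ x, 0 ≤ h x := fun x => by rw [hhx]; exact le_max_left _ _
    have hh1 : ∀ x, h x ≤ 1 := fun x => by rw [hhx]; exact max_le zero_le_one (min_le_left _ _)
    have h1 : Tendsto (fun k => ∫ ω, h ((Z ω (n (φ k)) - b (n (φ k))) / a (n (φ k))) ∂(P (n (φ k))))
        atTop (𝓝 (∫ x, h x ∂L)) := (hlim h).comp hfil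
    have h2 : 1 - η ≤ ∫ x, h x ∂L := by
      refine ge_of_tendsto h1 ?_
      have h3 : Tendsto (fun k => y (φ k)) atTop (𝓝 y₀) := hφy
      have h4 : ∀ᶠ k in atTop, |y (φ k) - y₀| ≤ ε / 2 := by
        have := (Metric.tendsto_nhds.1 h3) (ε / 2) (by linarith)
        filter_upwards [this] with k hk
        rw [Real.dist_eq] at hk
        exact hk.le
      have h5 : Tendsto (fun k : ℕ => 2 * (K + 1) / ((k : ℝ) + 1)) atTop (𝓝 0) :=
        tendsto_const_nhds.div_atTop (tendsto_natCast_atTop_atTop.atTop_add tendsto_const_nhds)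
      have h6 : ∀ᶠ k in atTop, 2 * (K + 1) / ((φ k : ℝ) + 1) ≤ ε / 2 :=
        (h5.comp hφ.tendsto_atTop).eventually (ge_mem_nhds (by linarith))
      filter_upwards [h4, h6] with k hk4 hk6
      haveI := hP (n (φ k)) (hnS _)
      set m := n (φ k) with hm
      have hms : MeasurableSet {ω | |(Z ω m - b m) / a m - y (φ k)| ≤ 2 * (K + 1) / ((φ k : ℝ) + 1)} :=
        measurableSet_le (continuous_abs.measurable.comp ((hmeas m).sub_const _)) measurable_const
      have h7 : ∀ ω, Set.indicator {ω | |(Z ω m - b m) / a m - y (φ k)| ≤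
          2 * (K + 1) / ((φ k : ℝ) + 1)} (fun _ => (1 : ℝ)) ω ≤ h ((Z ω m - b m) / a m) := by
        intro ω
        by_cases hx : |(Z ω m - b m) / a m - y (φ k)| ≤ 2 * (K + 1) / ((φ k : ℝ) + 1)
        · rw [Set.indicator_of_mem (show ω ∈ {ω | |(Z ω m - b m) / a m - y (φ k)| ≤
            2 * (K + 1) / ((φ k : ℝ) + 1)} from hx), hhx]
          have h8 : |(Z ω m - b m) / a m - y₀| ≤ ε := by
            calc |(Z ω m - b m) / a m - y₀|
                = |((Z ω m - b m) / a m - y (φ k)) + (y (φ k) - y₀)| := by ring_nf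
              _ ≤ |(Z ω m - b m) / a m - y (φ k)| + |y (φ k) - y₀| := abs_add_le _ _
              _ ≤ ε := by linarith
          have h9 : |(Z ω m - b m) / a m - y₀| / ε ≤ 1 := (div_le_one hε).2 h8
          exact le_max_of_le_right (le_min le_rfl (by linarith))
        · rw [Set.indicator_of_notMem (show ω ∉ {ω | |(Z ω m - b m) / a m - y (φ k)| ≤
            2 * (K + 1) / ((φ k : ℝ) + 1)} from hx)]
          exact hh0 _
      have hint : Integrable (fun ω => h ((Z ω m - b m) / a m)) (P m) := by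
        refine Integrable.of_bound ((h.continuous.measurable.comp (hmeas m)).aestronglyMeasurable) 1 ?_
        filter_upwards with ω
        rw [Real.norm_eq_abs, abs_of_nonneg (hh0 _)]
        exact hh1 _
      calc 1 - η ≤ (P m).real {ω | |(Z ω m - b m) / a m - y (φ k)| ≤ 2 * (K + 1) / ((φ k : ℝ) + 1)} :=
            hPy (φ k)
        _ = ∫ ω, Set.indicator {ω | |(Z ω m - b m) / a m - y (φ k)| ≤
            2 * (K + 1) / ((φ k : ℝ) + 1)} (fun _ => (1 : ℝ)) ω ∂(P m) := by
            rw [integral_indicator hms]; simp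
        _ ≤ _ := integral_mono ((integrable_const (1 : ℝ)).indicator hms) hint h7
    refine h2.trans ?_
    have h3 : ∀ x, h x ≤ Set.indicator (Metric.closedBall y₀ (2 * ε)) (fun _ => (1 : ℝ)) x := by
      intro x
      by_cases hx : x ∈ Metric.closedBall y₀ (2 * ε)
      · rw [Set.indicator_of_mem hx]; exact hh1 x
      · rw [Set.indicator_of_notMem hx, hhx]
        rw [Metric.mem_closedBall, Real.dist_eq, not_le] at hx
        have : 2 < |x - y₀| / ε := by rw [lt_div_iff₀ hε]; exact hx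
        apply max_le le_rfl
        exact (min_le_right _ _).trans (by linarith)
    calc ∫ x, h x ∂L ≤ ∫ x, Set.indicator (Metric.closedBall y₀ (2 * ε)) (fun _ => (1 : ℝ)) x ∂L :=
          integral_mono (h.integrable L)
            ((integrable_const (1 : ℝ)).indicator Metric.isClosed_closedBall.measurableSet) h3
      _ = L.real (Metric.closedBall y₀ (2 * ε)) := by
          rw [integral_indicator Metric.isClosed_closedBall.measurableSet]; simp
  -- the atom
  have h1 : Tendsto (fun k : ℕ => L (Metric.closedBall y₀ (2 * (1 / ((k : ℝ) + 1))))) atTop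
      (𝓝 (L (⋂ k : ℕ, Metric.closedBall y₀ (2 * (1 / ((k : ℝ) + 1)))))) := by
    apply tendsto_measure_iInter_atTop
    · intro k
      exact Metric.isClosed_closedBall.measurableSet.nullMeasurableSet
    · intro k l hkl
      apply Metric.closedBall_subset_closedBall
      have : (k : ℝ) ≤ l := by exact_mod_cast hkl
      have h2 : 1 / ((l : ℝ) + 1) ≤ 1 / ((k : ℝ) + 1) :=
        one_div_le_one_div_of_le (by positivity) (by linarith)
      linarith
    · exact ⟨0, measure_ne_top _ _⟩
  have h2 : (⋂ k : ℕ, Metric.closedBall y₀ (2 * (1 / ((k : ℝ) + 1)))) = {y₀} := by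
    ext x
    simp only [Set.mem_iInter, Metric.mem_closedBall, Set.mem_singleton_iff]
    constructor
    · intro hx
      have h3 : Tendsto (fun k : ℕ => 2 * (1 / ((k : ℝ) + 1))) atTop (𝓝 (2 * 0)) :=
        tendsto_one_div_add_atTop_nhds_zero_nat.const_mul 2
      rw [mul_zero] at h3
      have h4 : dist x y₀ ≤ 0 := ge_of_tendsto h3 (Eventually.of_forall hx)
      exact dist_le_zero.1 h4
    · intro hx k
      rw [hx, dist_self]
      positivity
  rw [h2] at h1
  have h3 : ENNReal.ofReal (1 - η) ≤ L {y₀} := by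
    refine ge_of_tendsto h1 (Eventually.of_forall (fun k => ?_))
    have h4 := hball (1 / ((k : ℝ) + 1)) (by positivity)
    rw [Measure.real] at h4
    exact ENNReal.ofReal_le_of_le_toReal h4
  rw [Measure.real]
  exact (ENNReal.ofReal_le_iff_le_toReal (measure_ne_top _ _)).1 h3

end Pool.Agent.H97.Queue
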