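import Pool.Agent.H97.QMeas
import Pool.Agent.H97.QLevel

/-!
Main computations for `MP_99a865_pr`.
-/

open MeasureTheory ProbabilityTheory Filter Topology

namespace Pool.Agent.H97.Queue

open QWalk

/-- interarrival time of a letter -/
noncomputable def vals (D : ℕ → ℕ) (i : ℕ) : ℝ := 1 - xs D i

lemma vals_zero (D : ℕ → ℕ) : vals D 0 = 1 - cc := by rw [vals, xs_zero]
lemma vals_succ (D : ℕ → ℕ) (i : ℕ) : vals D (i + 1) = 1 + (D (i + 1) : ℝ) := by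
  rw [vals, xs_succ]; ring

lemma vals_pos (D : ℕ → ℕ) (i : ℕ) : 0 < vals D i := by
  cases i with
  | zero => rw [vals_zero]; have := cc_lt_one; linarith
  | succ i => rw [vals_succ]; positivity

lemma arrival_nonneg {u : ℕ → ℝ} (hu : ∀ k, 0 < u k) (k : ℕ) : 0 ≤ arrival u k :=
  Finset.sum_nonneg (fun i _ => (hu i).le)

lemma arrival_mono {u : ℕ → ℝ} (hu : ∀ k, 0 < u k) {r s : ℕ} (h : r ≤ s) :
    arrival u r ≤ arrival u s :=
  Finset.sum_le_sum_of_subset_of_nonneg (Finset.range_mono h) (fun i _ _ => (hu i).le)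

/-- no ties: an arrival time with a small first step is irrational -/
lemma arrival_irrational {D : ℕ → ℕ} {τ : ℕ → ℕ} (h0 : τ 0 = 0) (k : ℕ) :
    Irrational (arrival (fun k => vals D (τ k)) (k + 1)) := by
  have key : ∀ k, ∃ m N : ℕ, 1 ≤ m ∧ arrival (fun k => vals D (τ k)) (k + 1) =
      m * (1 - cc) + N := by
    intro k
    induction k with
    | zero =>
      refine ⟨1, 0, le_rfl, ?_⟩
      rw [arrival_succ, arrival_zero, h0, vals_zero]; push_cast; ring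
    | succ k ih =>
      obtain ⟨m, N, hm, h⟩ := ih
      rw [arrival_succ, h]
      rcases Nat.eq_zero_or_pos (τ (k + 1)) with h1 | h1
      · refine ⟨m + 1, N, by omega, ?_⟩
        rw [h1, vals_zero]; push_cast; ring
      · obtain ⟨i, hi⟩ : ∃ i, τ (k + 1) = i + 1 := ⟨τ (k + 1) - 1, by omega⟩
        refine ⟨m, N + (1 + D (i + 1)), hm, ?_⟩
        rw [hi, vals_succ]; push_cast; ring
  obtain ⟨m, N, hm, h⟩ := key k
  rw [h]
  exact (irrational_one_sub_cc.natCast_mul (by omega)).add_natCast N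

lemma first_letter {D : ℕ → ℕ} (hD : ∀ i, 1 ≤ D i) {τ : ℕ → ℕ}
    (h : arrival (fun k => vals D (τ k)) 1 ≤ 1) : τ 0 = 0 := by
  by_contra hne
  obtain ⟨i, hi⟩ : ∃ i, τ 0 = i + 1 := ⟨τ 0 - 1, by omega⟩
  rw [arrival_succ, arrival_zero, hi, vals_succ] at h
  have : (1 : ℝ) ≤ D (i + 1) := by exact_mod_cast hD (i + 1)
  linarith

lemma good_of {D : ℕ → ℕ} (hD : ∀ i, 1 ≤ D i) {τ : ℕ → ℕ} {n : ℕ} (hn : 1 ≤ n)
    (h : ∀ k, 1 ≤ k → k < n → arrival (fun k => vals D (τ k)) k ≤ k) :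
    Good (arrival (fun k => vals D (τ k))) n := by
  have hpos : ∀ k, 0 < vals D (τ k) := fun k => vals_pos D _
  refine ⟨hn, fun s _ => arrival_nonneg hpos s, ?_, fun r s hrs _ => arrival_mono hpos hrs⟩
  intro s hs hsn
  have h0 : τ 0 = 0 := first_letter hD (by simpa using h 1 le_rfl (by omega))
  obtain ⟨k, rfl⟩ : ∃ k, s = k + 1 := ⟨s - 1, by omega⟩
  refine lt_of_le_of_ne (h (k + 1) hs hsn) ?_
  exact Irrational.ne_nat (arrival_irrational (D := D) h0 k) (k + 1)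

/-- scenario A: consequences of small partial sums -/
lemma detA {D : ℕ → ℕ} (hD : ∀ i, 1 ≤ D i) {τ : ℕ → ℕ} {n : ℕ} {w : ℝ} (hw : 0 ≤ w)
    (h1 : Hit (hist (fun k => xs D (τ k)) n)) (h2 : Bdd w (hist (fun k => xs D (τ k)) n)) :
    (width (fun k => vals D (τ k)) (fun _ => 1) n : ℝ) ≤ w + 2 ∧
    (n : ℝ) / (w + 2) - 1 ≤ height (fun k => vals D (τ k)) (fun _ => 1) n ∧
    (n : ℝ) / 2 * (n / (2 * (w + 2)) - 1) ≤
      totalHeight (fun k => vals D (τ k)) (fun _ => 1) n := by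
  set u : ℕ → ℝ := fun k => vals D (τ k) with hu
  have hxs : (fun k => xs D (τ k)) = fun k => 1 - u k := by
    funext k; simp only [hu, vals]; ring
  rw [hxs] at h1 h2
  rw [hit_hist] at h1
  rw [bdd_hist] at h2
  have hg : Good (arrival u) n := good_of hD h1.1 h1.2.2
  have hwc : w ≤ (⌈w⌉₊ : ℝ) := Nat.le_ceil w
  have hwc2 : (⌈w⌉₊ : ℝ) < w + 1 := Nat.ceil_lt_add_one hw
  have hlev : ∀ k, lev (arrival u) n k ≤ ⌈w⌉₊ + 1 := by
    apply hg.lev_le_of (by omega)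
    intro s hs hsn
    have h3 := h2 s hs hsn.le
    have h4 : arrival u s < (⌊arrival u s⌋₊ : ℝ) + 1 := Nat.lt_floor_add_one _
    have h5 : (s : ℝ) < ((⌊arrival u s⌋₊ + (⌈w⌉₊ + 1) : ℕ) : ℝ) := by
      push_cast; linarith
    have : s < ⌊arrival u s⌋₊ + (⌈w⌉₊ + 1) := by exact_mod_cast h5
    omega
  have hM : ((⌈w⌉₊ + 1 : ℕ) : ℝ) ≤ w + 2 := by push_cast; linarith
  have hM0 : (0 : ℝ) < ((⌈w⌉₊ + 1 : ℕ) : ℝ) := by positivity
  have hw2 : 0 < w + 2 := by linarith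
  have hn0 : (0 : ℝ) ≤ n := Nat.cast_nonneg n
  refine ⟨?_, ?_, ?_⟩
  · have : (width u (fun _ => 1) n : ℝ) ≤ ((⌈w⌉₊ + 1 : ℕ) : ℝ) := by
      exact_mod_cast hg.width_le hlev
    linarith
  · rw [hg.height_eq]
    have h3 : (n : ℝ) ≤ ((dep (arrival u) (n - 1) : ℝ) + 1) * ((⌈w⌉₊ + 1 : ℕ) : ℝ) := by
      have := hg.le_height_mul hlev
      exact_mod_cast this
    have h4 : (n : ℝ) ≤ ((dep (arrival u) (n - 1) : ℝ) + 1) * (w + 2) :=
      h3.trans (mul_le_mul_of_nonneg_left hM (by positivity))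
    have h5 : (n : ℝ) / (w + 2) ≤ (dep (arrival u) (n - 1) : ℝ) + 1 := by
      rw [div_le_iff₀ hw2]; exact h4
    linarith
  · rw [hg.total_eq]
    set M : ℝ := ((⌈w⌉₊ + 1 : ℕ) : ℝ) with hMd
    set j := ⌊(n : ℝ) / (2 * M)⌋₊ with hj
    have h3 := Good.total_ge (U := arrival u) hlev j
    have h4 : (j : ℝ) * n ≤ ((∑ s ∈ Finset.range n, dep (arrival u) s : ℕ) : ℝ) + j * (j * M) := by
      rw [hMd]; exact_mod_cast h3
    have hj1 : (j : ℝ) ≤ (n : ℝ) / (2 * M) := Nat.floor_le (by positivity)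
    have hj2 : (n : ℝ) / (2 * M) < j + 1 := Nat.lt_floor_add_one _
    have hj3 : (j : ℝ) * M ≤ n / 2 := by
      rw [le_div_iff₀ (by positivity)] at hj1
      linarith
    have hj0 : (0 : ℝ) ≤ j := Nat.cast_nonneg j
    have h5 : (n : ℝ) / (2 * (w + 2)) ≤ (n : ℝ) / (2 * M) :=
      div_le_div_of_nonneg_left hn0 (by positivity) (by linarith)
    have h6 : (n : ℝ) / (2 * (w + 2)) - 1 ≤ j := by linarith
    have h7 : (j : ℝ) * (j * M) ≤ j * (n / 2) := mul_le_mul_of_nonneg_left hj3 hj0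
    have h8 : (n : ℝ) / 2 * (n / (2 * (w + 2)) - 1) ≤ n / 2 * j :=
      mul_le_mul_of_nonneg_left h6 (by positivity)
    linarith

/-- scenario B: consequences of linear growth -/
lemma detB {D : ℕ → ℕ} (hD : ∀ i, 1 ≤ D i) {τ : ℕ → ℕ} {n : ℕ} {K γ : ℝ} (hK1 : 1 ≤ K)
    (hγ0 : 0 < γ) (hγ1 : γ < 1) (hK2 : K ≤ (n : ℝ) + 1)
    (h1 : Surv (hist (fun k => xs D (τ k)) (n + 1)))
    (h2 : Lin K γ (hist (fun k => xs D (τ k)) (n + 1))) :
    (height (fun k => vals D (τ k)) (fun _ => 1) (n + 2) : ℝ) ≤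
      K + 2 + Real.log ((n + 2 : ℕ) : ℝ) / γ ∧
    γ * ((n : ℝ) + 1) / 2 ≤ width (fun k => vals D (τ k)) (fun _ => 1) (n + 2) ∧
    (totalHeight (fun k => vals D (τ k)) (fun _ => 1) (n + 2) : ℝ) ≤
      ((n + 2 : ℕ) : ℝ) * (K + 2 + Real.log ((n + 2 : ℕ) : ℝ) / γ) := by
  set u : ℕ → ℝ := fun k => vals D (τ k) with hu
  have hxs : (fun k => xs D (τ k)) = fun k => 1 - u k := by
    funext k; simp only [hu, vals]; ring
  rw [hxs] at h1 h2
  rw [surv_hist] at h1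
  rw [lin_hist] at h2
  have hg : Good (arrival u) (n + 2) := good_of hD (by omega) (fun k _ hk => h1 k (by omega))
  have hKc : K ≤ (⌈K⌉₊ : ℝ) := Nat.le_ceil K
  have hKc2 : (⌈K⌉₊ : ℝ) < K + 1 := Nat.ceil_lt_add_one (by linarith)
  have hKc1 : 1 ≤ ⌈K⌉₊ := Nat.one_le_ceil_iff.2 (by linarith)
  have hN : (1 : ℝ) ≤ ((n + 2 : ℕ) : ℝ) := by push_cast; linarith [Nat.cast_nonneg (α := ℝ) n]
  have hlog0 : 0 ≤ Real.log ((n + 2 : ℕ) : ℝ) := Real.log_nonneg hN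
  set t := ⌈Real.log ((n + 2 : ℕ) : ℝ) / γ⌉₊ with ht
  have ht1 : Real.log ((n + 2 : ℕ) : ℝ) / γ ≤ t := Nat.le_ceil _
  have ht2 : (t : ℝ) < Real.log ((n + 2 : ℕ) : ℝ) / γ + 1 :=
    Nat.ceil_lt_add_one (div_nonneg hlog0 hγ0.le)
  have hlin : ∀ m, ⌈K⌉₊ ≤ m → m < n + 2 → arrival u m ≤ (1 - γ) * m := by
    intro m hm hmn
    have h3 : K ≤ m := hKc.trans (by exact_mod_cast hm)
    have := h2 m (by omega) (by omega) h3
    linarith
  have hsmall : (((n + 2 - 1 : ℕ) : ℕ) : ℝ) * (1 - γ) ^ t < ⌈K⌉₊ := by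
    have h3 : (1 - γ) ^ t ≤ Real.exp (-(γ * t)) := by
      have h4 : 1 - γ ≤ Real.exp (-γ) := by
        have := Real.add_one_le_exp (-γ); linarith
      calc (1 - γ) ^ t ≤ Real.exp (-γ) ^ t := pow_le_pow_left₀ (by linarith) h4 t
        _ = Real.exp (-(γ * t)) := by rw [← Real.exp_nat_mul]; congr 1; ring
    have h4 : Real.exp (-(γ * t)) ≤ 1 / ((n + 2 : ℕ) : ℝ) := by
      have h5 : Real.log ((n + 2 : ℕ) : ℝ) ≤ γ * t := by
        rw [div_le_iff₀ hγ0] at ht1; linarith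
      calc Real.exp (-(γ * t)) ≤ Real.exp (-Real.log ((n + 2 : ℕ) : ℝ)) := by
            rw [Real.exp_le_exp]; linarith
        _ = 1 / ((n + 2 : ℕ) : ℝ) := by
            rw [Real.exp_neg, Real.exp_log (by linarith), one_div]
    have h5 : (((n + 2 - 1 : ℕ) : ℕ) : ℝ) = (n : ℝ) + 1 := by
      have : n + 2 - 1 = n + 1 := by omega
      rw [this]; push_cast; ring
    rw [h5]
    have h6 : ((n : ℝ) + 1) * (1 - γ) ^ t ≤ ((n : ℝ) + 1) * (1 / ((n + 2 : ℕ) : ℝ)) :=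
      mul_le_mul_of_nonneg_left (h3.trans h4) (by positivity)
    have h7 : ((n : ℝ) + 1) * (1 / ((n + 2 : ℕ) : ℝ)) < 1 := by
      rw [mul_one_div, div_lt_one (by linarith)]
      push_cast; linarith
    have h8 : (1 : ℝ) ≤ ⌈K⌉₊ := by exact_mod_cast hKc1
    linarith
  have hdep := hg.dep_log (K := ⌈K⌉₊) (γ := γ) (by linarith) hlin hKc1 t (n + 2 - 1) (by omega) hsmall
  have hheight : (dep (arrival u) (n + 2 - 1) : ℝ) ≤ K + 2 + Real.log ((n + 2 : ℕ) : ℝ) / γ := by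
    have : (dep (arrival u) (n + 2 - 1) : ℝ) ≤ (⌈K⌉₊ : ℝ) + t := by exact_mod_cast hdep
    linarith
  refine ⟨?_, ?_, ?_⟩
  · rw [hg.height_eq]; exact hheight
  · obtain ⟨k, hk⟩ := hg.le_lev (m := n + 1) (by omega) (by omega)
    have h3 := hg.lev_le_width k
    have h4 := h2 (n + 1) (by omega) le_rfl (by push_cast; exact hK2)
    have h5 : ((n + 1 : ℕ) : ℝ) ≤ (⌊arrival u (n + 1)⌋₊ : ℝ) + 2 * (lev (arrival u) (n + 2) k : ℝ) := by
      exact_mod_cast hk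
    have h6 : (⌊arrival u (n + 1)⌋₊ : ℝ) ≤ arrival u (n + 1) :=
      Nat.floor_le (hg.nonneg (n + 1) (by omega))
    have h7 : (lev (arrival u) (n + 2) k : ℝ) ≤ width u (fun _ => 1) (n + 2) := by exact_mod_cast h3
    push_cast at h4 h5
    linarith
  · rw [hg.total_eq]
    have h3 := hg.total_le
    have h4 : ((∑ s ∈ Finset.range (n + 2), dep (arrival u) s : ℕ) : ℝ) ≤
        ((n + 2 : ℕ) : ℝ) * (dep (arrival u) (n + 2 - 1) : ℝ) := by exact_mod_cast h3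
    refine h4.trans (mul_le_mul_of_nonneg_left hheight (by linarith))

end Pool.Agent.H97.Queue
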