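import Pool.Agent.H97.QDefs

/-!
Deterministic facts on the busy-period trees when all service times are one.
-/

namespace Pool.Agent.H97.Queue

open Finset

/-- a graph with a potential function has this function as its distance from the root -/
lemma dist_eq_of_potential {V : Type*} {G : SimpleGraph V} {root : V} {D : V → ℕ}
    (h0 : D root = 0) (h1 : ∀ a b, G.Adj a b → D b ≤ D a + 1)
    (h2 : ∀ s, s ≠ root → ∃ p, G.Adj p s ∧ D s = D p + 1) (s : V) : G.dist root s = D s := by
  have hw : ∀ (k : ℕ) (s : V), D s = k → ∃ p : G.Walk root s, p.length = k := by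
    intro k
    induction k with
    | zero =>
      intro s hs
      by_cases h : s = root
      · subst h; exact ⟨SimpleGraph.Walk.nil, rfl⟩
      · obtain ⟨p, _, hp⟩ := h2 s h
        omega
    | succ k ih =>
      intro s hs
      by_cases h : s = root
      · subst h; omega
      · obtain ⟨p, hp, hp'⟩ := h2 s h
        obtain ⟨w, hw⟩ := ih p (by omega)
        exact ⟨w.append (SimpleGraph.Walk.cons hp SimpleGraph.Walk.nil), by
          rw [SimpleGraph.Walk.length_append, hw]; rfl⟩
  have hge : ∀ (a b : V) (p : G.Walk a b), D b ≤ D a + p.length := by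
    intro a b p
    induction p with
    | nil => simp
    | cons h p ih =>
      rw [SimpleGraph.Walk.length_cons]
      have := h1 _ _ h
      omega
  obtain ⟨w, hwl⟩ := hw (D s) s rfl
  apply le_antisymm
  · rw [← hwl]; exact SimpleGraph.dist_le w
  · obtain ⟨p, hp⟩ := w.reachable.exists_walk_length_eq_dist
    have := hge _ _ p
    rw [← hp]; omega

/-- depth by iteration of the parent map `s ↦ ⌊U s⌋` -/
noncomputable def dep (U : ℕ → ℝ) : ℕ → ℕ
  | 0 => 0
  | s + 1 => if h : ⌊U (s + 1)⌋₊ < s + 1 then dep U ⌊U (s + 1)⌋₊ + 1 else 0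
termination_by s => s

lemma dep_zero (U : ℕ → ℝ) : dep U 0 = 0 := by rw [dep]

lemma dep_pos {U : ℕ → ℝ} {s : ℕ} (h : ⌊U s⌋₊ < s) : dep U s = dep U ⌊U s⌋₊ + 1 := by
  cases s with
  | zero => omega
  | succ s => rw [dep, dif_pos h]

/-- the hypotheses on the arrival times used below -/
structure Good (U : ℕ → ℝ) (n : ℕ) : Prop where
  pos : 1 ≤ n
  nonneg : ∀ s, s < n → 0 ≤ U s
  lt : ∀ s, 1 ≤ s → s < n → U s < s
  mono : ∀ r s, r ≤ s → s < n → U r ≤ U s

lemma Good.par_lt {U : ℕ → ℝ} {n s : ℕ} (h : Good U n) (hs : 1 ≤ s) (hn : s < n) : ⌊U s⌋₊ < s :=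
  (Nat.floor_lt (h.nonneg s hn)).2 (h.lt s hs hn)

lemma Good.dep_mono {U : ℕ → ℝ} {n : ℕ} (h : Good U n) : ∀ s, s < n → ∀ r, r ≤ s → dep U r ≤ dep U s := by
  intro s
  induction s using Nat.strong_induction_on with
  | _ s ih =>
    intro hs r hr
    rcases Nat.eq_zero_or_pos r with h0 | h0
    · subst h0; rw [dep_zero]; exact Nat.zero_le _
    · have hs1 : 1 ≤ s := by omega
      rw [dep_pos (h.par_lt h0 (by omega)), dep_pos (h.par_lt hs1 hs)]
      have h1 : ⌊U r⌋₊ ≤ ⌊U s⌋₊ := Nat.floor_mono (h.mono r s hr hs)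
      have h2 := h.par_lt hs1 hs
      have := ih ⌊U s⌋₊ h2 (by omega) ⌊U r⌋₊ h1
      omega

lemma Good.dep_le {U : ℕ → ℝ} {n : ℕ} (h : Good U n) : ∀ s, s < n → dep U s ≤ s := by
  intro s
  induction s using Nat.strong_induction_on with
  | _ s ih =>
    intro hs
    rcases Nat.eq_zero_or_pos s with h0 | h0
    · subst h0; rw [dep_zero]
    · have h1 := h.par_lt h0 hs
      rw [dep_pos h1]
      have := ih _ h1 (by omega)
      omega

lemma arrival_zero (u : ℕ → ℝ) : arrival u 0 = 0 := by simp [arrival]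

lemma arrival_succ (u : ℕ → ℝ) (k : ℕ) : arrival u (k + 1) = arrival u k + u k := by
  simp [arrival, Finset.sum_range_succ]

lemma depart_one {u : ℕ → ℝ} {n : ℕ} (h : ∀ k, 1 ≤ k → k < n → arrival u k ≤ k) (k : ℕ)
    (hk : k < n) : depart u (fun _ => 1) k = k + 1 := by
  induction k with
  | zero => simp [depart]
  | succ k ih =>
    rw [depart, ih (by omega)]
    have h1 := h (k + 1) (by omega) hk
    push_cast at h1 ⊢
    rw [max_eq_left h1]

lemma busy_iff {u : ℕ → ℝ} {n : ℕ} : BusyLength u (fun _ => 1) n ↔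
    1 ≤ n ∧ (n : ℝ) < arrival u n ∧ ∀ k, 1 ≤ k → k < n → arrival u k ≤ k := by
  have key : ∀ m, (∀ k, 1 ≤ k → k < m → arrival u k ≤ depart u (fun _ => 1) (k - 1)) →
      ∀ k, 1 ≤ k → k < m → arrival u k ≤ k := by
    intro m hm k
    induction k using Nat.strong_induction_on with
    | _ k ih =>
      intro hk hkm
      have h1 := hm k hk hkm
      have h2 : depart u (fun _ => 1) (k - 1) = ((k - 1 : ℕ) : ℝ) + 1 :=
        depart_one (n := k) (fun j hj hjk => ih j hjk hj (by omega)) (k - 1) (by omega)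
      rw [h2] at h1
      have : (((k - 1 : ℕ) : ℝ)) + 1 = k := by
        have : k - 1 + 1 = k := by omega
        exact_mod_cast this
      linarith
  constructor
  · rintro ⟨h1, h2, h3⟩
    have h4 := key n h3
    refine ⟨h1, ?_, h4⟩
    have h5 := depart_one (n := n) h4 (n - 1) (by omega)
    rw [h5] at h2
    have : (((n - 1 : ℕ) : ℝ)) + 1 = n := by
      have : n - 1 + 1 = n := by omega
      exact_mod_cast this
    linarith
  · rintro ⟨h1, h2, h3⟩
    have hc : ∀ k, 1 ≤ k → k ≤ n → depart u (fun _ => 1) (k - 1) = k := by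
      intro k hk hkn
      rw [depart_one (n := n) h3 (k - 1) (by omega)]
      have : k - 1 + 1 = k := by omega
      exact_mod_cast this
    refine ⟨h1, ?_, ?_⟩
    · rw [hc n h1 le_rfl]; exact h2
    · intro k hk hkn
      rw [hc k hk hkn.le]; exact h3 k hk hkn

lemma Good.depth_eq {u : ℕ → ℝ} {n : ℕ} (h : Good (arrival u) n) (s : Fin n) :
    depth u (fun _ => 1) n s = dep (arrival u) s := by
  have hdep : ∀ k, k < n → depart u (fun _ => 1) k = k + 1 :=
    depart_one (fun k hk hkn => (h.lt k hk hkn).le)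
  have hadj : ∀ r s : Fin n, (tree u (fun _ => 1) n).Adj r s ↔
      (r < s ∧ ⌊arrival u s⌋₊ = r) ∨ (s < r ∧ ⌊arrival u r⌋₊ = s) := by
    intro r s
    have key : ∀ r s : Fin n, (r < s ∧ depart u (fun _ => 1) r - 1 ≤ arrival u s ∧
        arrival u s < depart u (fun _ => 1) r) ↔ (r < s ∧ ⌊arrival u s⌋₊ = r) := by
      intro r s
      rw [hdep r r.2, Nat.floor_eq_iff (h.nonneg s s.2)]
      constructor
      · rintro ⟨h1, h2, h3⟩; exact ⟨h1, by linarith, h3⟩
      · rintro ⟨h1, h2, h3⟩; exact ⟨h1, by linarith, h3⟩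
    unfold tree
    rw [SimpleGraph.fromRel_adj, key r s, key s r]
    constructor
    · rintro ⟨_, h1⟩; exact h1
    · intro h1
      refine ⟨?_, h1⟩
      rcases h1 with h1 | h1
      · exact ne_of_lt h1.1
      · exact ne_of_gt h1.1
  unfold depth
  refine dist_eq_of_potential (D := fun s : Fin n => dep (arrival u) s) (by simp [dep_zero]) ?_ ?_ s
  · intro a b hab
    rcases (hadj a b).1 hab with ⟨h1, h2⟩ | ⟨h1, h2⟩
    · have h3 : ⌊arrival u b⌋₊ < (b : ℕ) := by rw [h2]; exact h1
      show dep (arrival u) b ≤ dep (arrival u) a + 1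
      rw [dep_pos h3, h2]
    · have h3 : ⌊arrival u a⌋₊ < (a : ℕ) := by rw [h2]; exact h1
      show dep (arrival u) b ≤ dep (arrival u) a + 1
      rw [dep_pos h3, h2]; omega
  · intro s hs
    have hs0 : (s : ℕ) ≠ 0 := by
      intro h0; apply hs; exact Fin.ext h0
    have h3 := h.par_lt (by omega) s.2
    refine ⟨⟨⌊arrival u s⌋₊, by omega⟩, ?_, ?_⟩
    · rw [hadj]; exact Or.inl ⟨h3, rfl⟩
    · exact dep_pos h3

/-- number of labels below `n` with a given depth -/
noncomputable def lev (U : ℕ → ℝ) (n k : ℕ) : ℕ := ((Finset.range n).filter fun s => dep U s = k).card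

lemma Good.card_eq {u : ℕ → ℝ} {n : ℕ} (h : Good (arrival u) n) (k : ℕ) :
    (Finset.univ.filter fun s : Fin n => depth u (fun _ => 1) n s = k).card =
      lev (arrival u) n k := by
  unfold lev
  refine Finset.card_bij (fun s _ => (s : ℕ)) ?_ ?_ ?_
  · intro s hs
    rw [Finset.mem_filter] at hs ⊢
    exact ⟨Finset.mem_range.2 s.2, by rw [← h.depth_eq]; exact hs.2⟩
  · intro a _ b _ hab
    exact Fin.ext hab
  · intro b hb
    rw [Finset.mem_filter, Finset.mem_range] at hb
    exact ⟨⟨b, hb.1⟩, Finset.mem_filter.2 ⟨Finset.mem_univ _, by rw [h.depth_eq]; exact hb.2⟩, rfl⟩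

lemma lev_le {U : ℕ → ℝ} {n k : ℕ} : lev U n k ≤ n := by
  unfold lev
  exact (Finset.card_filter_le _ _).trans (by simp)

lemma Good.lev_le_width {u : ℕ → ℝ} {n : ℕ} (h : Good (arrival u) n) (k : ℕ) :
    lev (arrival u) n k ≤ width u (fun _ => 1) n := by
  unfold width
  rw [← h.card_eq]
  apply le_ciSup (f := fun k : ℕ => (Finset.univ.filter fun s : Fin n =>
    depth u (fun _ => 1) n s = k).card)
  refine ⟨n, ?_⟩
  rintro _ ⟨j, rfl⟩
  simp only [h.card_eq]
  exact lev_le

lemma Good.width_le {u : ℕ → ℝ} {n M : ℕ} (h : Good (arrival u) n)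
    (hM : ∀ k, lev (arrival u) n k ≤ M) : width u (fun _ => 1) n ≤ M := by
  unfold width
  apply ciSup_le
  intro k
  rw [h.card_eq]
  exact hM k

/-- a level is at most as large as the largest queue -/
lemma Good.lev_le_of {U : ℕ → ℝ} {n M : ℕ} (h : Good U n) (hM1 : 1 ≤ M)
    (hM : ∀ s, 1 ≤ s → s < n → s ≤ ⌊U s⌋₊ + M) (k : ℕ) : lev U n k ≤ M := by
  unfold lev
  set A := (Finset.range n).filter fun s => dep U s = k with hA
  rcases A.eq_empty_or_nonempty with h0 | h0
  · rw [h0]; simp
  · set m := A.max' h0 with hm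
    have hmA : m ∈ A := A.max'_mem h0
    have hmA' := hmA
    rw [hA, Finset.mem_filter, Finset.mem_range] at hmA'
    rcases Nat.eq_zero_or_pos m with h1 | h1
    · have : A ⊆ {0} := by
        intro s hs
        have := A.le_max' s hs
        rw [← hm, h1] at this
        simpa using this
      exact (Finset.card_le_card this).trans (by simpa using hM1)
    · have hsub : A ⊆ Finset.Ioc ⌊U m⌋₊ m := by
        intro s hs
        rw [Finset.mem_Ioc]
        refine ⟨?_, A.le_max' s hs⟩
        by_contra hcon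
        push Not at hcon
        have h2 := h.par_lt h1 hmA'.1
        have h3 := h.dep_mono ⌊U m⌋₊ (by omega) s hcon
        have h4 := dep_pos h2
        have h5 := (Finset.mem_filter.1 hs).2
        omega
      refine (Finset.card_le_card hsub).trans ?_
      rw [Nat.card_Ioc]
      have := hM m h1 hmA'.1
      omega

/-- a large queue forces a large level -/
lemma Good.le_lev {U : ℕ → ℝ} {n m : ℕ} (h : Good U n) (hm1 : 1 ≤ m) (hm : m < n) :
    ∃ k, m ≤ ⌊U m⌋₊ + 2 * lev U n k := by
  have h2 := h.par_lt hm1 hm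
  have h4 := dep_pos h2
  have hsub : Finset.Ioc ⌊U m⌋₊ m ⊆
      ((Finset.range n).filter fun s => dep U s = dep U ⌊U m⌋₊) ∪
      ((Finset.range n).filter fun s => dep U s = dep U m) := by
    intro s hs
    rw [Finset.mem_Ioc] at hs
    have h5 := h.dep_mono m hm s hs.2
    have h6 := h.dep_mono s (by omega) ⌊U m⌋₊ hs.1.le
    rw [Finset.mem_union, Finset.mem_filter, Finset.mem_filter, Finset.mem_range]
    omega
  have h7 := (Finset.card_le_card hsub).trans (Finset.card_union_le _ _)
  rw [Nat.card_Ioc] at h7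
  by_cases h8 : lev U n (dep U ⌊U m⌋₊) ≤ lev U n (dep U m)
  · refine ⟨dep U m, ?_⟩
    unfold lev at h8 ⊢
    omega
  · refine ⟨dep U ⌊U m⌋₊, ?_⟩
    unfold lev at h8 ⊢
    omega


lemma Good.height_eq {u : ℕ → ℝ} {n : ℕ} (h : Good (arrival u) n) :
    height u (fun _ => 1) n = dep (arrival u) (n - 1) := by
  unfold height
  have hn := h.pos
  apply le_antisymm
  · apply Finset.sup_le
    intro s _
    rw [h.depth_eq]
    exact h.dep_mono (n - 1) (by omega) s (by have := s.2; omega)
  · have := Finset.le_sup (f := depth u (fun _ => 1) n) (Finset.mem_univ (⟨n - 1, by omega⟩ : Fin n))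
    rwa [h.depth_eq] at this

lemma Good.total_eq {u : ℕ → ℝ} {n : ℕ} (h : Good (arrival u) n) :
    totalHeight u (fun _ => 1) n = ∑ s ∈ Finset.range n, dep (arrival u) s := by
  unfold totalHeight
  rw [Finset.sum_range]
  exact Finset.sum_congr rfl (fun s _ => h.depth_eq s)

lemma Good.le_height_mul {U : ℕ → ℝ} {n M : ℕ} (h : Good U n) (hM : ∀ k, lev U n k ≤ M) :
    n ≤ (dep U (n - 1) + 1) * M := by
  have h1 := Finset.card_le_mul_card_image (f := dep U) (Finset.range n) M (fun a _ => hM a)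
  have h2 : (Finset.range n).image (dep U) ⊆ Finset.range (dep U (n - 1) + 1) := by
    intro k hk
    obtain ⟨s, hs, rfl⟩ := Finset.mem_image.1 hk
    rw [Finset.mem_range] at hs ⊢
    have := h.dep_mono (n - 1) (by omega) s (by omega)
    omega
  have h3 := Finset.card_le_card h2
  rw [Finset.card_range] at h1 h3
  calc n ≤ M * ((Finset.range n).image (dep U)).card := h1
    _ ≤ M * (dep U (n - 1) + 1) := Nat.mul_le_mul_left _ h3
    _ = _ := by ring

lemma Good.total_ge {U : ℕ → ℝ} {n M : ℕ} (hM : ∀ k, lev U n k ≤ M) (j : ℕ) :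
    j * n ≤ ∑ s ∈ Finset.range n, dep U s + j * (j * M) := by
  set A := (Finset.range n).filter fun s => dep U s < j with hA
  have h1 : A.card ≤ j * M := by
    have h2 := Finset.card_le_mul_card_image (f := dep U) A M (fun a _ => by
      refine le_trans (Finset.card_le_card ?_) (hM a)
      intro s hs
      rw [Finset.mem_filter] at hs ⊢
      exact ⟨(Finset.mem_filter.1 hs.1).1, hs.2⟩)
    have h3 : A.image (dep U) ⊆ Finset.range j := by
      intro k hk
      obtain ⟨s, hs, rfl⟩ := Finset.mem_image.1 hk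
      exact Finset.mem_range.2 (Finset.mem_filter.1 hs).2
    have h4 := Finset.card_le_card h3
    rw [Finset.card_range] at h4
    calc A.card ≤ M * (A.image (dep U)).card := h2
      _ ≤ M * j := Nat.mul_le_mul_left _ h4
      _ = _ := by ring
  have h5 : ∀ s ∈ Finset.range n, j ≤ dep U s + (if dep U s < j then j else 0) := by
    intro s _
    split_ifs with h6
    · omega
    · omega
  have h6 := Finset.sum_le_sum h5
  rw [Finset.sum_add_distrib, Finset.sum_const, Finset.card_range, smul_eq_mul,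
    ← Finset.sum_filter, Finset.sum_const, smul_eq_mul, ← hA] at h6
  have h7 : A.card * j ≤ j * (j * M) := by
    calc A.card * j ≤ (j * M) * j := Nat.mul_le_mul_right _ h1
      _ = _ := by ring
  calc j * n = n * j := by ring
    _ ≤ ∑ s ∈ Finset.range n, dep U s + A.card * j := h6
    _ ≤ _ := by omega

lemma Good.total_le {U : ℕ → ℝ} {n : ℕ} (h : Good U n) :
    ∑ s ∈ Finset.range n, dep U s ≤ n * dep U (n - 1) := by
  have : ∀ s ∈ Finset.range n, dep U s ≤ dep U (n - 1) := by
    intro s hs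
    rw [Finset.mem_range] at hs
    exact h.dep_mono (n - 1) (by omega) s (by omega)
  have h2 := Finset.sum_le_sum this
  rwa [Finset.sum_const, Finset.card_range, smul_eq_mul] at h2

lemma Good.dep_log {U : ℕ → ℝ} {n K : ℕ} {γ : ℝ} (h : Good U n) (hγ : 0 ≤ 1 - γ)
    (hK : ∀ m, K ≤ m → m < n → U m ≤ (1 - γ) * m) (hK1 : 1 ≤ K) :
    ∀ (t m : ℕ), m < n → (m : ℝ) * (1 - γ) ^ t < K → dep U m ≤ K + t := by
  intro t
  induction t with
  | zero =>
    intro m hm h1
    rw [pow_zero, mul_one] at h1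
    have h2 : m < K := by exact_mod_cast h1
    have := h.dep_le m hm
    omega
  | succ t ih =>
    intro m hm h1
    by_cases h2 : m < K
    · have := h.dep_le m hm
      omega
    · push Not at h2
      have h3 : ⌊U m⌋₊ < m := h.par_lt (by omega) hm
      have h4 : (⌊U m⌋₊ : ℝ) ≤ (1 - γ) * m :=
        (Nat.floor_le (h.nonneg m hm)).trans (hK m h2 hm)
      have h5 : ((⌊U m⌋₊ : ℕ) : ℝ) * (1 - γ) ^ t < K := by
        refine lt_of_le_of_lt ?_ h1
        calc (⌊U m⌋₊ : ℝ) * (1 - γ) ^ t ≤ ((1 - γ) * m) * (1 - γ) ^ t :=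
              mul_le_mul_of_nonneg_right h4 (pow_nonneg hγ t)
          _ = _ := by ring
      have h6 := ih _ (by omega) h5
      rw [dep_pos h3]
      omega

end Pool.Agent.H97.Queue
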