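import Pool.Agent.H97.QWalk
import Pool.Agent.H97.QTree
import Pool.Agent.H97.QLimit

/-!
The law of the busy-period trees for discrete interarrival times and unit service times.
-/

open MeasureTheory ProbabilityTheory Filter Topology

namespace Pool.Agent.H97.Queue

open QWalk

/-- history of a sequence of steps, most recent first -/
def hist (X : ℕ → ℝ) : ℕ → List ℝ
  | 0 => []
  | n + 1 => X n :: hist X n

lemma hist_congr {X Y : ℕ → ℝ} {n : ℕ} (h : ∀ k, k < n → X k = Y k) : hist X n = hist Y n := by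
  induction n with
  | zero => rfl
  | succ n ih => rw [hist, hist, h n (Nat.lt_succ_self n), ih (fun k hk => h k (by omega))]

lemma hist_length (X : ℕ → ℝ) (n : ℕ) : (hist X n).length = n := by
  induction n with
  | zero => rfl
  | succ n ih => rw [hist, List.length_cons, ih]

section hist

variable (u : ℕ → ℝ)

lemma hist_sum (n : ℕ) : (hist (fun k => 1 - u k) n).sum = n - arrival u n := by
  induction n with
  | zero => simp [hist, arrival_zero]
  | succ n ih =>
    rw [hist, List.sum_cons, ih, arrival_succ]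
    push_cast; ring

lemma surv_hist (n : ℕ) : Surv (hist (fun k => 1 - u k) n) ↔ ∀ k, k ≤ n → arrival u k ≤ k := by
  induction n with
  | zero =>
    simp only [hist, Surv, true_iff]
    intro k hk
    have : k = 0 := by omega
    subst this; simp [arrival_zero]
  | succ n ih =>
    have h1 := hist_sum u (n + 1)
    have h2 : Surv (hist (fun k => 1 - u k) (n + 1)) ↔
        Surv (hist (fun k => 1 - u k) n) ∧ 0 ≤ (hist (fun k => 1 - u k) (n + 1)).sum := Iff.rfl
    rw [h2, ih, h1]
    constructor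
    · rintro ⟨h3, h4⟩ k hk
      rcases Nat.lt_or_ge k (n + 1) with h | h
      · exact h3 k (by omega)
      · have : k = n + 1 := by omega
        subst this; linarith
    · intro h3
      exact ⟨fun k hk => h3 k (by omega), by have := h3 (n + 1) le_rfl; linarith⟩

lemma hit_hist (n : ℕ) : Hit (hist (fun k => 1 - u k) n) ↔
    1 ≤ n ∧ (n : ℝ) < arrival u n ∧ ∀ k, 1 ≤ k → k < n → arrival u k ≤ k := by
  cases n with
  | zero => simp [hist, Hit]
  | succ n =>
    have h1 := hist_sum u (n + 1)
    have h2 : Hit (hist (fun k => 1 - u k) (n + 1)) ↔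
        Surv (hist (fun k => 1 - u k) n) ∧ (hist (fun k => 1 - u k) (n + 1)).sum < 0 := Iff.rfl
    rw [h2, surv_hist, h1]
    constructor
    · rintro ⟨h3, h4⟩
      exact ⟨by omega, by linarith, fun k _ hk => h3 k (by omega)⟩
    · rintro ⟨_, h4, h5⟩
      refine ⟨fun k hk => ?_, by linarith⟩
      rcases Nat.eq_zero_or_pos k with h | h
      · subst h; simp [arrival_zero]
      · exact h5 k h (by omega)

lemma busy_hist (n : ℕ) : BusyLength u (fun _ => 1) n ↔ Hit (hist (fun k => 1 - u k) n) := by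
  rw [busy_iff, hit_hist]

lemma bdd_hist (w : ℝ) (n : ℕ) : Bdd w (hist (fun k => 1 - u k) n) ↔
    ∀ k, 1 ≤ k → k ≤ n → (k : ℝ) - arrival u k ≤ w := by
  induction n with
  | zero =>
    simp only [hist, Bdd, true_iff]
    intro k hk hk'
    omega
  | succ n ih =>
    have h1 := hist_sum u (n + 1)
    have h2 : Bdd w (hist (fun k => 1 - u k) (n + 1)) ↔
        Bdd w (hist (fun k => 1 - u k) n) ∧ (hist (fun k => 1 - u k) (n + 1)).sum ≤ w := Iff.rfl
    rw [h2, ih, h1]
    constructor
    · rintro ⟨h3, h4⟩ k hk hkn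
      rcases Nat.lt_or_ge k (n + 1) with h | h
      · exact h3 k hk (by omega)
      · have : k = n + 1 := by omega
        subst this; exact h4
    · intro h3
      exact ⟨fun k hk hkn => h3 k hk (by omega), h3 (n + 1) (by omega) le_rfl⟩

lemma lin_hist (K γ : ℝ) (n : ℕ) : Lin K γ (hist (fun k => 1 - u k) n) ↔
    ∀ k, 1 ≤ k → k ≤ n → K ≤ (k : ℝ) → γ * k < (k : ℝ) - arrival u k := by
  induction n with
  | zero =>
    simp only [hist, Lin, true_iff]
    intro k hk hk'
    omega
  | succ n ih =>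
    have h1 := hist_sum u (n + 1)
    have h2 : Lin K γ (hist (fun k => 1 - u k) (n + 1)) ↔
        Lin K γ (hist (fun k => 1 - u k) n) ∧
          (K ≤ ((hist (fun k => 1 - u k) (n + 1)).length : ℝ) →
            γ * ((hist (fun k => 1 - u k) (n + 1)).length : ℝ) <
              (hist (fun k => 1 - u k) (n + 1)).sum) := Iff.rfl
    rw [h2, ih, h1, hist_length]
    constructor
    · rintro ⟨h3, h4⟩ k hk hkn hK
      rcases Nat.lt_or_ge k (n + 1) with h | h
      · exact h3 k hk (by omega) hK
      · have : k = n + 1 := by omega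
        subst this; exact h4 hK
    · intro h3
      exact ⟨fun k hk hkn => h3 k hk (by omega), h3 (n + 1) (by omega) le_rfl⟩

end hist

/-! ### the measure on letters -/

/-- the law with masses `p i` -/
noncomputable def letterLaw (p : ℕ → ℝ) : Measure ℕ :=
  Measure.sum fun i => ENNReal.ofReal (p i) • Measure.dirac i

lemma letterLaw_apply (p : ℕ → ℝ) (A : Set ℕ) :
    letterLaw p A = ∑' i, ENNReal.ofReal (p i) * Set.indicator A 1 i := by
  rw [letterLaw, Measure.sum_apply _ (MeasurableSet.of_discrete)]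
  congr 1
  funext i
  rw [Measure.smul_apply, Measure.dirac_apply' _ (MeasurableSet.of_discrete), smul_eq_mul]

lemma letterLaw_singleton (p : ℕ → ℝ) (i : ℕ) : letterLaw p {i} = ENNReal.ofReal (p i) := by
  rw [letterLaw_apply, tsum_eq_single i]
  · simp
  · intro j hj
    simp [hj]

variable {p : ℕ → ℝ}

lemma letterLaw_prob (hp0 : ∀ i, 0 ≤ p i) (hp : HasSum p 1) : IsProbabilityMeasure (letterLaw p) := by
  constructor
  rw [letterLaw_apply]
  simp only [Set.indicator_univ, Pi.one_apply, mul_one]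
  rw [← ENNReal.ofReal_tsum_of_nonneg hp0 hp.summable, hp.tsum_eq, ENNReal.ofReal_one]

lemma letterLaw_Ici (hp0 : ∀ i, 0 ≤ p i) (hp : HasSum p 1) (j : ℕ) :
    letterLaw p (Set.Ici j) = ENNReal.ofReal (∑' i, p (i + j)) := by
  rw [letterLaw_apply, ENNReal.ofReal_tsum_of_nonneg (fun i => hp0 _)
    ((summable_nat_add_iff j).2 hp.summable)]
  have h := Summable.sum_add_tsum_nat_add' (M := ENNReal)
    (f := fun i => ENNReal.ofReal (p i) * (Set.Ici j).indicator 1 i) (k := j) ENNReal.summable
  rw [← h]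
  have h1 : ∑ i ∈ Finset.range j, ENNReal.ofReal (p i) * (Set.Ici j).indicator 1 i = 0 := by
    apply Finset.sum_eq_zero
    intro i hi
    rw [Finset.mem_range] at hi
    rw [Set.indicator_of_notMem (by simpa using hi), mul_zero]
  rw [h1, zero_add]
  congr 1
  funext i
  rw [Set.indicator_of_mem (by simp), Pi.one_apply, mul_one]

/-- the law of an i.i.d. sequence of letters -/
noncomputable def seqLaw (p : ℕ → ℝ) : Measure (ℕ → ℕ) := Measure.infinitePi fun _ : ℕ => letterLaw p

/-- an event depends on the first `n` coordinates only -/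
def DependsOn (n : ℕ) (E : Set (ℕ → ℕ)) : Prop :=
  ∀ τ τ' : ℕ → ℕ, (∀ k, k < n → τ k = τ' k) → (τ ∈ E ↔ τ' ∈ E)

lemma dependsOn_eq {n : ℕ} {E : Set (ℕ → ℕ)} (hE : DependsOn n E) :
    ∃ S : Set ((i : Finset.range n) → ℕ), MeasurableSet S ∧
      E = (fun (τ : ℕ → ℕ) (i : Finset.range n) => τ i) ⁻¹' S := by
  classical
  refine ⟨{y | (fun k => if h : k ∈ Finset.range n then y ⟨k, h⟩ else 0) ∈ E},
    (Set.to_countable _).measurableSet, ?_⟩
  ext τ
  simp only [Set.mem_preimage]
  apply hE
  intro k hk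
  rw [dif_pos (Finset.mem_range.2 hk)]

lemma DependsOn.measurableSet {n : ℕ} {E : Set (ℕ → ℕ)} (hE : DependsOn n E) :
    MeasurableSet E := by
  obtain ⟨S, hS, rfl⟩ := dependsOn_eq hE
  exact hS.preimage (by fun_prop)

lemma seqLaw_inter (hp0 : ∀ i, 0 ≤ p i) (hp : HasSum p 1) {n : ℕ} {E : Set (ℕ → ℕ)}
    (hE : DependsOn n E) (A : Set ℕ) :
    seqLaw p (E ∩ {τ | τ n ∈ A}) = seqLaw p E * letterLaw p A := by
  have := letterLaw_prob hp0 hp
  obtain ⟨S, hS, rfl⟩ := dependsOn_eq hE
  have hind := iIndepFun_infinitePi (P := fun _ : ℕ => letterLaw p)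
    (X := fun _ : ℕ => (id : ℕ → ℕ)) (fun _ => measurable_id)
  have h2 := hind.indepFun_finset (Finset.range n) {n} (by simp) (fun i => by fun_prop)
  have h3 := h2.measure_inter_preimage_eq_mul S
    ((fun y : (i : ({n} : Finset ℕ)) → ℕ => y ⟨n, by simp⟩) ⁻¹' A) hS
    ((MeasurableSet.of_discrete (s := A)).preimage (by fun_prop))
  have h4 : seqLaw p {τ | τ n ∈ A} = letterLaw p A := by
    have h5 := Measure.infinitePi_map_eval (μ := fun _ : ℕ => letterLaw p) n
    rw [← h5, Measure.map_apply (by fun_prop) (MeasurableSet.of_discrete)]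
    rfl
  rw [← h4]
  exact h3


/-- all letters below `j` and a condition on the history -/
def EvG (x : ℕ → ℝ) (j n : ℕ) (G : List ℝ → Prop) : Set (ℕ → ℕ) :=
  {τ | (∀ k, k < n → τ k < j) ∧ G (hist (fun k => x (τ k)) n)}

lemma EvG_dependsOn (x : ℕ → ℝ) (j n : ℕ) (G : List ℝ → Prop) : DependsOn n (EvG x j n G) := by
  intro τ τ' h
  have h1 : hist (fun k => x (τ k)) n = hist (fun k => x (τ' k)) n :=
    hist_congr (fun k hk => by rw [h k hk])
  constructor
  · rintro ⟨h2, h3⟩
    exact ⟨fun k hk => by rw [← h k hk]; exact h2 k hk, by rw [← h1]; exact h3⟩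
  · rintro ⟨h2, h3⟩
    exact ⟨fun k hk => by rw [h k hk]; exact h2 k hk, by rw [h1]; exact h3⟩

lemma EvG_succ (x : ℕ → ℝ) (j n : ℕ) (G : List ℝ → Prop) :
    EvG x j (n + 1) G =
      ⋃ i ∈ Finset.range j, EvG x j n (fun l => G (x i :: l)) ∩ {τ | τ n ∈ ({i} : Set ℕ)} := by
  ext τ
  simp only [Set.mem_iUnion, Finset.mem_range, Set.mem_inter_iff, Set.mem_ofPred_eq,
    Set.mem_singleton_iff, exists_prop, EvG]
  constructor
  · rintro ⟨h1, h2⟩
    exact ⟨τ n, h1 n (Nat.lt_succ_self n), ⟨fun k hk => h1 k (by omega), h2⟩, rfl⟩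
  · rintro ⟨i, hi, ⟨h1, h2⟩, h3⟩
    refine ⟨fun k hk => ?_, ?_⟩
    · rcases Nat.lt_or_ge k n with h | h
      · exact h1 k h
      · have : k = n := by omega
        subst this; omega
    · rw [hist, h3]; exact h2

lemma W_finsum {s t : Finset ℕ} {r x : ℕ → ℝ} (n : ℕ) (q : ℕ → ℝ) (F : ℕ → List ℝ → ℝ) :
    W s r x n (fun l => ∑ i ∈ t, q i * F i l) = ∑ i ∈ t, q i * W s r x n (F i) := by
  classical
  induction t using Finset.induction_on with
  | empty =>
    simp only [Finset.sum_empty]
    rw [W_const, mul_zero]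
  | insert a t ha ih =>
    have : (fun l : List ℝ => ∑ i ∈ insert a t, q i * F i l) =
        fun l => q a * F a l + ∑ i ∈ t, q i * F i l := by
      funext l; rw [Finset.sum_insert ha]
    rw [this, W_add, W_mul, ih, Finset.sum_insert ha]

lemma seqLaw_EvG (hp0 : ∀ i, 0 ≤ p i) (hp : HasSum p 1) (x : ℕ → ℝ) (j n : ℕ)
    (G : List ℝ → Prop) :
    seqLaw p (EvG x j n G) = ENNReal.ofReal (W (Finset.range j) p x n (ind G)) := by
  induction n generalizing G with
  | zero =>
    have := letterLaw_prob hp0 hp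
    rw [W_zero]
    by_cases h : G []
    · have h1 : EvG x j 0 G = Set.univ := by
        ext τ; simp [EvG, hist, h]
      rw [h1, ind_of h, ENNReal.ofReal_one]
      unfold seqLaw
      exact measure_univ
    · have h1 : EvG x j 0 G = ∅ := by
        ext τ; simp [EvG, hist, h]
      rw [h1, ind_of_not h, ENNReal.ofReal_zero, measure_empty]
  | succ n ih =>
    rw [EvG_succ, measure_biUnion_finset]
    · have h1 : ∀ i ∈ Finset.range j,
          seqLaw p (EvG x j n (fun l => G (x i :: l)) ∩ {τ | τ n ∈ ({i} : Set ℕ)}) =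
            ENNReal.ofReal (p i * W (Finset.range j) p x n (ind (fun l => G (x i :: l)))) := by
        intro i _
        rw [seqLaw_inter hp0 hp (EvG_dependsOn _ _ _ _), ih, letterLaw_singleton, mul_comm,
          ← ENNReal.ofReal_mul (hp0 i)]
      rw [Finset.sum_congr rfl h1, ← ENNReal.ofReal_sum_of_nonneg]
      · congr 1
        rw [W_succ]
        have h2 : (fun l : List ℝ => ∑ i ∈ Finset.range j, p i * ind G (x i :: l)) =
            fun l => ∑ i ∈ Finset.range j, p i * (fun i l => ind (fun l => G (x i :: l)) l) i l := by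
          funext l
          exact Finset.sum_congr rfl (fun i _ => by simp only [ind])
        rw [h2, W_finsum]
      · intro i _
        exact mul_nonneg (hp0 i) (W_nonneg (fun i _ => hp0 i) n (fun l _ => ind_nonneg _ _))
    · intro a _ b _ hab
      rw [Function.onFun, Set.disjoint_left]
      rintro τ ⟨_, h1⟩ ⟨_, h2⟩
      simp only [Set.mem_ofPred_eq, Set.mem_singleton_iff] at h1 h2
      exact hab (h1.symm.trans h2)
    · intro i _
      exact (EvG_dependsOn _ _ _ _).measurableSet.inter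
        ((MeasurableSet.of_discrete (s := ({i} : Set ℕ))).preimage (measurable_pi_apply n))

lemma seqLaw_EvG_tail (hp0 : ∀ i, 0 ≤ p i) (hp : HasSum p 1) (x : ℕ → ℝ) (j n : ℕ)
    (G : List ℝ → Prop) :
    seqLaw p (EvG x j n G ∩ {τ | τ n ∈ Set.Ici j}) =
      ENNReal.ofReal (W (Finset.range j) p x n (ind G) * ∑' i, p (i + j)) := by
  rw [seqLaw_inter hp0 hp (EvG_dependsOn _ _ _ _), seqLaw_EvG hp0 hp, letterLaw_Ici hp0 hp,
    ENNReal.ofReal_mul]
  exact W_nonneg (fun i _ => hp0 i) n (fun l _ => ind_nonneg _ _)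

end Pool.Agent.H97.Queue
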