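import Mathlib

/-!
Weighted finite words of steps of a random walk, for the single-server queue trees.
-/

namespace Pool.Agent.H97.QWalk

open Finset

/-- Weighted sum over words of length `n` with letters in `s`; the letter `i` has weight `r i`
and step `x i`; the list holds the steps, most recent first. -/
noncomputable def W (s : Finset ℕ) (r x : ℕ → ℝ) : ℕ → (List ℝ → ℝ) → ℝ
  | 0, F => F []
  | n + 1, F => W s r x n (fun l => ∑ i ∈ s, r i * F (x i :: l))

/-- all partial sums are nonnegative -/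
def Surv : List ℝ → Prop
  | [] => True
  | y :: l => Surv l ∧ 0 ≤ (y :: l).sum

/-- the first negative partial sum is the last one -/
def Hit : List ℝ → Prop
  | [] => False
  | y :: l => Surv l ∧ (y :: l).sum < 0

/-- all partial sums are at most `w` -/
def Bdd (w : ℝ) : List ℝ → Prop
  | [] => True
  | y :: l => Bdd w l ∧ (y :: l).sum ≤ w

/-- the partial sums of index `k ≥ K` are larger than `γ k` -/
def Lin (K γ : ℝ) : List ℝ → Prop
  | [] => True
  | y :: l => Lin K γ l ∧ (K ≤ ((y :: l).length : ℝ) → γ * ((y :: l).length : ℝ) < (y :: l).sum)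

open Classical in
/-- indicator of a predicate on lists -/
noncomputable def ind (p : List ℝ → Prop) (l : List ℝ) : ℝ := if p l then 1 else 0

lemma ind_nonneg (p : List ℝ → Prop) (l : List ℝ) : 0 ≤ ind p l := by
  unfold ind; split_ifs <;> norm_num

lemma ind_le_one (p : List ℝ → Prop) (l : List ℝ) : ind p l ≤ 1 := by
  unfold ind; split_ifs <;> norm_num

lemma ind_of {p : List ℝ → Prop} {l : List ℝ} (h : p l) : ind p l = 1 := by
  unfold ind; rw [if_pos h]

lemma ind_of_not {p : List ℝ → Prop} {l : List ℝ} (h : ¬ p l) : ind p l = 0 := by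
  unfold ind; rw [if_neg h]

variable {s : Finset ℕ} {r x : ℕ → ℝ}

lemma W_succ (n : ℕ) (F : List ℝ → ℝ) :
    W s r x (n + 1) F = W s r x n (fun l => ∑ i ∈ s, r i * F (x i :: l)) := rfl

lemma W_zero (F : List ℝ → ℝ) : W s r x 0 F = F [] := rfl

lemma W_add (n : ℕ) (F G : List ℝ → ℝ) :
    W s r x n (fun l => F l + G l) = W s r x n F + W s r x n G := by
  induction n generalizing F G with
  | zero => rfl
  | succ n ih =>
    rw [W_succ, W_succ, W_succ, ← ih]
    congr 1
    funext l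
    rw [← Finset.sum_add_distrib]
    exact Finset.sum_congr rfl (fun i _ => by ring)

lemma W_mul (n : ℕ) (c : ℝ) (F : List ℝ → ℝ) :
    W s r x n (fun l => c * F l) = c * W s r x n F := by
  induction n generalizing F with
  | zero => rfl
  | succ n ih =>
    rw [W_succ, W_succ, ← ih]
    congr 1
    funext l
    rw [Finset.mul_sum]
    exact Finset.sum_congr rfl (fun i _ => by ring)

lemma W_sub (n : ℕ) (F G : List ℝ → ℝ) :
    W s r x n (fun l => F l - G l) = W s r x n F - W s r x n G := by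
  have h := W_add (s := s) (r := r) (x := x) n F (fun l => (-1) * G l)
  rw [W_mul] at h
  have : (fun l => F l - G l) = (fun l => F l + (-1) * G l) := by funext l; ring
  rw [this, h]; ring

lemma W_const (n : ℕ) (c : ℝ) : W s r x n (fun _ => c) = (∑ i ∈ s, r i) ^ n * c := by
  induction n generalizing c with
  | zero => simp [W_zero]
  | succ n ih =>
    rw [W_succ]
    have : (fun _ : List ℝ => ∑ i ∈ s, r i * c) = (fun _ => (∑ i ∈ s, r i) * c) := by
      funext l; rw [Finset.sum_mul]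
    rw [this, ih]; ring

/-- lists that can occur after `n` steps -/
def Reach (s : Finset ℕ) (x : ℕ → ℝ) (n : ℕ) (l : List ℝ) : Prop :=
  l.length = n ∧ ∀ y ∈ l, ∃ i ∈ s, y = x i

lemma Reach.cons {n : ℕ} {l : List ℝ} (h : Reach s x n l) {i : ℕ} (hi : i ∈ s) :
    Reach s x (n + 1) (x i :: l) := by
  refine ⟨by simp [h.1], ?_⟩
  intro y hy
  rcases List.mem_cons.1 hy with h' | h'
  · exact ⟨i, hi, h'⟩
  · exact h.2 y h'

lemma W_mono (hr : ∀ i ∈ s, 0 ≤ r i) (n : ℕ) {F G : List ℝ → ℝ}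
    (h : ∀ l, Reach s x n l → F l ≤ G l) : W s r x n F ≤ W s r x n G := by
  induction n generalizing F G with
  | zero => exact h [] ⟨rfl, by simp⟩
  | succ n ih =>
    rw [W_succ, W_succ]
    apply ih
    intro l hl
    exact Finset.sum_le_sum (fun i hi => mul_le_mul_of_nonneg_left (h _ (hl.cons hi)) (hr i hi))

lemma W_congr (n : ℕ) {F G : List ℝ → ℝ}
    (h : ∀ l, Reach s x n l → F l = G l) : W s r x n F = W s r x n G := by
  induction n generalizing F G with
  | zero => exact h [] ⟨rfl, by simp⟩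
  | succ n ih =>
    rw [W_succ, W_succ]
    apply ih
    intro l hl
    exact Finset.sum_congr rfl (fun i hi => by rw [h _ (hl.cons hi)])

lemma W_nonneg (hr : ∀ i ∈ s, 0 ≤ r i) (n : ℕ) {F : List ℝ → ℝ}
    (h : ∀ l, Reach s x n l → 0 ≤ F l) : 0 ≤ W s r x n F := by
  have := W_mono (s := s) (r := r) (x := x) hr n (F := fun _ => 0) (G := F) h
  rw [W_const] at this
  simpa using this

lemma W_exp (n : ℕ) (θ : ℝ) :
    W s r x n (fun l => Real.exp (θ * l.sum)) = (∑ i ∈ s, r i * Real.exp (θ * x i)) ^ n := by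
  induction n with
  | zero => simp [W_zero]
  | succ n ih =>
    rw [W_succ]
    have : (fun l : List ℝ => ∑ i ∈ s, r i * Real.exp (θ * (x i :: l).sum)) =
        (fun l => (∑ i ∈ s, r i * Real.exp (θ * x i)) * Real.exp (θ * l.sum)) := by
      funext l
      rw [Finset.sum_mul]
      refine Finset.sum_congr rfl (fun i _ => ?_)
      rw [List.sum_cons, mul_add, Real.exp_add]; ring
    rw [this, W_mul, ih]; ring

/-- change of weights -/
lemma W_tilt {q : ℕ → ℝ} {φ θ : ℝ} (hq : ∀ i ∈ s, r i = φ * q i * Real.exp (θ * x i)) (n : ℕ)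
    (F : List ℝ → ℝ) :
    W s r x n F = φ ^ n * W s q x n (fun l => Real.exp (θ * l.sum) * F l) := by
  induction n generalizing F with
  | zero => simp [W_zero]
  | succ n ih =>
    rw [W_succ, W_succ, ih]
    have : (fun l : List ℝ => Real.exp (θ * l.sum) * ∑ i ∈ s, r i * F (x i :: l)) =
        (fun l => φ * ∑ i ∈ s, q i * (Real.exp (θ * (x i :: l).sum) * F (x i :: l))) := by
      funext l
      rw [Finset.mul_sum, Finset.mul_sum]
      refine Finset.sum_congr rfl (fun i hi => ?_)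
      rw [List.sum_cons, mul_add, Real.exp_add, hq i hi]; ring
    rw [this, W_mul, pow_succ]; ring


/-! ### survival, passage, and exponential bounds -/

lemma surv_cons {y : ℝ} {l : List ℝ} : Surv (y :: l) ↔ Surv l ∧ 0 ≤ y + l.sum := by
  simp [Surv]

lemma hit_cons {y : ℝ} {l : List ℝ} : Hit (y :: l) ↔ Surv l ∧ y + l.sum < 0 := by
  simp [Hit]

lemma Surv.sum_nonneg {l : List ℝ} (h : Surv l) : 0 ≤ l.sum := by
  cases l with
  | nil => simp
  | cons y l => exact h.2

lemma Hit.sum_neg {l : List ℝ} (h : Hit l) : l.sum < 0 := by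
  cases l with
  | nil => exact absurd h (by simp [Hit])
  | cons y l => exact h.2

/-- lower bound for the weight of the surviving words -/
lemma surv_lower (hr : ∀ i ∈ s, 0 ≤ r i) {θ c : ℝ} (hθ : 0 < θ) (hc : 0 < c) {i₀ : ℕ} (hi₀ : i₀ ∈ s)
    (hxi : x i₀ = c) (hφ : ∑ i ∈ s, r i * Real.exp (-θ * x i) ≤ ∑ i ∈ s, r i) (n : ℕ) :
    (∑ i ∈ s, r i) ^ n * (r i₀ * (1 - Real.exp (-θ * c))) ≤ W s r x (n + 1) (ind Surv) := by
  set R := ∑ i ∈ s, r i with hR
  set f : List ℝ → ℝ := fun l => ind Surv l * (1 - Real.exp (-θ * l.sum)) with hf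
  have key : ∀ n, R ^ n * (r i₀ * (1 - Real.exp (-θ * c))) ≤ W s r x (n + 1) f := by
    intro n
    induction n with
    | zero =>
      rw [W_succ, W_zero, pow_zero, one_mul]
      have h1 : r i₀ * f [x i₀] ≤ ∑ i ∈ s, r i * f [x i] := by
        refine Finset.single_le_sum (f := fun i => r i * f [x i]) (fun i hi => ?_) hi₀
        refine mul_nonneg (hr i hi) ?_
        by_cases h : Surv [x i]
        · have h0 : 0 ≤ [x i].sum := h.sum_nonneg
          have : Real.exp (-θ * [x i].sum) ≤ 1 := by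
            rw [Real.exp_le_one_iff]; nlinarith
          simp only [hf, ind_of h]; linarith
        · simp only [hf, ind_of_not h]; simp
      have h2 : f [x i₀] = 1 - Real.exp (-θ * c) := by
        have : Surv [c] := by simp [Surv, hc.le]
        simp [hf, hxi, ind_of this]
      rw [h2] at h1
      exact h1
    | succ n ih =>
      have h1 : R * W s r x (n + 1) f ≤ W s r x (n + 1 + 1) f := by
        rw [← W_mul, W_succ (n + 1)]
        apply W_mono hr
        intro l _
        by_cases h : Surv l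
        · have h2 : ∀ i ∈ s, r i * (1 - Real.exp (-θ * (x i + l.sum))) ≤ r i * f (x i :: l) := by
            intro i hi
            refine mul_le_mul_of_nonneg_left ?_ (hr i hi)
            by_cases h3 : 0 ≤ x i + l.sum
            · have : Surv (x i :: l) := surv_cons.2 ⟨h, h3⟩
              simp [hf, ind_of this]
            · have h4 : ¬ Surv (x i :: l) := fun h5 => h3 (surv_cons.1 h5).2
              simp only [hf, ind_of_not h4, zero_mul]
              have : 1 ≤ Real.exp (-θ * (x i + l.sum)) := by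
                rw [Real.one_le_exp_iff]
                push Not at h3
                nlinarith
              linarith
          refine le_trans ?_ (Finset.sum_le_sum h2)
          have h5 : ∑ i ∈ s, r i * (1 - Real.exp (-θ * (x i + l.sum))) =
              R - (∑ i ∈ s, r i * Real.exp (-θ * x i)) * Real.exp (-θ * l.sum) := by
            rw [hR, Finset.sum_mul, ← Finset.sum_sub_distrib]
            refine Finset.sum_congr rfl (fun i _ => ?_)
            rw [mul_add (-θ), Real.exp_add]; ring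
          rw [h5]
          simp only [hf, ind_of h, one_mul]
          have h6 : (∑ i ∈ s, r i * Real.exp (-θ * x i)) * Real.exp (-θ * l.sum) ≤
              R * Real.exp (-θ * l.sum) :=
            mul_le_mul_of_nonneg_right hφ (Real.exp_pos _).le
          linarith
        · have h3 : ∀ i ∈ s, r i * f (x i :: l) = 0 := by
            intro i _
            have h4 : ¬ Surv (x i :: l) := fun h5 => h h5.1
            simp [hf, ind_of_not h4]
          rw [Finset.sum_eq_zero h3]
          simp [hf, ind_of_not h]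
      have h2 : R * (R ^ n * (r i₀ * (1 - Real.exp (-θ * c)))) ≤ R * W s r x (n + 1) f :=
        mul_le_mul_of_nonneg_left ih (Finset.sum_nonneg hr)
      calc R ^ (n + 1) * (r i₀ * (1 - Real.exp (-θ * c)))
          = R * (R ^ n * (r i₀ * (1 - Real.exp (-θ * c)))) := by ring
        _ ≤ _ := h2.trans h1
  refine (key n).trans (W_mono hr _ ?_)
  intro l _
  have h1 := ind_nonneg Surv l
  have h2 := (Real.exp_pos (-θ * l.sum)).le
  simp only [hf]
  nlinarith

/-- upper bound for the weight of the words ended by a passage -/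
lemma hit_upper (hr : ∀ i ∈ s, 0 ≤ r i) {θ : ℝ} (hθ : 0 ≤ θ) (n : ℕ) :
    W s r x n (ind Hit) ≤ (∑ i ∈ s, r i * Real.exp (-θ * x i)) ^ n := by
  rw [← W_exp]
  apply W_mono hr
  intro l _
  by_cases h : Hit l
  · rw [ind_of h, Real.one_le_exp_iff]
    have := h.sum_neg
    nlinarith
  · rw [ind_of_not h]; exact (Real.exp_pos _).le

/-- the weight of the words with a small late partial sum -/
lemma lin_bound (hr : ∀ i ∈ s, 0 ≤ r i) {θ γ K ρ : ℝ} (hθ : 0 ≤ θ) (hR : 0 < ∑ i ∈ s, r i)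
    (hρ : ∑ i ∈ s, r i * Real.exp (-θ * (x i - γ)) ≤ ρ * ∑ i ∈ s, r i) (hρ0 : 0 ≤ ρ) (n : ℕ) :
    W s r x n (fun l => 1 - ind (Lin K γ) l) ≤
      (∑ i ∈ s, r i) ^ n * ∑ k ∈ (Finset.range (n + 1)).filter (fun k : ℕ => K ≤ (k : ℝ)), ρ ^ k := by
  set R := ∑ i ∈ s, r i with hRd
  induction n with
  | zero =>
    have : ind (Lin K γ) [] = 1 := ind_of (by simp [Lin])
    rw [W_zero, this]
    simp only [sub_self, pow_zero, one_mul]
    exact Finset.sum_nonneg (fun i _ => pow_nonneg hρ0 i)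
  | succ n ih =>
    have hstep : W s r x (n + 1) (fun l => 1 - ind (Lin K γ) l) ≤
        R * W s r x n (fun l => 1 - ind (Lin K γ) l) +
          (if K ≤ ((n + 1 : ℕ) : ℝ) then (∑ i ∈ s, r i * Real.exp (-θ * (x i - γ))) ^ (n + 1)
            else 0) := by
      have hchern : ∀ m : ℕ, W s r x m (fun l => Real.exp (-θ * (l.sum - γ * m))) =
          (∑ i ∈ s, r i * Real.exp (-θ * (x i - γ))) ^ m := by
        intro m
        have e1 : (fun l : List ℝ => Real.exp (-θ * (l.sum - γ * m))) =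
            (fun l => Real.exp (θ * γ * m) * Real.exp (-θ * l.sum)) := by
          funext l; rw [← Real.exp_add]; congr 1; ring
        rw [e1, W_mul, W_exp]
        have e2 : ∑ i ∈ s, r i * Real.exp (-θ * (x i - γ)) =
            Real.exp (θ * γ) * ∑ i ∈ s, r i * Real.exp (-θ * x i) := by
          rw [Finset.mul_sum]
          refine Finset.sum_congr rfl (fun i _ => ?_)
          rw [show -θ * (x i - γ) = θ * γ + -θ * x i by ring, Real.exp_add]; ring
        rw [e2, mul_pow, ← Real.exp_nat_mul]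
        congr 2; ring
      have hpt : ∀ l, Reach s x (n + 1) l → (1 - ind (Lin K γ) l) ≤
          (match l with
            | [] => 0
            | _ :: l' => (1 - ind (Lin K γ) l')) +
          (if K ≤ ((n + 1 : ℕ) : ℝ) then Real.exp (-θ * (l.sum - γ * ((n + 1 : ℕ) : ℝ))) else 0) := by
        intro l hl
        cases l with
        | nil => exact absurd hl.1 (by simp)
        | cons y l' =>
          have hlen : (y :: l').length = n + 1 := hl.1
          by_cases h1 : Lin K γ l'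
          · by_cases h2 : K ≤ ((n + 1 : ℕ) : ℝ)
            · rw [if_pos h2]
              by_cases h3 : γ * ((n + 1 : ℕ) : ℝ) < (y :: l').sum
              · have : Lin K γ (y :: l') := ⟨h1, fun _ => by rw [hlen]; exact h3⟩
                rw [ind_of this]
                simp only [ind_of h1]
                have := (Real.exp_pos (-θ * ((y :: l').sum - γ * ((n + 1 : ℕ) : ℝ)))).le
                linarith
              · push Not at h3
                have h4 : 1 ≤ Real.exp (-θ * ((y :: l').sum - γ * ((n + 1 : ℕ) : ℝ))) := by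
                  rw [Real.one_le_exp_iff]; nlinarith
                have h5 := ind_nonneg (Lin K γ) (y :: l')
                simp only [ind_of h1]
                linarith
            · rw [if_neg h2]
              have : Lin K γ (y :: l') := ⟨h1, fun h => absurd (by rw [hlen] at h; exact h) h2⟩
              rw [ind_of this]
              simp only [ind_of h1]
              linarith
          · have h2 : ¬ Lin K γ (y :: l') := fun h => h1 h.1
            rw [ind_of_not h2]
            simp only [ind_of_not h1]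
            have : 0 ≤ (if K ≤ ((n + 1 : ℕ) : ℝ) then
              Real.exp (-θ * ((y :: l').sum - γ * ((n + 1 : ℕ) : ℝ))) else 0) := by
              split_ifs
              · exact (Real.exp_pos _).le
              · exact le_rfl
            linarith
      refine (W_mono hr _ hpt).trans ?_
      rw [W_add]
      refine add_le_add (le_of_eq ?_) ?_
      · rw [W_succ, ← W_mul]
        congr 1
        funext l
        rw [hRd, Finset.sum_mul]
      · split_ifs with h
        · rw [hchern]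
        · rw [W_const]; simp
    refine hstep.trans ?_
    have h1 : R * W s r x n (fun l => 1 - ind (Lin K γ) l) ≤
        R * (R ^ n * ∑ k ∈ (Finset.range (n + 1)).filter (fun k : ℕ => K ≤ (k : ℝ)), ρ ^ k) :=
      mul_le_mul_of_nonneg_left ih hR.le
    rw [Finset.range_add_one, Finset.filter_insert]
    split_ifs with h
    · have h2 : (∑ i ∈ s, r i * Real.exp (-θ * (x i - γ))) ^ (n + 1) ≤ (ρ * R) ^ (n + 1) := by
        apply pow_le_pow_left₀ _ hρ
        exact Finset.sum_nonneg (fun i hi => mul_nonneg (hr i hi) (Real.exp_pos _).le)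
      rw [Finset.sum_insert (by simp)]
      have h3 : (ρ * R) ^ (n + 1) = R ^ (n + 1) * ρ ^ (n + 1) := by rw [mul_pow]; ring
      rw [h3] at h2
      calc _ ≤ R * (R ^ n * ∑ k ∈ (Finset.range (n + 1)).filter (fun k : ℕ => K ≤ (k : ℝ)), ρ ^ k) +
            R ^ (n + 1) * ρ ^ (n + 1) := add_le_add h1 h2
        _ = _ := by ring
    · rw [add_zero]
      refine h1.trans (le_of_eq ?_)
      ring

/-- the weight of the words with a large partial sum -/
lemma bdd_bound (hr : ∀ i ∈ s, 0 ≤ r i) {θ w m : ℝ} (hθ : 0 ≤ θ) (hR : ∑ i ∈ s, r i = 1)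
    (hm : ∑ i ∈ s, r i * Real.exp (θ * x i) ≤ m) (hm1 : 1 ≤ m) (n : ℕ) :
    W s r x n (fun l => 1 - ind (Bdd w) l) ≤ n * (m ^ n * Real.exp (-θ * w)) := by
  induction n with
  | zero =>
    have : ind (Bdd w) [] = 1 := ind_of (by simp [Bdd])
    rw [W_zero, this]; simp
  | succ n ih =>
    have hpt : ∀ l, Reach s x (n + 1) l → (1 - ind (Bdd w) l) ≤
          (match l with
            | [] => 0
            | _ :: l' => (1 - ind (Bdd w) l')) + Real.exp (-θ * w) * Real.exp (θ * l.sum) := by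
      intro l hl
      cases l with
      | nil => exact absurd hl.1 (by simp)
      | cons y l' =>
        rw [← Real.exp_add]
        have h0 := (Real.exp_pos (-θ * w + θ * (y :: l').sum)).le
        by_cases h1 : Bdd w l'
        · by_cases h3 : (y :: l').sum ≤ w
          · have : Bdd w (y :: l') := ⟨h1, h3⟩
            rw [ind_of this]
            simp only [ind_of h1]
            linarith
          · push Not at h3
            have h4 : 1 ≤ Real.exp (-θ * w + θ * (y :: l').sum) := by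
              rw [Real.one_le_exp_iff]; nlinarith
            have h5 := ind_nonneg (Bdd w) (y :: l')
            simp only [ind_of h1]
            linarith
        · have h2 : ¬ Bdd w (y :: l') := fun h => h1 h.1
          rw [ind_of_not h2]
          simp only [ind_of_not h1]
          linarith
    refine (W_mono hr _ hpt).trans ?_
    rw [W_add, W_mul, W_exp]
    have e1 : W s r x (n + 1) (fun l => match l with
            | [] => 0
            | _ :: l' => (1 - ind (Bdd w) l')) = W s r x n (fun l => 1 - ind (Bdd w) l) := by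
      rw [W_succ]
      congr 1
      funext l
      rw [← Finset.sum_mul, hR, one_mul]
    rw [e1]
    have h2 : (∑ i ∈ s, r i * Real.exp (θ * x i)) ^ (n + 1) ≤ m ^ (n + 1) :=
      pow_le_pow_left₀ (Finset.sum_nonneg (fun i hi => mul_nonneg (hr i hi) (Real.exp_pos _).le))
        hm _
    have h3 : m ^ n ≤ m ^ (n + 1) := pow_le_pow_right₀ hm1 (Nat.le_succ n)
    have h4 := (Real.exp_pos (-θ * w)).le
    have h5 : (n : ℝ) * (m ^ n * Real.exp (-θ * w)) ≤ n * (m ^ (n + 1) * Real.exp (-θ * w)) :=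
      mul_le_mul_of_nonneg_left (mul_le_mul_of_nonneg_right h3 h4) (Nat.cast_nonneg n)
    have h6 : Real.exp (-θ * w) * (∑ i ∈ s, r i * Real.exp (θ * x i)) ^ (n + 1) ≤
        Real.exp (-θ * w) * m ^ (n + 1) := mul_le_mul_of_nonneg_left h2 h4
    push_cast
    linarith


/-! ### critical weights -/

/-- a centred probability vector of steps bounded by `B` -/
structure Crit (s : Finset ℕ) (q x : ℕ → ℝ) (B : ℝ) : Prop where
  nonneg : ∀ i ∈ s, 0 ≤ q i
  total : ∑ i ∈ s, q i = 1
  mean : ∑ i ∈ s, q i * x i = 0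
  bound : ∀ i ∈ s, |x i| ≤ B
  up : 0 < ∑ i ∈ s, q i * max (x i) 0

section crit

variable {q : ℕ → ℝ} {B : ℝ} (hc : Crit s q x B)

include hc

lemma Crit.exp_le {θ : ℝ} (h0 : 0 ≤ θ) (h1 : θ * B ≤ 1) :
    ∑ i ∈ s, q i * Real.exp (θ * x i) ≤ Real.exp (θ ^ 2 * B ^ 2) := by
  have h2 : ∀ i ∈ s, q i * Real.exp (θ * x i) ≤ q i * (1 + θ ^ 2 * B ^ 2) + θ * (q i * x i) := by
    intro i hi
    have hb := hc.bound i hi
    have hB : 0 ≤ B := (abs_nonneg _).trans hb
    have h3 : |θ * x i| ≤ 1 := by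
      rw [abs_mul, abs_of_nonneg h0]
      exact (mul_le_mul_of_nonneg_left hb h0).trans h1
    have h4 := Real.abs_exp_sub_one_sub_id_le h3
    have h5 := (abs_le.1 h4).2
    have h6 : (θ * x i) ^ 2 ≤ θ ^ 2 * B ^ 2 := by
      rw [mul_pow]
      refine mul_le_mul_of_nonneg_left ?_ (sq_nonneg θ)
      rw [← sq_abs (x i)]
      exact pow_le_pow_left₀ (abs_nonneg _) hb 2
    have h7 : Real.exp (θ * x i) ≤ 1 + θ ^ 2 * B ^ 2 + θ * x i := by linarith
    calc q i * Real.exp (θ * x i) ≤ q i * (1 + θ ^ 2 * B ^ 2 + θ * x i) :=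
          mul_le_mul_of_nonneg_left h7 (hc.nonneg i hi)
      _ = _ := by ring
  refine (Finset.sum_le_sum h2).trans ?_
  rw [Finset.sum_add_distrib, ← Finset.sum_mul, ← Finset.mul_sum, hc.total, hc.mean]
  have := Real.add_one_le_exp (θ ^ 2 * B ^ 2)
  linarith

lemma Crit.g_step (n : ℕ) :
    W s q x n (ind Surv) = W s q x (n + 1) (ind Surv) + W s q x (n + 1) (ind Hit) := by
  rw [← W_add, W_succ]
  apply W_congr
  intro l _
  by_cases h : Surv l
  · have : ∀ i ∈ s, q i * (ind Surv (x i :: l) + ind Hit (x i :: l)) = q i := by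
      intro i _
      by_cases h1 : 0 ≤ x i + l.sum
      · rw [ind_of (surv_cons.2 ⟨h, h1⟩), ind_of_not (fun h2 => not_lt.2 h1 (hit_cons.1 h2).2)]
        ring
      · push Not at h1
        rw [ind_of (hit_cons.2 ⟨h, h1⟩), ind_of_not (fun h2 => not_lt.2 (surv_cons.1 h2).2 h1)]
        ring
    rw [Finset.sum_congr rfl this, hc.total, ind_of h]
  · have : ∀ i ∈ s, q i * (ind Surv (x i :: l) + ind Hit (x i :: l)) = 0 := by
      intro i _
      rw [ind_of_not (fun h2 : Surv (x i :: l) => h h2.1),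
        ind_of_not (fun h2 : Hit (x i :: l) => h h2.1)]
      ring
    rw [Finset.sum_congr rfl this, ind_of_not h]; simp

lemma Crit.hit_ge {n : ℕ} {l : List ℝ} (hl : Reach s x n l) (h : Hit l) : -B ≤ l.sum := by
  cases l with
  | nil => exact absurd h (by simp [Hit])
  | cons y l =>
    obtain ⟨i, hi, hy⟩ := hl.2 y (by simp)
    have h1 := h.1.sum_nonneg
    have h2 := (abs_le.1 (hc.bound i hi)).1
    rw [List.sum_cons, hy]
    linarith

lemma Crit.F_step (n : ℕ) (f : ℝ → ℝ) :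
    W s q x (n + 1) (fun l => ind Surv l * f l.sum) + W s q x (n + 1) (fun l => ind Hit l * f l.sum)
      = W s q x n (fun l => ind Surv l * ∑ i ∈ s, q i * f (x i + l.sum)) := by
  rw [← W_add, W_succ]
  apply W_congr
  intro l _
  by_cases h : Surv l
  · rw [ind_of h, one_mul]
    refine Finset.sum_congr rfl (fun i _ => ?_)
    rw [List.sum_cons]
    by_cases h1 : 0 ≤ x i + l.sum
    · rw [ind_of (surv_cons.2 ⟨h, h1⟩), ind_of_not (fun h2 => not_lt.2 h1 (hit_cons.1 h2).2)]
      ring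
    · push Not at h1
      rw [ind_of (hit_cons.2 ⟨h, h1⟩), ind_of_not (fun h2 => not_lt.2 (surv_cons.1 h2).2 h1)]
      ring
  · rw [ind_of_not h, zero_mul]
    apply Finset.sum_eq_zero
    intro i _
    rw [ind_of_not (fun h2 : Surv (x i :: l) => h h2.1),
      ind_of_not (fun h2 : Hit (x i :: l) => h h2.1)]
    ring

lemma Crit.e_step (n : ℕ) :
    W s q x n (fun l => ind Surv l * l.sum) ≤ W s q x (n + 1) (fun l => ind Surv l * l.sum) ∧
    W s q x (n + 1) (fun l => ind Surv l * l.sum) ≤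
      W s q x n (fun l => ind Surv l * l.sum) + B * W s q x (n + 1) (ind Hit) := by
  have h := hc.F_step n (fun y => y)
  have e1 : W s q x n (fun l => ind Surv l * ∑ i ∈ s, q i * (x i + l.sum)) =
      W s q x n (fun l => ind Surv l * l.sum) := by
    apply W_congr
    intro l _
    congr 1
    have : ∀ i ∈ s, q i * (x i + l.sum) = q i * x i + q i * l.sum := fun i _ => by ring
    rw [Finset.sum_congr rfl this, Finset.sum_add_distrib, hc.mean, ← Finset.sum_mul, hc.total]
    ring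
  rw [e1] at h
  have h2 : W s q x (n + 1) (fun l => ind Hit l * l.sum) ≤ 0 := by
    have := W_mono (s := s) (r := q) (x := x) hc.nonneg (n + 1)
      (F := fun l => ind Hit l * l.sum) (G := fun _ => 0) (by
        intro l _
        by_cases h : Hit l
        · rw [ind_of h, one_mul]; exact h.sum_neg.le
        · rw [ind_of_not h, zero_mul])
    rw [W_const] at this
    simpa using this
  have h3 : -B * W s q x (n + 1) (ind Hit) ≤ W s q x (n + 1) (fun l => ind Hit l * l.sum) := by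
    rw [← W_mul]
    apply W_mono hc.nonneg
    intro l hl
    by_cases h : Hit l
    · rw [ind_of h, one_mul, mul_one]; exact hc.hit_ge hl h
    · rw [ind_of_not h]; simp
  constructor <;> linarith

lemma Crit.v_step (n : ℕ) :
    W s q x n (fun l => ind Surv l * l.sum ^ 2) + (∑ i ∈ s, q i * x i ^ 2) * W s q x n (ind Surv)
      ≤ W s q x (n + 1) (fun l => ind Surv l * l.sum ^ 2) + B ^ 2 * W s q x (n + 1) (ind Hit) := by
  have h := hc.F_step n (fun y => y ^ 2)
  have e1 : W s q x n (fun l => ind Surv l * ∑ i ∈ s, q i * (x i + l.sum) ^ 2) =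
      W s q x n (fun l => ind Surv l * l.sum ^ 2) +
        (∑ i ∈ s, q i * x i ^ 2) * W s q x n (ind Surv) := by
    rw [← W_mul, ← W_add]
    apply W_congr
    intro l _
    have : ∀ i ∈ s, q i * (x i + l.sum) ^ 2 =
        q i * x i ^ 2 + 2 * l.sum * (q i * x i) + q i * l.sum ^ 2 := fun i _ => by ring
    rw [Finset.sum_congr rfl this, Finset.sum_add_distrib, Finset.sum_add_distrib,
      ← Finset.mul_sum, hc.mean, ← Finset.sum_mul, hc.total]
    ring
  rw [e1] at h
  have h3 : W s q x (n + 1) (fun l => ind Hit l * l.sum ^ 2) ≤ B ^ 2 * W s q x (n + 1) (ind Hit) := by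
    rw [← W_mul]
    apply W_mono hc.nonneg
    intro l hl
    by_cases h : Hit l
    · rw [ind_of h, one_mul, mul_one]
      have h1 := hc.hit_ge hl h
      have h2 := h.sum_neg
      nlinarith
    · rw [ind_of_not h]; simp
  linarith

lemma Crit.sum_z (n : ℕ) :
    W s q x n (ind Surv) + ∑ m ∈ Finset.range n, W s q x (m + 1) (ind Hit) = 1 := by
  induction n with
  | zero => simp [W_zero, ind_of (show Surv [] from trivial)]
  | succ n ih =>
    rw [Finset.sum_range_succ]
    have := hc.g_step n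
    linarith

lemma Crit.e_upper (hB : 0 ≤ B) (n : ℕ) :
    W s q x n (fun l => ind Surv l * l.sum) ≤ B := by
  have h : W s q x n (fun l => ind Surv l * l.sum) ≤
      B * ∑ m ∈ Finset.range n, W s q x (m + 1) (ind Hit) := by
    induction n with
    | zero => simp [W_zero]
    | succ n ih =>
      rw [Finset.sum_range_succ, mul_add]
      have := (hc.e_step n).2
      linarith
  have h2 := hc.sum_z n
  have h3 : 0 ≤ W s q x n (ind Surv) := W_nonneg hc.nonneg n (fun l _ => ind_nonneg _ _)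
  nlinarith

lemma Crit.e_lower (n : ℕ) :
    ∑ i ∈ s, q i * max (x i) 0 ≤ W s q x (n + 1) (fun l => ind Surv l * l.sum) := by
  induction n with
  | zero =>
    rw [W_succ, W_zero]
    refine Finset.sum_le_sum (fun i hi => mul_le_mul_of_nonneg_left ?_ (hc.nonneg i hi))
    by_cases h : 0 ≤ x i
    · have : Surv [x i] := by simpa [Surv] using h
      rw [ind_of this]; simp [h]
    · have : ¬ Surv [x i] := by simpa [Surv] using h
      push Not at h
      rw [ind_of_not this]; simp [h.le]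
  | succ n ih => exact ih.trans (hc.e_step (n + 1)).1

lemma Crit.sum_le {n : ℕ} {l : List ℝ} (hl : Reach s x n l) : l.sum ≤ B * n := by
  obtain ⟨h1, h2⟩ := hl
  subst h1
  induction l with
  | nil => simp
  | cons y l ih =>
    have h3 := ih (fun y hy => h2 y (List.mem_cons_of_mem _ hy))
    obtain ⟨i, hi, hy⟩ := h2 y (by simp)
    have h4 := (abs_le.1 (hc.bound i hi)).2
    rw [List.sum_cons, hy, List.length_cons]
    push_cast
    linarith

lemma Crit.g_lower (n : ℕ) :
    ∑ i ∈ s, q i * max (x i) 0 ≤ B * (n + 1 : ℕ) * W s q x (n + 1) (ind Surv) := by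
  refine (hc.e_lower n).trans ?_
  rw [← W_mul]
  apply W_mono hc.nonneg
  intro l hl
  have h1 := hc.sum_le hl
  have h2 := ind_nonneg Surv l
  rw [mul_comm]
  exact mul_le_mul_of_nonneg_right h1 h2

lemma Crit.v_lower (n : ℕ) :
    (∑ i ∈ s, q i * x i ^ 2) * ∑ m ∈ Finset.range n, W s q x m (ind Surv) ≤
      W s q x n (fun l => ind Surv l * l.sum ^ 2) + B ^ 2 := by
  have h : (∑ i ∈ s, q i * x i ^ 2) * ∑ m ∈ Finset.range n, W s q x m (ind Surv) ≤
      W s q x n (fun l => ind Surv l * l.sum ^ 2) +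
        B ^ 2 * ∑ m ∈ Finset.range n, W s q x (m + 1) (ind Hit) := by
    induction n with
    | zero => simp [W_zero]
    | succ n ih =>
      rw [Finset.sum_range_succ, Finset.sum_range_succ, mul_add, mul_add]
      have := hc.v_step n
      linarith
  have h2 := hc.sum_z n
  have h3 : 0 ≤ W s q x n (ind Surv) := W_nonneg hc.nonneg n (fun l _ => ind_nonneg _ _)
  nlinarith [sq_nonneg B]

lemma Crit.v_upper (hB : 0 < B) {m t : ℝ} (n : ℕ) (hm : m = Real.sqrt n) (hn : 1 ≤ n)
    (ht : 0 ≤ t) :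
    W s q x n (fun l => ind Surv l * l.sum ^ 2) ≤
      2 * B ^ 2 * t * m + 8 * B ^ 2 * Real.exp 1 * Real.exp (-t) * n := by
  have hn' : (1 : ℝ) ≤ n := by exact_mod_cast hn
  have hm1 : 1 ≤ m := by rw [hm]; exact Real.one_le_sqrt.2 hn'
  have hm0 : 0 < m := by linarith
  have hmm : m ^ 2 = n := by rw [hm]; exact Real.sq_sqrt (by linarith)
  set θ : ℝ := 1 / (B * m) with hθ
  have hθ0 : 0 < θ := by positivity
  have hθB : θ * B = 1 / m := by rw [hθ]; field_simp
  have hθB1 : θ * B ≤ 1 := by rw [hθB, div_le_one hm0]; exact hm1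
  set A : ℝ := 2 * B * m * t with hA
  have hA0 : 0 ≤ A := by positivity
  have hpt : ∀ l, Reach s x n l → ind Surv l * l.sum ^ 2 ≤
      A * (ind Surv l * l.sum) + (8 / θ ^ 2 * Real.exp (-t)) * Real.exp (θ * l.sum) := by
    intro l _
    by_cases h : Surv l
    · rw [ind_of h, one_mul, one_mul]
      set y := l.sum with hy
      have hy0 : 0 ≤ y := h.sum_nonneg
      by_cases h1 : y ≤ A
      · have h2 : 0 ≤ (8 / θ ^ 2 * Real.exp (-t)) * Real.exp (θ * y) := by positivity
        nlinarith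
      · push Not at h1
        have h2 : (θ * y / 2) ^ 2 / 2 ≤ Real.exp (θ * y / 2) := by
          have := Real.quadratic_le_exp_of_nonneg (x := θ * y / 2) (by positivity)
          have h4 : 0 ≤ θ * y / 2 := by positivity
          linarith
        have h3 : Real.exp (θ * y / 2) ≤ Real.exp (-t) * Real.exp (θ * y) := by
          rw [← Real.exp_add, Real.exp_le_exp]
          have : θ * A = 2 * t := by rw [hA, hθ]; field_simp
          nlinarith
        have h4 : (θ * y / 2) ^ 2 / 2 ≤ Real.exp (-t) * Real.exp (θ * y) := h2.trans h3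
        have h5 : y ^ 2 = 8 / θ ^ 2 * ((θ * y / 2) ^ 2 / 2) := by field_simp; ring
        have h6 : y ^ 2 ≤ 8 / θ ^ 2 * (Real.exp (-t) * Real.exp (θ * y)) := by
          rw [h5]; exact mul_le_mul_of_nonneg_left h4 (by positivity)
        nlinarith [mul_nonneg hA0 hy0]
    · rw [ind_of_not h]
      have : 0 ≤ (8 / θ ^ 2 * Real.exp (-t)) * Real.exp (θ * l.sum) := by positivity
      simpa using this
  refine (W_mono hc.nonneg n hpt).trans ?_
  rw [W_add, W_mul, W_mul, W_exp]
  have h1 := hc.e_upper hB.le n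
  have h2 : (∑ i ∈ s, q i * Real.exp (θ * x i)) ^ n ≤ Real.exp 1 := by
    have h3 := hc.exp_le hθ0.le hθB1
    have h4 : (∑ i ∈ s, q i * Real.exp (θ * x i)) ^ n ≤ Real.exp (θ ^ 2 * B ^ 2) ^ n :=
      pow_le_pow_left₀ (Finset.sum_nonneg
        (fun i hi => mul_nonneg (hc.nonneg i hi) (Real.exp_pos _).le)) h3 _
    rw [← Real.exp_nat_mul] at h4
    have h5 : (n : ℝ) * (θ ^ 2 * B ^ 2) = 1 := by
      have : θ ^ 2 * B ^ 2 = (θ * B) ^ 2 := by ring
      rw [this, hθB, ← hmm]; field_simp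
    rwa [h5] at h4
  have h6 : 8 / θ ^ 2 = 8 * B ^ 2 * n := by rw [hθ, ← hmm]; field_simp
  have h7 : A * W s q x n (fun l => ind Surv l * l.sum) ≤ A * B := mul_le_mul_of_nonneg_left h1 hA0
  have h8 : 8 / θ ^ 2 * Real.exp (-t) * (∑ i ∈ s, q i * Real.exp (θ * x i)) ^ n ≤
      8 / θ ^ 2 * Real.exp (-t) * Real.exp 1 := mul_le_mul_of_nonneg_left h2 (by positivity)
  rw [h6] at h8 ⊢
  have h9 : A * B = 2 * B ^ 2 * t * m := by rw [hA]; ring
  rw [h9] at h7
  calc _ ≤ 2 * B ^ 2 * t * m + 8 * B ^ 2 * n * Real.exp (-t) * Real.exp 1 := add_le_add h7 h8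
    _ = _ := by ring


lemma Crit.var_pos : 0 < ∑ i ∈ s, q i * x i ^ 2 := by
  by_contra h
  push Not at h
  have h0 : ∀ i ∈ s, 0 ≤ q i * x i ^ 2 := fun i hi => mul_nonneg (hc.nonneg i hi) (sq_nonneg _)
  have h1 : ∑ i ∈ s, q i * x i ^ 2 = 0 := le_antisymm h (Finset.sum_nonneg h0)
  rw [Finset.sum_eq_zero_iff_of_nonneg h0] at h1
  have h2 : ∑ i ∈ s, q i * max (x i) 0 = 0 := by
    apply Finset.sum_eq_zero
    intro i hi
    rcases mul_eq_zero.1 (h1 i hi) with h3 | h3
    · rw [h3, zero_mul]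
    · have : x i = 0 := by simpa using h3
      rw [this]; simp
  exact absurd hc.up (by rw [h2]; exact lt_irrefl 0)

/-- the passage probability of a critical walk is at least `n⁻³` for infinitely many `n` -/
lemma Crit.frequently (hB : 0 < B) (n₀ : ℕ) :
    ∃ n, n₀ ≤ n ∧ 1 ≤ n ∧ 1 / (n : ℝ) ^ 3 ≤ W s q x n (ind Hit) := by
  by_contra hcon
  push Not at hcon
  set κ := ∑ i ∈ s, q i * max (x i) 0 with hκ
  have hκ0 : 0 < κ := hc.up
  set g : ℕ → ℝ := fun n => W s q x n (ind Surv) with hg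
  have hg0 : ∀ n, 0 ≤ g n := fun n => W_nonneg hc.nonneg n (fun l _ => ind_nonneg _ _)
  have hz0 : ∀ n, 0 ≤ W s q x n (ind Hit) := fun n => W_nonneg hc.nonneg n (fun l _ => ind_nonneg _ _)
  have hstep : ∀ n, g n = g (n + 1) + W s q x (n + 1) (ind Hit) := hc.g_step
  -- comparison of `g` at two times
  have hcmp : ∀ n k : ℕ, n₀ ≤ n → 1 ≤ n → g n - 1 / (n : ℝ) ^ 2 ≤ g (n + k) - 1 / ((n + k : ℕ) : ℝ) ^ 2 := by
    intro n k hn hn1
    induction k with
    | zero => simp
    | succ k ih =>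
      have h1 := hcon (n + k + 1) (by omega) (by omega)
      have h2 := hstep (n + k)
      have h3 : 1 / ((n + k + 1 : ℕ) : ℝ) ^ 3 ≤
          1 / ((n + k : ℕ) : ℝ) ^ 2 - 1 / ((n + k + 1 : ℕ) : ℝ) ^ 2 := by
        have hp : (1 : ℝ) ≤ ((n + k : ℕ) : ℝ) := by exact_mod_cast (by omega : 1 ≤ n + k)
        push_cast at hp ⊢
        set y : ℝ := (n : ℝ) + k with hy
        have hy1 : 0 < y := by linarith
        rw [div_sub_div _ _ (by positivity) (by positivity), div_le_div_iff₀ (by positivity)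
          (by positivity)]
        have : 0 ≤ (y + 1) ^ 2 * (y * (y - 1) + (y ^ 2 + 2 * y + 1)) := by
          apply mul_nonneg (sq_nonneg _)
          nlinarith
        nlinarith
      have h4 : g (n + (k + 1)) = g (n + k) - W s q x (n + k + 1) (ind Hit) := by
        have : n + (k + 1) = n + k + 1 := by ring
        rw [this]; linarith
      have h5 : ((n + (k + 1) : ℕ) : ℝ) = ((n + k + 1 : ℕ) : ℝ) := by push_cast; ring
      rw [h4, h5]
      linarith
  -- a lower bound for `g`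
  obtain ⟨n₁, hn₁⟩ := exists_nat_gt (2 * B / κ)
  set N := n₀ + n₁ + 1 with hN
  have hNpos : (0 : ℝ) < (N : ℝ) := by positivity
  have hNk : 2 * B < κ * N := by
    have h1 : (n₁ : ℝ) ≤ N := by exact_mod_cast (by omega : n₁ ≤ N)
    have h2 : 2 * B / κ < N := lt_of_lt_of_le hn₁ h1
    rw [div_lt_iff₀ hκ0] at h2
    linarith
  have hgN : κ ≤ B * N * g N := by
    have := hc.g_lower (n₀ + n₁)
    exact this
  set π : ℝ := g N - 1 / (N : ℝ) ^ 2 with hπ
  have hπ0 : 0 < π := by
    have h1 : κ / (B * N) ≤ g N := by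
      rw [div_le_iff₀ (by positivity)]; linarith
    have h2 : 1 / (N : ℝ) ^ 2 < κ / (B * N) := by
      rw [div_lt_div_iff₀ (by positivity) (by positivity)]
      nlinarith
    rw [hπ]; linarith
  have hglow : ∀ k, π ≤ g (N + k) := by
    intro k
    have h1 := hcmp N k (by omega) (by omega)
    have h2 : 0 ≤ 1 / ((N + k : ℕ) : ℝ) ^ 2 := by positivity
    rw [hπ]; linarith
  have hsum : ∀ k : ℕ, π * k ≤ ∑ m ∈ Finset.range (N + k), g m := by
    intro k
    rw [Finset.sum_range_add]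
    have h1 : 0 ≤ ∑ m ∈ Finset.range N, g m := Finset.sum_nonneg (fun m _ => hg0 m)
    have h2 : ∑ m ∈ Finset.range k, π ≤ ∑ m ∈ Finset.range k, g (N + m) :=
      Finset.sum_le_sum (fun m _ => hglow m)
    rw [Finset.sum_const, Finset.card_range, nsmul_eq_mul] at h2
    linarith
  set σ := ∑ i ∈ s, q i * x i ^ 2 with hσ
  have hσ0 : 0 < σ := hc.var_pos
  -- choice of `t`
  obtain ⟨t, ht0, ht⟩ : ∃ t : ℝ, 0 ≤ t ∧ 8 * B ^ 2 * Real.exp 1 * Real.exp (-t) ≤ σ * π / 2 := by
    have h1 : Filter.Tendsto (fun t : ℝ => 8 * B ^ 2 * Real.exp 1 * Real.exp (-t)) Filter.atTop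
        (nhds (8 * B ^ 2 * Real.exp 1 * 0)) :=
      (Real.tendsto_exp_atBot.comp Filter.tendsto_neg_atTop_atBot).const_mul _
    rw [mul_zero] at h1
    have h2 := (h1.eventually (ge_mem_nhds (show (0 : ℝ) < σ * π / 2 by positivity))).and
      (Filter.eventually_ge_atTop 0)
    obtain ⟨t, h3, h4⟩ := h2.exists
    exact ⟨t, h4, h3⟩
  -- conclusion at time `k²`
  obtain ⟨k, hk⟩ := exists_nat_gt ((2 * B ^ 2 * t + (B ^ 2 + σ * π * N)) / (σ * π / 2) + N + 1)
  have hk1 : (N : ℝ) + 1 < k := by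
    have : 0 ≤ (2 * B ^ 2 * t + (B ^ 2 + σ * π * N)) / (σ * π / 2) := by positivity
    linarith
  have hkN : N + 1 < k := by exact_mod_cast hk1
  have hk2 : 2 * B ^ 2 * t + (B ^ 2 + σ * π * N) < σ * π / 2 * k := by
    have h1 : (2 * B ^ 2 * t + (B ^ 2 + σ * π * N)) / (σ * π / 2) < k := by
      have : (0 : ℝ) ≤ N := Nat.cast_nonneg N
      linarith
    rw [div_lt_iff₀ (by positivity)] at h1
    linarith
  have hkk : N ≤ k ^ 2 := by nlinarith
  obtain ⟨j, hj⟩ := Nat.exists_eq_add_of_le hkk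
  have h1 := hc.v_lower (k ^ 2)
  have h2 := hc.v_upper hB (m := k) (t := t) (k ^ 2)
    (by push_cast; rw [Real.sqrt_sq (Nat.cast_nonneg k)]) (by nlinarith) ht0
  have h3 : σ * (π * j) ≤ σ * ∑ m ∈ Finset.range (k ^ 2), W s q x m (ind Surv) := by
    apply mul_le_mul_of_nonneg_left _ hσ0.le
    rw [hj]; exact hsum j
  have hjr : (j : ℝ) = (k : ℝ) ^ 2 - N := by
    have : ((k ^ 2 : ℕ) : ℝ) = ((N + j : ℕ) : ℝ) := by rw [hj]
    push_cast at this
    linarith
  rw [hjr] at h3
  push_cast at h2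
  have h4 : 8 * B ^ 2 * Real.exp 1 * Real.exp (-t) * (k : ℝ) ^ 2 ≤ σ * π / 2 * (k : ℝ) ^ 2 :=
    mul_le_mul_of_nonneg_right ht (sq_nonneg _)
  have h5 : σ * (π * ((k : ℝ) ^ 2 - N)) ≤ 2 * B ^ 2 * t * k + σ * π / 2 * (k : ℝ) ^ 2 + B ^ 2 := by
    linarith
  have hk0 : (1 : ℝ) ≤ k := by
    have : (0 : ℝ) ≤ N := Nat.cast_nonneg N
    linarith
  have h6 : (2 * B ^ 2 * t + (B ^ 2 + σ * π * N)) * k < σ * π / 2 * k * k :=
    mul_lt_mul_of_pos_right hk2 (by linarith)
  have h7 : (B ^ 2 + σ * π * N) ≤ (B ^ 2 + σ * π * N) * k := by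
    have : 0 ≤ B ^ 2 + σ * π * N := by positivity
    nlinarith
  nlinarith

end crit


/-! ### the finite stage -/

open Filter Topology

lemma exists_exp_lt {y : ℕ → ℝ} (hr : ∀ i ∈ s, 0 ≤ r i) (hd : 0 < ∑ i ∈ s, r i * y i) :
    ∃ θ : ℝ, 0 < θ ∧ ∑ i ∈ s, r i * Real.exp (-θ * y i) < ∑ i ∈ s, r i := by
  set d := ∑ i ∈ s, r i * y i with hdd
  set v := ∑ i ∈ s, r i * y i ^ 2 with hv
  have hv0 : 0 ≤ v := Finset.sum_nonneg (fun i hi => mul_nonneg (hr i hi) (sq_nonneg _))
  set M := ∑ i ∈ s, |y i| with hM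
  have hM0 : 0 ≤ M := Finset.sum_nonneg (fun i _ => abs_nonneg _)
  set θ := min (1 / (M + 1)) (d / (2 * (v + 1))) with hθ
  have hθ0 : 0 < θ := lt_min (by positivity) (by positivity)
  refine ⟨θ, hθ0, ?_⟩
  have h1 : ∀ i ∈ s, r i * Real.exp (-θ * y i) ≤ r i - θ * (r i * y i) + θ ^ 2 * (r i * y i ^ 2) := by
    intro i hi
    have h2 : |y i| ≤ M := Finset.single_le_sum (f := fun i => |y i|) (fun i _ => abs_nonneg _) hi
    have h3 : |-θ * y i| ≤ 1 := by
      rw [abs_mul, abs_neg, abs_of_pos hθ0]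
      have : θ ≤ 1 / (M + 1) := min_le_left _ _
      calc θ * |y i| ≤ 1 / (M + 1) * M := mul_le_mul this h2 (abs_nonneg _) (by positivity)
        _ ≤ 1 := by rw [div_mul_eq_mul_div, div_le_one (by positivity)]; linarith
    have h4 := (abs_le.1 (Real.abs_exp_sub_one_sub_id_le h3)).2
    have h5 : Real.exp (-θ * y i) ≤ 1 - θ * y i + θ ^ 2 * y i ^ 2 := by
      have : (-θ * y i) ^ 2 = θ ^ 2 * y i ^ 2 := by ring
      linarith
    calc r i * Real.exp (-θ * y i) ≤ r i * (1 - θ * y i + θ ^ 2 * y i ^ 2) :=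
          mul_le_mul_of_nonneg_left h5 (hr i hi)
      _ = _ := by ring
  have h2 := Finset.sum_le_sum h1
  rw [Finset.sum_add_distrib, Finset.sum_sub_distrib, ← Finset.mul_sum, ← Finset.mul_sum] at h2
  have h3 : θ * v < d := by
    have h4 : θ ≤ d / (2 * (v + 1)) := min_le_right _ _
    have h5 : θ * (2 * (v + 1)) ≤ d := by rwa [le_div_iff₀ (by positivity)] at h4
    nlinarith
  nlinarith

lemma exists_tilt {B : ℝ} (hr : ∀ i ∈ s, 0 < r i) (hd : 0 < ∑ i ∈ s, r i * x i)
    (hneg : ∃ i ∈ s, x i < 0) (hb : ∀ i ∈ s, |x i| ≤ B) :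
    ∃ (θ φ : ℝ) (q : ℕ → ℝ), 0 < θ ∧ 0 < φ ∧ (∀ i ∈ s, r i = φ * q i * Real.exp (θ * x i)) ∧
      Crit s q x B := by
  obtain ⟨i₁, hi₁, hx₁⟩ := hneg
  set f : ℝ → ℝ := fun θ => ∑ i ∈ s, r i * x i * Real.exp (-θ * x i) with hf
  have hcont : Continuous f := by
    apply continuous_finsetSum
    intro i _
    fun_prop
  have h0 : f 0 = ∑ i ∈ s, r i * x i := by
    simp [hf]
  -- negative for large `θ`
  obtain ⟨T, hT0, hT⟩ : ∃ T : ℝ, 0 < T ∧ f T < 0 := by
    set P := ∑ i ∈ s, r i * |x i| with hP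
    have hP0 : 0 ≤ P := Finset.sum_nonneg (fun i hi => mul_nonneg (hr i hi).le (abs_nonneg _))
    set a := r i₁ * (-x i₁) with ha
    have ha0 : 0 < a := mul_pos (hr _ hi₁) (by linarith)
    set b := -x i₁ with hb'
    have hb0 : 0 < b := by linarith
    refine ⟨(P / a + 1) / b, by positivity, ?_⟩
    set T := (P / a + 1) / b with hTd
    have hT0 : 0 < T := by positivity
    have h1 : f T = r i₁ * x i₁ * Real.exp (-T * x i₁) +
        ∑ i ∈ s.erase i₁, r i * x i * Real.exp (-T * x i) := by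
      rw [hf]; exact (Finset.add_sum_erase s (fun i => r i * x i * Real.exp (-T * x i)) hi₁).symm
    have h2 : ∑ i ∈ s.erase i₁, r i * x i * Real.exp (-T * x i) ≤ P := by
      have h3 : ∀ i ∈ s.erase i₁, r i * x i * Real.exp (-T * x i) ≤ r i * |x i| := by
        intro i hi
        have hri := (hr i (Finset.mem_of_mem_erase hi)).le
        by_cases h4 : 0 ≤ x i
        · have h5 : Real.exp (-T * x i) ≤ 1 := by rw [Real.exp_le_one_iff]; nlinarith
          rw [abs_of_nonneg h4]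
          have h6 : 0 ≤ r i * x i := mul_nonneg hri h4
          nlinarith
        · push Not at h4
          have h5 : r i * x i * Real.exp (-T * x i) ≤ 0 :=
            mul_nonpos_of_nonpos_of_nonneg (mul_nonpos_of_nonneg_of_nonpos hri h4.le)
              (Real.exp_pos _).le
          exact h5.trans (mul_nonneg hri (abs_nonneg _))
      refine (Finset.sum_le_sum h3).trans ?_
      exact Finset.sum_le_sum_of_subset_of_nonneg (Finset.erase_subset _ _)
        (fun i hi _ => mul_nonneg (hr i hi).le (abs_nonneg _))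
    have h3 : r i₁ * x i₁ * Real.exp (-T * x i₁) = -(a * Real.exp (P / a + 1)) := by
      have : -T * x i₁ = P / a + 1 := by
        have : -T * x i₁ = T * b := by rw [hb']; ring
        rw [this, hTd]; field_simp
      rw [this, ha]; ring
    have h4 : P < a * Real.exp (P / a + 1) := by
      have h5 := Real.add_one_le_exp (P / a + 1)
      have h6 : a * (P / a + 1 + 1) ≤ a * Real.exp (P / a + 1) :=
        mul_le_mul_of_nonneg_left h5 ha0.le
      have h7 : a * (P / a + 1 + 1) = P + 2 * a := by field_simp; ring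
      linarith
    rw [h1, h3]; linarith
  obtain ⟨θ, hθm, hθ⟩ : (0 : ℝ) ∈ f '' Set.Icc 0 T :=
    intermediate_value_Icc' hT0.le hcont.continuousOn ⟨hT.le, by rw [h0]; exact hd.le⟩
  have hθ0 : 0 < θ := by
    rcases hθm.1.lt_or_eq with h | h
    · exact h
    · rw [← h, h0] at hθ; linarith
  set φ := ∑ i ∈ s, r i * Real.exp (-θ * x i) with hφ
  have hφ0 : 0 < φ := Finset.sum_pos (fun i hi => mul_pos (hr i hi) (Real.exp_pos _)) ⟨i₁, hi₁⟩
  refine ⟨θ, φ, fun i => r i * Real.exp (-θ * x i) / φ, hθ0, hφ0, ?_, ?_⟩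
  · intro i _
    have : Real.exp (-θ * x i) * Real.exp (θ * x i) = 1 := by
      rw [← Real.exp_add]; simp
    calc r i = φ / φ * (r i * (Real.exp (-θ * x i) * Real.exp (θ * x i))) := by
          rw [this, div_self hφ0.ne']; ring
      _ = _ := by ring
  · refine ⟨?_, ?_, ?_, hb, ?_⟩
    · intro i hi
      exact div_nonneg (mul_nonneg (hr i hi).le (Real.exp_pos _).le) hφ0.le
    · rw [← Finset.sum_div, div_self hφ0.ne']
    · have : ∀ i ∈ s, r i * Real.exp (-θ * x i) / φ * x i = r i * x i * Real.exp (-θ * x i) / φ :=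
        fun i _ => by ring
      rw [Finset.sum_congr rfl this, ← Finset.sum_div]
      have h2 : ∑ i ∈ s, r i * x i * Real.exp (-θ * x i) = 0 := hθ
      rw [h2, zero_div]
    · have h2 : ∃ i ∈ s, 0 < x i := by
        by_contra hcon
        push Not at hcon
        have : ∑ i ∈ s, r i * x i ≤ 0 :=
          Finset.sum_nonpos (fun i hi => mul_nonpos_of_nonneg_of_nonpos (hr i hi).le (hcon i hi))
        linarith
      obtain ⟨i, hi, hxi⟩ := h2
      refine Finset.sum_pos' (fun i hi => ?_) ⟨i, hi, ?_⟩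
      · exact mul_nonneg (div_nonneg (mul_nonneg (hr i hi).le (Real.exp_pos _).le) hφ0.le)
          (le_max_right _ _)
      · exact mul_pos (div_pos (mul_pos (hr i hi) (Real.exp_pos _)) hφ0)
          (lt_max_of_lt_left hxi)


lemma hit_bdd_eventually {B θ φ : ℝ} {q : ℕ → ℝ} (hB : 0 < B) (hθ : 0 < θ) (hφ : 0 < φ)
    (hq : ∀ i ∈ s, r i = φ * q i * Real.exp (θ * x i)) (hc : Crit s q x B) {ε : ℝ} (hε : 0 < ε) :
    ∀ᶠ n : ℕ in atTop, 1 / (n : ℝ) ^ 3 ≤ W s q x n (ind Hit) →
      0 < W s r x n (ind Hit) ∧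
      W s r x n (fun l => ind Hit l * (1 - ind (Bdd ((n : ℝ) ^ ((3 : ℝ) / 4))) l)) ≤
        ε * W s r x n (ind Hit) := by
  -- the error term tends to zero
  have hlim : Tendsto (fun n : ℕ => Real.exp (θ * B) * Real.exp 1 * B ^ 16 *
      (((n : ℝ) ^ ((1 : ℝ) / 4) / B) ^ 16 * Real.exp (-((n : ℝ) ^ ((1 : ℝ) / 4) / B)))) atTop
      (𝓝 (Real.exp (θ * B) * Real.exp 1 * B ^ 16 * 0)) := by
    apply Tendsto.const_mul
    have h1 : Tendsto (fun n : ℕ => (n : ℝ) ^ ((1 : ℝ) / 4) / B) atTop atTop :=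
      Tendsto.atTop_div_const hB
        ((tendsto_rpow_atTop (by norm_num : (0 : ℝ) < 1 / 4)).comp tendsto_natCast_atTop_atTop)
    exact (Real.tendsto_pow_mul_exp_neg_atTop_nhds_zero 16).comp h1
  rw [mul_zero] at hlim
  filter_upwards [hlim.eventually (ge_mem_nhds hε), eventually_ge_atTop 1] with n hn hn1 hz
  have hn1' : (1 : ℝ) ≤ n := by exact_mod_cast hn1
  have hn0 : (0 : ℝ) < n := by linarith
  set a : ℝ := (n : ℝ) ^ ((1 : ℝ) / 4) with ha
  have ha0 : 0 < a := Real.rpow_pos_of_pos hn0 _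
  have ha4 : a ^ 4 = n := by
    rw [ha, ← Real.rpow_natCast, ← Real.rpow_mul hn0.le]; norm_num
  have hw : (n : ℝ) ^ ((3 : ℝ) / 4) = a ^ 3 := by
    rw [ha, ← Real.rpow_natCast, ← Real.rpow_mul hn0.le]; norm_num
  have ha1 : 1 ≤ a := by
    by_contra h
    push Not at h
    have : a ^ 4 < 1 := pow_lt_one₀ ha0.le h (by norm_num)
    linarith
  rw [hw]
  -- lower bound for `Z`
  have hlow : φ ^ n * (Real.exp (-θ * B) * W s q x n (ind Hit)) ≤ W s r x n (ind Hit) := by
    rw [W_tilt hq]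
    apply mul_le_mul_of_nonneg_left _ (pow_pos hφ n).le
    rw [← W_mul]
    apply W_mono hc.nonneg
    intro l hl
    by_cases h : Hit l
    · rw [ind_of h, mul_one, mul_one, Real.exp_le_exp]
      have := hc.hit_ge hl h
      nlinarith
    · rw [ind_of_not h]; simp
  have hz3 : 0 < 1 / (n : ℝ) ^ 3 := by positivity
  have hpos : 0 < W s r x n (ind Hit) := by
    refine lt_of_lt_of_le ?_ hlow
    have := lt_of_lt_of_le hz3 hz
    have h2 := Real.exp_pos (-θ * B)
    have h3 := pow_pos hφ n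
    positivity
  refine ⟨hpos, ?_⟩
  -- upper bound for the bad part
  have hup : W s r x n (fun l => ind Hit l * (1 - ind (Bdd (a ^ 3)) l)) ≤
      φ ^ n * W s q x n (fun l => 1 - ind (Bdd (a ^ 3)) l) := by
    rw [W_tilt hq]
    apply mul_le_mul_of_nonneg_left _ (pow_pos hφ n).le
    apply W_mono hc.nonneg
    intro l _
    have h1 := ind_le_one (Bdd (a ^ 3)) l
    by_cases h : Hit l
    · rw [ind_of h, one_mul]
      have h2 : Real.exp (θ * l.sum) ≤ 1 := by
        rw [Real.exp_le_one_iff]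
        have := h.sum_neg
        nlinarith
      nlinarith
    · rw [ind_of_not h]; simp only [zero_mul, mul_zero]; linarith
  have hθ' : (0 : ℝ) ≤ 1 / (B * a ^ 2) := by positivity
  have hθB : 1 / (B * a ^ 2) * B ≤ 1 := by
    have : 1 / (B * a ^ 2) * B = 1 / a ^ 2 := by field_simp
    rw [this, div_le_one (by positivity)]
    nlinarith
  have hbd := bdd_bound (s := s) (r := q) (x := x) hc.nonneg (w := a ^ 3) hθ' hc.total
    (hc.exp_le hθ' hθB) (by rw [Real.one_le_exp_iff]; positivity) n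
  have e1 : Real.exp ((1 / (B * a ^ 2)) ^ 2 * B ^ 2) ^ n = Real.exp 1 := by
    rw [← Real.exp_nat_mul]
    congr 1
    rw [← ha4]; field_simp
  have e2 : -(1 / (B * a ^ 2)) * a ^ 3 = -(a / B) := by field_simp
  rw [e1, e2] at hbd
  have h3 : W s r x n (fun l => ind Hit l * (1 - ind (Bdd (a ^ 3)) l)) ≤
      φ ^ n * (n * (Real.exp 1 * Real.exp (-(a / B)))) :=
    hup.trans (mul_le_mul_of_nonneg_left hbd (pow_pos hφ n).le)
  refine h3.trans ?_
  have h4 : φ ^ n * (Real.exp (-θ * B) * (1 / (n : ℝ) ^ 3)) ≤ W s r x n (ind Hit) :=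
    le_trans (mul_le_mul_of_nonneg_left (mul_le_mul_of_nonneg_left hz (Real.exp_pos _).le)
      (pow_pos hφ n).le) hlow
  refine le_trans ?_ (mul_le_mul_of_nonneg_left h4 hε.le)
  have h5 : φ ^ n * (n * (Real.exp 1 * Real.exp (-(a / B)))) =
      φ ^ n * (Real.exp (-θ * B) * (1 / (n : ℝ) ^ 3)) *
        (Real.exp (θ * B) * Real.exp 1 * B ^ 16 * ((a / B) ^ 16 * Real.exp (-(a / B)))) := by
    have e3 : (a / B) ^ 16 = (n : ℝ) ^ 4 / B ^ 16 := by
      rw [div_pow, ← ha4]; ring
    have e4 : Real.exp (-θ * B) * Real.exp (θ * B) = 1 := by rw [← Real.exp_add]; simp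
    rw [e3]
    calc φ ^ n * (n * (Real.exp 1 * Real.exp (-(a / B))))
        = (Real.exp (-θ * B) * Real.exp (θ * B)) * (B ^ 16 / B ^ 16) * ((n : ℝ) ^ 4 / (n : ℝ) ^ 4) *
          (φ ^ n * (n * (Real.exp 1 * Real.exp (-(a / B))))) := by
          rw [e4, div_self (by positivity), div_self (by positivity)]; ring
      _ = _ := by
          field_simp
  rw [h5, mul_comm ε]
  exact mul_le_mul_of_nonneg_left hn (by positivity)

theorem stage {B γ ε c C : ℝ} {i₀ : ℕ} (hr : ∀ i ∈ s, 0 < r i) (hd : 0 < ∑ i ∈ s, r i * x i)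
    (hneg : ∃ i ∈ s, x i < 0) (hi₀ : i₀ ∈ s) (hxi : x i₀ = c) (hc0 : 0 < c)
    (hb : ∀ i ∈ s, |x i| ≤ B)
    (hγ : γ * ∑ i ∈ s, r i < ∑ i ∈ s, r i * x i) (hε : 0 < ε) (hC : 0 ≤ C) {p : ℕ → Prop}
    (hp : ∀ᶠ n in atTop, p n) (M : ℕ) :
    ∃ n, M ≤ n ∧ p (n + 2) ∧ 0 < W s r x (n + 2) (ind Hit) ∧
      W s r x (n + 2) (fun l => ind Hit l *
        (1 - ind (Bdd (((n + 2 : ℕ) : ℝ) ^ ((3 : ℝ) / 4))) l)) ≤ ε * W s r x (n + 2) (ind Hit) ∧
      0 < W s r x (n + 1) (ind Surv) ∧
      W s r x (n + 1) (fun l => ind Surv l *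
        (1 - ind (Lin (((n + 2 : ℕ) : ℝ) ^ ((1 : ℝ) / 8)) γ) l)) ≤ ε * W s r x (n + 1) (ind Surv) ∧
      C * ((n + 2 : ℕ) : ℝ) * W s r x (n + 2) (ind Hit) ≤ W s r x (n + 1) (ind Surv) := by
  have hr' : ∀ i ∈ s, 0 ≤ r i := fun i hi => (hr i hi).le
  have hB : 0 < B := lt_of_lt_of_le (by rw [hxi, abs_of_pos hc0]; exact hc0) (hb i₀ hi₀)
  obtain ⟨θ, φ, q, hθ, hφ, hq, hcr⟩ := exists_tilt hr hd hneg hb
  set R := ∑ i ∈ s, r i with hRd
  have hR : 0 < R := Finset.sum_pos hr ⟨i₀, hi₀⟩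
  -- survival
  obtain ⟨θ₁, hθ₁, hφ₁⟩ := exists_exp_lt (s := s) (r := r) (y := x) hr' hd
  set κ := r i₀ * (1 - Real.exp (-θ₁ * c)) with hκ
  have hκ0 : 0 < κ := by
    apply mul_pos (hr _ hi₀)
    have : Real.exp (-θ₁ * c) < 1 := by rw [Real.exp_lt_one_iff]; nlinarith
    linarith
  have hsurv : ∀ n, R ^ n * κ ≤ W s r x (n + 1) (ind Surv) := fun n =>
    surv_lower hr' hθ₁ hc0 hi₀ hxi hφ₁.le n
  -- passage
  set φ₁ := ∑ i ∈ s, r i * Real.exp (-θ₁ * x i) with hφ₁d
  have hφ₁0 : 0 ≤ φ₁ := Finset.sum_nonneg (fun i hi => mul_nonneg (hr' i hi) (Real.exp_pos _).le)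
  have hhit : ∀ n, W s r x n (ind Hit) ≤ φ₁ ^ n := fun n => hit_upper hr' hθ₁.le n
  have h1 : ∀ᶠ n : ℕ in atTop, C * ((n + 2 : ℕ) : ℝ) * φ₁ ^ (n + 2) ≤ R ^ n * κ := by
    set ρ := φ₁ / R with hρ
    have hρ0 : 0 ≤ ρ := div_nonneg hφ₁0 hR.le
    have hρ1 : ρ < 1 := (div_lt_one hR).2 hφ₁
    have h2 : Tendsto (fun n : ℕ => C * R ^ 2 * (((n + 2 : ℕ) : ℝ) * ρ ^ (n + 2))) atTop
        (𝓝 (C * R ^ 2 * 0)) := by
      apply Tendsto.const_mul
      exact (tendsto_self_mul_const_pow_of_lt_one hρ0 hρ1).comp (tendsto_add_atTop_nat 2)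
    rw [mul_zero] at h2
    filter_upwards [h2.eventually (ge_mem_nhds hκ0)] with n hn
    have h3 : φ₁ = ρ * R := by rw [hρ]; field_simp
    rw [h3, mul_pow]
    calc C * ((n + 2 : ℕ) : ℝ) * (ρ ^ (n + 2) * R ^ (n + 2))
        = R ^ n * (C * R ^ 2 * (((n + 2 : ℕ) : ℝ) * ρ ^ (n + 2))) := by ring
      _ ≤ R ^ n * κ := mul_le_mul_of_nonneg_left hn (pow_pos hR n).le
  -- linear growth
  have hd2 : 0 < ∑ i ∈ s, r i * (x i - γ) := by
    have : ∑ i ∈ s, r i * (x i - γ) = ∑ i ∈ s, r i * x i - γ * R := by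
      rw [hRd, Finset.mul_sum, ← Finset.sum_sub_distrib]
      exact Finset.sum_congr rfl (fun i _ => by ring)
    rw [this]; linarith
  obtain ⟨θ₂, hθ₂, hφ₂⟩ := exists_exp_lt (s := s) (r := r) (y := fun i => x i - γ) hr' hd2
  set ρ₂ := (∑ i ∈ s, r i * Real.exp (-θ₂ * (x i - γ))) / R with hρ₂
  have hρ₂0 : 0 ≤ ρ₂ := div_nonneg
    (Finset.sum_nonneg (fun i hi => mul_nonneg (hr' i hi) (Real.exp_pos _).le)) hR.le
  have hρ₂1 : ρ₂ < 1 := (div_lt_one hR).2 hφ₂
  have h2 : ∀ᶠ n : ℕ in atTop,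
      W s r x (n + 1) (fun l => ind Surv l *
        (1 - ind (Lin (((n + 2 : ℕ) : ℝ) ^ ((1 : ℝ) / 8)) γ) l)) ≤ ε * (R ^ n * κ) := by
    have h3 : Tendsto (fun n : ℕ => R / (1 - ρ₂) * ρ₂ ^ ⌈((n + 2 : ℕ) : ℝ) ^ ((1 : ℝ) / 8)⌉₊) atTop
        (𝓝 (R / (1 - ρ₂) * 0)) := by
      apply Tendsto.const_mul
      apply (tendsto_pow_atTop_nhds_zero_of_lt_one hρ₂0 hρ₂1).comp
      apply (tendsto_nat_ceil_atTop (α := ℝ)).comp
      exact (tendsto_rpow_atTop (by norm_num : (0 : ℝ) < 1 / 8)).comp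
        (tendsto_natCast_atTop_atTop.comp (tendsto_add_atTop_nat 2))
    rw [mul_zero] at h3
    filter_upwards [h3.eventually (ge_mem_nhds (show 0 < ε * κ by positivity))] with n hn
    set K : ℝ := ((n + 2 : ℕ) : ℝ) ^ ((1 : ℝ) / 8) with hK
    have h4 : W s r x (n + 1) (fun l => ind Surv l * (1 - ind (Lin K γ) l)) ≤
        W s r x (n + 1) (fun l => 1 - ind (Lin K γ) l) := by
      apply W_mono hr'
      intro l _
      have h5 := ind_le_one Surv l
      have h6 := ind_le_one (Lin K γ) l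
      nlinarith
    have h5 := lin_bound (s := s) (r := r) (x := x) hr' (K := K) (γ := γ) (ρ := ρ₂) hθ₂.le hR
      (by rw [hρ₂, ← hRd]; field_simp; exact le_rfl) hρ₂0 (n + 1)
    have h6 : ∑ k ∈ (Finset.range (n + 1 + 1)).filter (fun k : ℕ => K ≤ (k : ℝ)), ρ₂ ^ k ≤
        ρ₂ ^ ⌈K⌉₊ / (1 - ρ₂) := by
      refine le_trans ?_ (geom_sum_Ico_le_of_lt_one (m := ⌈K⌉₊) (n := n + 1 + 1) hρ₂0 hρ₂1)
      apply Finset.sum_le_sum_of_subset_of_nonneg
      · intro k hk
        rw [Finset.mem_filter, Finset.mem_range] at hk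
        rw [Finset.mem_Ico]
        exact ⟨Nat.ceil_le.2 hk.2, hk.1⟩
      · intro i _ _
        exact pow_nonneg hρ₂0 i
    refine h4.trans (h5.trans ?_)
    have h7 := mul_le_mul_of_nonneg_left h6 (pow_pos hR (n + 1)).le
    refine h7.trans ?_
    calc R ^ (n + 1) * (ρ₂ ^ ⌈K⌉₊ / (1 - ρ₂)) = R ^ n * (R / (1 - ρ₂) * ρ₂ ^ ⌈K⌉₊) := by ring
      _ ≤ R ^ n * (ε * κ) := mul_le_mul_of_nonneg_left hn (pow_pos hR n).le
      _ = _ := by ring
  -- choice of `n`
  have h3 := hit_bdd_eventually hB hθ hφ hq hcr hε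
  have h4 : ∀ᶠ n : ℕ in atTop, p n ∧ (1 / (n : ℝ) ^ 3 ≤ W s q x n (ind Hit) →
      0 < W s r x n (ind Hit) ∧
      W s r x n (fun l => ind Hit l * (1 - ind (Bdd ((n : ℝ) ^ ((3 : ℝ) / 4))) l)) ≤
        ε * W s r x n (ind Hit)) := hp.and h3
  obtain ⟨M₁, hM₁⟩ := eventually_atTop.1 (h1.and h2)
  obtain ⟨M₂, hM₂⟩ := eventually_atTop.1 h4
  obtain ⟨n, hn, hn1, hz⟩ := hcr.frequently hB (M + M₁ + M₂ + 2)
  obtain ⟨m, rfl⟩ : ∃ m, n = m + 2 := ⟨n - 2, by omega⟩
  obtain ⟨h5, h6⟩ := hM₁ m (by omega)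
  obtain ⟨h7, h8⟩ := hM₂ (m + 2) (by omega)
  obtain ⟨h9, h10⟩ := h8 hz
  have h11 : 0 < R ^ m * κ := mul_pos (pow_pos hR m) hκ0
  refine ⟨m, by omega, h7, h9, h10, lt_of_lt_of_le h11 (hsurv m), ?_, ?_⟩
  · exact h6.trans (mul_le_mul_of_nonneg_left (hsurv m) hε.le)
  · have h12 : C * ((m + 2 : ℕ) : ℝ) * W s r x (m + 2) (ind Hit) ≤
        C * ((m + 2 : ℕ) : ℝ) * φ₁ ^ (m + 2) :=
      mul_le_mul_of_nonneg_left (hhit (m + 2)) (by positivity)
    exact h12.trans (h5.trans (hsurv m))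

end Pool.Agent.H97.QWalk
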